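import Mathlib

/-!
# MP_1c8600_lc, CH half: category quantifiers
-/

set_option autoImplicit false

open Set Filter Topology TopologicalSpace

namespace Pool.CH

/-! ### Facts used for the concrete instances in `Space.lean` -/

theorem polProd (X Y : Type) [TopologicalSpace X] [TopologicalSpace Y]
    [PolishSpace X] [PolishSpace Y] : PolishSpace (X × Y) :=
  { toSecondCountableTopology := inferInstance
    toIsCompletelyMetrizableSpace := inferInstance }

theorem polPi (X : Type) [TopologicalSpace X] [PolishSpace X] : PolishSpace (ℕ → X) :=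
  { toSecondCountableTopology := inferInstance
    toIsCompletelyMetrizableSpace := inferInstance }

theorem borPi (X : Type) [TopologicalSpace X] [PolishSpace X]
    [MeasurableSpace X] [BorelSpace X] : BorelSpace (ℕ → X) :=
  Pi.borelSpace

theorem borProd (X Y : Type) [TopologicalSpace X] [TopologicalSpace Y]
    [PolishSpace X] [PolishSpace Y] [MeasurableSpace X] [MeasurableSpace Y] [BorelSpace X]
    [BorelSpace Y] : BorelSpace (X × Y) :=
  Prod.borelSpace

theorem baireOfPolish (X : Type) [TopologicalSpace X] [PolishSpace X] : BaireSpace X :=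
  inferInstance

section

variable {X Y : Type} [TopologicalSpace X] [TopologicalSpace Y]

/-- A map with continuous sections through all points is open. -/
theorem isOpenMap_of_section {f : X → Y}
    (h : ∀ x, ∃ s : Y → X, Continuous s ∧ s (f x) = x ∧ ∀ y, f (s y) = y) : IsOpenMap f := by
  intro U hU
  rw [isOpen_iff_mem_nhds]
  rintro _ ⟨x, hx, rfl⟩
  obtain ⟨s, hs, hsx, hfs⟩ := h x
  have h1 : s ⁻¹' U ∈ 𝓝 (f x) := (hU.preimage hs).mem_nhds (by
    rw [Set.mem_preimage, hsx]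
    exact hx)
  exact mem_of_superset h1 fun y hy => ⟨s y, hy, hfs y⟩

private theorem ku_dense_CAT1 [SecondCountableTopology Y] {t : Set (X × Y)} (ht : IsOpen t)
    (hd : Dense t) : ∀ᵇ x, ∀ᵇ y, (x, y) ∈ t := by
  have h1 : ∀ O ∈ countableBasis Y, ∀ᵇ x : X, ∃ y ∈ O, (x, y) ∈ t := by
    intro O hO
    have hOo : IsOpen O := isOpen_of_mem_countableBasis hO
    have hOn : O.Nonempty := nonempty_of_mem_countableBasis hO
    have e : {x : X | ∃ y ∈ O, (x, y) ∈ t} = Prod.fst '' (t ∩ (univ ×ˢ O)) := by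
      ext x
      constructor
      · rintro ⟨y, hy, hxy⟩
        exact ⟨(x, y), ⟨hxy, mem_univ _, hy⟩, rfl⟩
      · rintro ⟨⟨x', y⟩, ⟨hxy, _, hy⟩, rfl⟩
        exact ⟨y, hy, hxy⟩
    have h2 : IsOpen {x : X | ∃ y ∈ O, (x, y) ∈ t} := by
      rw [e]
      exact isOpenMap_fst _ (ht.inter (isOpen_univ.prod hOo))
    have h3 : Dense {x : X | ∃ y ∈ O, (x, y) ∈ t} := by
      rw [dense_iff_inter_open]
      rintro V hV ⟨x0, hx0⟩
      obtain ⟨y0, hy0⟩ := hOn
      obtain ⟨⟨x, y⟩, ⟨hx, hy⟩, hxy⟩ := hd.inter_open_nonempty (V ×ˢ O) (hV.prod hOo)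
        ⟨(x0, y0), hx0, hy0⟩
      exact ⟨x, hx, y, hy, hxy⟩
    exact residual_of_dense_open h2 h3
  have h2 : ∀ᵇ x : X, ∀ O ∈ countableBasis Y, ∃ y ∈ O, (x, y) ∈ t :=
    (eventually_countable_ball (countable_countableBasis Y)).mpr h1
  filter_upwards [h2] with x hx
  refine residual_of_dense_open (s := {y : Y | (x, y) ∈ t})
    (ht.preimage (Continuous.prodMk_right x)) ?_
  rw [(isBasis_countableBasis Y).dense_iff]
  intro O hO _
  obtain ⟨y, hy, hxy⟩ := hx O hO
  exact ⟨y, hy, hxy⟩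

/-- Kuratowski–Ulam, the direction which needs no measurability. -/
theorem ku [SecondCountableTopology Y] {P : X × Y → Prop} (h : ∀ᵇ z, P z) :
    ∀ᵇ x, ∀ᵇ y, P (x, y) := by
  obtain ⟨S, hSo, hSd, hSc, hS⟩ := mem_residual_iff.mp h
  have h1 : ∀ᵇ x : X, ∀ t ∈ S, ∀ᵇ y, (x, y) ∈ t :=
    (eventually_countable_ball hSc).mpr fun t ht => ku_dense_CAT1 (hSo t ht) (hSd t ht)
  filter_upwards [h1] with x hx
  have h2 : ∀ᵇ y, ∀ t ∈ S, (x, y) ∈ t := (eventually_countable_ball hSc).mpr hx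
  filter_upwards [h2] with y hy
  exact hS (Set.mem_sInter.mpr hy)

/-- A measurable nonmeager set is comeager in some basic open set. -/
theorem nonmeager_open [SecondCountableTopology Y] [BaireSpace Y] [MeasurableSpace Y]
    [BorelSpace Y] {B : Set Y} (hB : MeasurableSet B) (h : ¬ ∀ᵇ y, y ∉ B) :
    ∃ O ∈ countableBasis Y, O.Nonempty ∧ ∀ᵇ y, y ∈ O → y ∈ B := by
  obtain ⟨U, hU, hBU⟩ := hB.residualEq_isOpen
  rw [eventuallyEq_set] at hBU
  have hne : U.Nonempty := by
    by_contra hne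
    rw [Set.not_nonempty_iff_eq_empty] at hne
    apply h
    filter_upwards [hBU] with y hy hyB
    rw [hne] at hy
    exact hy.mp hyB
  obtain ⟨y, hy⟩ := hne
  obtain ⟨O, hO, hyO, hOU⟩ := (isBasis_countableBasis Y).exists_subset_of_mem_open hy hU
  refine ⟨O, hO, ⟨y, hyO⟩, ?_⟩
  filter_upwards [hBU] with z hz hzO
  exact hz.mpr (hOU hzO)

private theorem ex_CAT2 [BaireSpace X] {P : X → Prop} {O : Set X} (hO : IsOpen O)
    (hne : O.Nonempty) (h : ∀ᵇ x, P x) : ∃ x ∈ O, P x := by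
  have h1 : Dense {x | P x} := dense_of_mem_residual h
  obtain ⟨x, hx, hP⟩ := h1.inter_open_nonempty O hO hne
  exact ⟨x, hx, hP⟩

/-- Kuratowski–Ulam, the other direction. -/
theorem ku_conv [PolishSpace X] [PolishSpace Y] [MeasurableSpace X] [BorelSpace X]
    [MeasurableSpace Y] [BorelSpace Y] {B : Set (X × Y)} (hB : MeasurableSet B)
    (h : ∀ᵇ x, ∀ᵇ y, (x, y) ∈ B) : ∀ᵇ z, z ∈ B := by
  by_contra hcon
  have h1 : ¬ ∀ᵇ z, z ∉ Bᶜ := by
    intro h1
    apply hcon
    filter_upwards [h1] with z hz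
    exact not_not.mp hz
  obtain ⟨O, hO, ⟨⟨x0, y0⟩, hz0⟩, hOB⟩ := nonmeager_open hB.compl h1
  have hOo : IsOpen O := isOpen_of_mem_countableBasis hO
  obtain ⟨O1, O2, h1o, h2o, hx0, hy0, h12⟩ := isOpen_prod_iff.mp hOo x0 y0 hz0
  have h2 := ku hOB
  obtain ⟨x, hx, hx1, hx2⟩ := ex_CAT2 h1o ⟨x0, hx0⟩ (h.and h2)
  obtain ⟨y, hy, hy1, hy2⟩ := ex_CAT2 h2o ⟨y0, hy0⟩ (hx1.and hx2)
  exact hy2 (h12 ⟨hx, hy⟩) hy1

theorem of_open_surj [BaireSpace X] [MeasurableSpace Y] [BorelSpace Y] {f : X → Y}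
    (hc : Continuous f) (ho : IsOpenMap f) (hs : Function.Surjective f) {B : Set Y}
    (hB : MeasurableSet B) (h : ∀ᵇ x, f x ∈ B) : ∀ᵇ y, y ∈ B := by
  obtain ⟨U, hU, hBU⟩ := hB.compl.residualEq_isOpen
  rw [eventuallyEq_set] at hBU
  have hU0 : U = ∅ := by
    by_contra hne
    rw [← Ne, ← Set.nonempty_iff_ne_empty] at hne
    obtain ⟨y, hy⟩ := hne
    obtain ⟨x, rfl⟩ := hs y
    have h1 : ∀ᵇ x, (f x ∈ Bᶜ ↔ f x ∈ U) :=
      (tendsto_residual_of_isOpenMap hc ho).eventually hBU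
    obtain ⟨x', hx', hx1, hx2⟩ := ex_CAT2 (hU.preimage hc) ⟨x, hy⟩ (h.and h1)
    exact (hx2.mpr hx') hx1
  filter_upwards [hBU] with y hy
  rw [hU0] at hy
  by_contra hyB
  exact hy.mp hyB

theorem tendsto_residual_of_somewhere {f : X → Y} (hc : Continuous f)
    (h : ∀ U : Set X, IsOpen U → U.Nonempty → (interior (f '' U)).Nonempty) :
    Tendsto f (residual X) (residual Y) := by
  apply le_countableGenerate_iff_of_countableInterFilter.mpr
  rintro t ⟨ht, htd⟩
  refine residual_of_dense_open (ht.preimage hc) ?_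
  rw [dense_iff_inter_open]
  intro U hU hne
  obtain ⟨y, hy, hyt⟩ := htd.inter_open_nonempty _ isOpen_interior (h U hU hne)
  obtain ⟨x, hx, rfl⟩ := interior_subset hy
  exact ⟨x, hx, hyt⟩

/-- A property which holds at all points of a nonempty open set does not fail almost everywhere. -/
theorem exists_of_residual_open [BaireSpace X] {P : X → Prop} {O : Set X} (hO : IsOpen O)
    (hne : O.Nonempty) (h : ∀ᵇ x, P x) : ∃ x ∈ O, P x :=
  ex_CAT2 hO hne h

end

section CAT4

variable {S Y : Type} [MeasurableSpace S] [TopologicalSpace Y] [PolishSpace Y]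
    [MeasurableSpace Y] [BorelSpace Y]

/-- The category quantifiers over all open sets preserve measurability. -/
def Q_CAT4 (B : Set (S × Y)) : Prop :=
  ∀ O : Set Y, IsOpen O → MeasurableSet {s : S | ∀ᵇ y : Y, y ∈ O → (s, y) ∈ B}

theorem compl_CAT4 {B : Set (S × Y)} (hB : MeasurableSet B) (h : Q_CAT4 B) : Q_CAT4 Bᶜ := by
  intro O hO
  have key : {s : S | ∀ᵇ y : Y, y ∈ O → (s, y) ∈ Bᶜ} =
      ⋂ O' ∈ {O' ∈ countableBasis Y | O'.Nonempty ∧ O' ⊆ O},
        {s : S | ∀ᵇ y : Y, y ∈ O' → (s, y) ∈ B}ᶜ := by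
    ext s
    simp only [mem_ofPred_eq, mem_iInter, mem_compl_iff, and_imp]
    constructor
    · intro h1 O' hO' hne hsub h2
      obtain ⟨y, hy, h3, h4⟩ := exists_of_residual_open (isOpen_of_mem_countableBasis hO') hne
        (h1.and h2)
      exact h3 (hsub hy) (h4 hy)
    · intro h1
      by_contra h2
      have hm : MeasurableSet {y : Y | y ∈ O ∧ (s, y) ∈ B} :=
        hO.measurableSet.inter (measurable_prodMk_left hB)
      obtain ⟨O', hO', hne, h3⟩ := nonmeager_open hm (fun h3 => h2 (h3.mono fun y hy hyO hyB =>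
        hy ⟨hyO, hyB⟩))
      obtain ⟨y, hy, hyO⟩ := exists_of_residual_open (isOpen_of_mem_countableBasis hO') hne h3
      obtain ⟨O'', hO'', hyO'', hsub⟩ := (isBasis_countableBasis Y).exists_subset_of_mem_open
        (show y ∈ O' ∩ O from ⟨hy, (hyO hy).1⟩)
        ((isOpen_of_mem_countableBasis hO').inter hO)
      exact h1 O'' hO'' ⟨y, hyO''⟩ (fun z hz => (hsub hz).2)
        (h3.mono fun z hz hzO => (hz (hsub hzO).1).2)
  rw [key]
  refine MeasurableSet.biInter ((countable_countableBasis Y).mono fun O' h' => h'.1) ?_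
  intro O' hO'
  exact (h O' (isOpen_of_mem_countableBasis hO'.1)).compl

omit [PolishSpace Y] [MeasurableSpace Y] [BorelSpace Y] in
theorem inter_CAT4 {B : ℕ → Set (S × Y)} (h : ∀ n, Q_CAT4 (B n)) : Q_CAT4 (⋂ n, B n) := by
  intro O hO
  have key : {s : S | ∀ᵇ y : Y, y ∈ O → (s, y) ∈ ⋂ n, B n} =
      ⋂ n, {s : S | ∀ᵇ y : Y, y ∈ O → (s, y) ∈ B n} := by
    ext s
    simp only [mem_ofPred_eq, mem_iInter]
    rw [← eventually_countable_forall]
    constructor
    · intro h1
      exact h1.mono fun y hy n hyO => hy hyO n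
    · intro h1
      exact h1.mono fun y hy hyO n => hy n hyO
  rw [key]
  exact MeasurableSet.iInter fun n => h n O hO

theorem all_CAT4 {B : Set (S × Y)} (hB : MeasurableSet B) : Q_CAT4 B := by
  have hg : (inferInstance : MeasurableSpace (S × Y)) =
      MeasurableSpace.generateFrom
        (image2 (· ×ˢ ·) {s : Set S | MeasurableSet s} {t : Set Y | MeasurableSet t}) :=
    generateFrom_prod.symm
  have h := MeasurableSpace.generateFrom_induction
    (image2 (· ×ˢ ·) {s : Set S | MeasurableSet s} {t : Set Y | MeasurableSet t})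
    (p := fun B _ => MeasurableSet B ∧ Q_CAT4 B) ?_ ?_ ?_ ?_ B (by rw [← hg]; exact hB)
  · exact h.2
  · rintro _ ⟨A, hA, T, hT, rfl⟩ -
    have hA' : MeasurableSet A := hA
    have hT' : MeasurableSet T := hT
    refine ⟨hA'.prod hT', fun O _ => ?_⟩
    have key : {s : S | ∀ᵇ y : Y, y ∈ O → (s, y) ∈ A ×ˢ T} =
        (A ∩ {_s | ∀ᵇ y : Y, y ∈ O → y ∈ T}) ∪ (Aᶜ ∩ {_s | ∀ᵇ y : Y, y ∉ O}) := by
      ext s
      by_cases hs : s ∈ A
      · simp [hs]
      · simp [hs]
    rw [key]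
    exact (hA'.inter (MeasurableSet.const _)).union (hA'.compl.inter (MeasurableSet.const _))
  · refine ⟨MeasurableSet.empty, fun O _ => ?_⟩
    have key : {s : S | ∀ᵇ y : Y, y ∈ O → (s, y) ∈ (∅ : Set (S × Y))} =
        {_s | ∀ᵇ y : Y, y ∉ O} := by
      ext s
      simp
    rw [key]
    exact MeasurableSet.const _
  · rintro t - ⟨h1, h2⟩
    exact ⟨h1.compl, compl_CAT4 h1 h2⟩
  · rintro s - hs
    refine ⟨MeasurableSet.iUnion fun n => (hs n).1, ?_⟩
    have e : (⋃ n, s n) = (⋂ n, (s n)ᶜ)ᶜ := by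
      rw [compl_iInter]
      simp
    rw [e]
    exact compl_CAT4 (MeasurableSet.iInter fun n => (hs n).1.compl)
      (inter_CAT4 fun n => compl_CAT4 (hs n).1 (hs n).2)

end CAT4

/-- The category quantifier preserves measurability. -/
theorem measurableSet_all {S Y : Type} [MeasurableSpace S] [TopologicalSpace Y] [PolishSpace Y]
    [MeasurableSpace Y] [BorelSpace Y] {B : Set (S × Y)} (hB : MeasurableSet B) :
    MeasurableSet {s : S | ∀ᵇ y : Y, (s, y) ∈ B} := by
  have h := all_CAT4 hB univ isOpen_univ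
  simpa using h

end Pool.CH
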