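import Pool.Agent.Lib.MP_1c8600_ch.Quant

/-!
# MP_1c8600_lc, CH half: the generic sequence
-/

set_option autoImplicit false

open Set Filter Topology TopologicalSpace Cardinal

namespace Pool.CH

section

variable {Λ : Type} [LinearOrder Λ]

/-- The sequences which arise from the default sequence by finitely many changes to values `v μ`,
`μ < lam`. -/
inductive Seq (v : Λ → V) (lam : Λ) : (ℕ → V) → Prop
  | base : Seq v lam (fun _ => v0)
  | upd (z : ℕ → V) (j : ℕ) (μ : Λ) (hμ : μ < lam) (hz : Seq v lam z) :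
      Seq v lam (Function.update z j (v μ))

/-- The element `v lam` is generic with respect to `B` over the earlier ones. -/
def LL (v : Λ → V) (B : Set (ℕ → V)) (lam : Λ) : Prop :=
  ∀ z, Seq v lam z → ∀ (j : ℕ) (J : Finset ℕ),
    (∀ᵇ w : W, All J B (Function.update z j ((v lam).1, w))) →
      All J B (Function.update z j (v lam))

theorem Seq.mono {v : Λ → V} {a b : Λ} (h : a ≤ b) {z : ℕ → V} (hz : Seq v a z) : Seq v b z := by
  induction hz with
  | base => exact Seq.base
  | upd z j μ hμ _ ih => exact Seq.upd z j μ (lt_of_lt_of_le hμ h) ih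

theorem Seq.congr {v v' : Λ → V} {a : Λ} (h : ∀ b < a, v b = v' b) {z : ℕ → V}
    (hz : Seq v a z) : Seq v' a z := by
  induction hz with
  | base => exact Seq.base
  | upd z j μ hμ _ ih =>
    rw [h μ hμ]
    exact Seq.upd z j μ hμ ih

theorem Seq.fill {v : Λ → V} {a : Λ} (P : Finset ℕ) (st : ℕ → Λ) (p : ℕ → Prop) [DecidablePred p]
    (h : ∀ j ∈ P, p j → st j < a) :
    Seq v a (fun j => if j ∈ P ∧ p j then v (st j) else v0) := by
  induction P using Finset.induction_on with
  | empty =>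
    have h1 : (fun j : ℕ => if j ∈ (∅ : Finset ℕ) ∧ p j then v (st j) else v0) = fun _ => v0 := by
      funext j
      simp
    rw [h1]
    exact Seq.base
  | insert i s his ih =>
    have ih' := ih (fun j hj hp => h j (Finset.mem_insert_of_mem hj) hp)
    by_cases hpi : p i
    · have h1 : (fun j : ℕ => if j ∈ insert i s ∧ p j then v (st j) else v0) =
          Function.update (fun j : ℕ => if j ∈ s ∧ p j then v (st j) else v0) i (v (st i)) := by
        funext j
        by_cases hji : j = i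
        · subst hji
          simp [hpi]
        · rw [Function.update_of_ne hji]
          simp [Finset.mem_insert, hji]
      rw [h1]
      exact Seq.upd _ i (st i) (h i (Finset.mem_insert_self i s) hpi) ih'
    · have h1 : (fun j : ℕ => if j ∈ insert i s ∧ p j then v (st j) else v0) =
          (fun j : ℕ => if j ∈ s ∧ p j then v (st j) else v0) := by
        funext j
        by_cases hji : j = i
        · subst hji
          simp [hpi]
        · simp [Finset.mem_insert, hji]
      rw [h1]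
      exact ih'

theorem countable_Seq (v : Λ → V) {a : Λ} (ha : (Iio a).Countable) :
    {z | Seq v a z}.Countable := by
  haveI : Countable (Iio a) := ha.to_subtype
  refine (Set.countable_range (fun l : List (ℕ × Iio a) =>
    l.foldr (fun q z => Function.update z q.1 (v q.2)) (fun _ => v0))).mono ?_
  intro z hz
  induction hz with
  | base => exact ⟨[], rfl⟩
  | upd z j μ hμ _ ih =>
    obtain ⟨l, hl⟩ := ih
    exact ⟨(j, ⟨μ, hμ⟩) :: l, by rw [← hl]; rfl⟩

private theorem dense_ne_EX2 (a : C) : Dense ({a}ᶜ : Set C) := by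
  intro x
  by_cases hx : x = a
  · subst hx
    have ht : Tendsto (fun n : ℕ => (Function.update x n (!x n) : C)) atTop (𝓝 x) := by
      rw [tendsto_pi_nhds]
      intro k
      apply tendsto_const_nhds.congr'
      filter_upwards [eventually_gt_atTop k] with n hn
      rw [Function.update_of_ne (by omega)]
    refine mem_closure_of_tendsto ht (Eventually.of_forall fun n => ?_)
    intro h
    have := congrFun (h : Function.update x n (!x n) = x) n
    simp at this
  · exact subset_closure hx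

theorem residual_label (a : C) : ∀ᵇ w : W, w.1 ≠ a := by
  have h1 : IsOpen {w : W | w.1 ≠ a} :=
    (isOpen_compl_singleton (x := a)).preimage continuous_fst
  have h2 : Dense {w : W | w.1 ≠ a} := (dense_ne_EX2 a).preimage isOpenMap_fst
  exact residual_of_dense_open h1 h2

private theorem dense_hit_EX2 (c : ℕ) : Dense {p : ℕ → ℕ | ∃ n, p n = c} := by
  intro p
  have ht : Tendsto (fun n : ℕ => (Function.update p n c : ℕ → ℕ)) atTop (𝓝 p) := by
    rw [tendsto_pi_nhds]
    intro k
    apply tendsto_const_nhds.congr'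
    filter_upwards [eventually_gt_atTop k] with n hn
    rw [Function.update_of_ne (by omega)]
  exact mem_closure_of_tendsto ht (Eventually.of_forall fun n => ⟨n, by simp⟩)

private theorem open_hit_EX2 (c : ℕ) : IsOpen {p : ℕ → ℕ | ∃ n, p n = c} := by
  have : {p : ℕ → ℕ | ∃ n, p n = c} = ⋃ n, {p : ℕ → ℕ | p n = c} := by ext p; simp
  rw [this]
  refine isOpen_iUnion fun n => ?_
  have hc : Continuous (fun p : ℕ → ℕ => p n) := continuous_apply n
  exact (isOpen_discrete ({c} : Set ℕ)).preimage hc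

theorem residual_onto : ∀ᵇ w : W, ∀ t, ∃ n, nd w n = t := by
  rw [eventually_countable_forall]
  intro t
  have e : {w : W | ∃ n, nd w n = t} =
      (fun w : W => w.2.1) ⁻¹' {p : ℕ → ℕ | ∃ n, p n = Encodable.encode t} := by
    ext w
    show (∃ n, nd w n = t) ↔ ∃ n, w.2.1 n = Encodable.encode t
    simp only [nd]
    constructor
    · rintro ⟨n, hn⟩
      exact ⟨n, by rw [← hn, Denumerable.encode_ofNat]⟩
    · rintro ⟨n, hn⟩
      exact ⟨n, by rw [hn, Denumerable.ofNat_encode]⟩
  have ho : IsOpenMap (fun w : W => w.2.1) := isOpenMap_fst.comp isOpenMap_snd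
  have hc : Continuous (fun w : W => w.2.1) := continuous_fst.comp continuous_snd
  show {w : W | ∃ n, nd w n = t} ∈ residual W
  rw [e]
  exact residual_of_dense_open ((open_hit_EX2 _).preimage hc) ((dense_hit_EX2 _).preimage ho)

/-- Transfinite choice. -/
theorem tr_choice [WellFoundedLT Λ] (o : Λ → Set W) (ho : ∀ a, IsOpen (o a) ∧ (o a).Nonempty)
    (R : (Λ → W) → Λ → Set W) (hR : ∀ g a, R g a ∈ residual W)
    (hdep : ∀ g g' a, (∀ b < a, g b = g' b) → R g a = R g' a) :
    ∃ g : Λ → W, ∀ a, g a ∈ o a ∧ g a ∈ R g a := by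
  classical
  have key : ∀ (g : Λ → W) (a : Λ), ∃ w ∈ o a, w ∈ R g a := fun g a =>
    exists_of_residual_open (ho a).1 (ho a).2 (hR g a)
  choose F hF1 hF2 using key
  let ext : ∀ a : Λ, (∀ b, b < a → W) → (Λ → W) := fun a r b =>
    if h : b < a then r b h else Classical.arbitrary W
  let g : Λ → W := (wellFounded_lt (α := Λ)).fix (fun a r => F (ext a r) a)
  have hg : ∀ a, g a = F (ext a (fun b _ => g b)) a := fun a =>
    (wellFounded_lt (α := Λ)).fix_eq (fun a r => F (ext a r) a) a
  refine ⟨g, fun a => ?_⟩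
  have e : R (ext a (fun b _ => g b)) a = R g a := by
    apply hdep
    intro b hb
    simp [ext, hb]
  rw [← e]
  rw [hg a]
  exact ⟨hF1 _ _, hF2 _ _⟩

theorem exists_generic [WellFoundedLT Λ] (hc : ∀ a : Λ, (Iic a).Countable)
    (enum : Λ → Set (ℕ → V)) (N : Λ → Nd) (o : Λ → Set W)
    (ho : ∀ a, IsOpen (o a) ∧ (o a).Nonempty) :
    ∃ g : Λ → W, (∀ a, g a ∈ o a) ∧ (∀ a b, a < b → (g a).1 ≠ (g b).1) ∧
      (∀ a t, ∃ n, nd (g a) n = t) ∧
      ∀ ξ lam, ξ ≤ lam → LL (fun a => (N a, g a)) (enum ξ) lam := by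
  classical
  let R : (Λ → W) → Λ → Set W := fun g a => {w : W | (∀ b < a, w.1 ≠ (g b).1) ∧
      (∀ t, ∃ n, nd w n = t) ∧ ∀ ξ ≤ a, ∀ z, Seq (fun a => (N a, g a)) a z →
        ∀ (j : ℕ) (J : Finset ℕ), (∀ᵇ w' : W, All J (enum ξ) (Function.update z j (N a, w'))) →
          All J (enum ξ) (Function.update z j (N a, w))}
  have hR : ∀ g a, R g a ∈ residual W := by
    intro g a
    have hIio : (Iio a).Countable := (hc a).mono Iio_subset_Iic_self
    refine Filter.Eventually.and ?_ (Filter.Eventually.and residual_onto ?_)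
    · exact (eventually_countable_ball hIio).2 fun b _ => residual_label _
    · refine (eventually_countable_ball (hc a)).2 fun ξ _ => ?_
      refine (eventually_countable_ball (countable_Seq (fun a => (N a, g a)) hIio)).2 fun z _ => ?_
      rw [eventually_countable_forall]
      intro j
      rw [eventually_countable_forall]
      intro J
      by_cases h : ∀ᵇ w' : W, All J (enum ξ) (Function.update z j (N a, w'))
      · filter_upwards [h] with w hw _
        exact hw
      · exact Eventually.of_forall fun w h' => absurd h' h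
  have hdep : ∀ g g' a, (∀ b < a, g b = g' b) → R g a = R g' a := by
    intro g g' a h
    have e : ∀ z, Seq (fun a => (N a, g a)) a z ↔ Seq (fun a => (N a, g' a)) a z := fun z =>
      ⟨Seq.congr (fun b hb => by simp only [h b hb]), Seq.congr (fun b hb => by simp only [h b hb])⟩
    ext w
    constructor
    · rintro ⟨h1, h2, h3⟩
      exact ⟨fun b hb => by rw [← h b hb]; exact h1 b hb, h2,
        fun ξ hξ z hz => h3 ξ hξ z ((e z).2 hz)⟩
    · rintro ⟨h1, h2, h3⟩
      exact ⟨fun b hb => by rw [h b hb]; exact h1 b hb, h2,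
        fun ξ hξ z hz => h3 ξ hξ z ((e z).1 hz)⟩
  obtain ⟨g, hg⟩ := tr_choice o ho R hR hdep
  · refine ⟨g, fun a => (hg a).1, fun a b hab => ?_, fun a => (hg a).2.2.1, ?_⟩
    · exact fun h => (hg b).2.1 a hab h.symm
    · intro ξ lam hξ z hz j J h
      exact (hg lam).2.2.2 ξ hξ z hz j J h

end

/-! ### Ranks -/

/-- A system of ranks on the full tree. -/
structure RS (ρ : List ℕ → Ordinal.{0}) : Prop where
  root : ρ [] ≠ 0
  le : ∀ i t, ρ (i :: t) ≤ ρ t
  lt : ∀ i t, ρ t ≠ 0 → ρ (i :: t) < ρ t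
  fin : ∀ t β, β < ρ t → {i | ρ (i :: t) < β}.Finite

open Classical in
/-- The readable nodes of a system of ranks: the terminal nodes. -/
noncomputable def Nof (ρ : List ℕ → Ordinal.{0}) : Nd
  | [] => false
  | i :: t => decide (ρ (i :: t) = 0 ∧ ρ t ≠ 0)

theorem good_Nof (ρ : List ℕ → Ordinal.{0}) : Good (Nof ρ) := by
  intro i t h
  have h1 : ρ t ≠ 0 := by
    simp only [Nof, decide_eq_true_eq] at h
    exact h.2
  cases t with
  | nil => rfl
  | cons j s =>
    simp only [Nof, decide_eq_false_iff_not, not_and]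
    intro h2
    exact absurd h2 h1

theorem countable_Iio_EX5 {ρ : Ordinal.{0}} (h : ρ < Ordinal.omega 1) : (Iio ρ).Countable := by
  rw [← Cardinal.le_aleph0_iff_set_countable, Cardinal.mk_Iio_ordinal, Cardinal.lift_le_aleph0]
  rw [← Order.lt_succ_iff]
  have h1 : ρ.card < Cardinal.aleph 1 := by
    have := Cardinal.lt_ord.1 (show ρ < (Cardinal.aleph 1).ord by rwa [Cardinal.ord_aleph])
    exact this
  rwa [Cardinal.succ_aleph0]

theorem exists_fund {ρ : Ordinal.{0}} (h0 : ρ ≠ 0) (h : ρ < Ordinal.omega 1) :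
    ∃ f : ℕ → Ordinal.{0}, (∀ i, f i < ρ) ∧ ∀ β < ρ, {i | f i < β}.Finite := by
  have hpos : 0 < ρ := pos_iff_ne_zero.2 h0
  have hc := countable_Iio_EX5 h
  obtain ⟨e, he⟩ := hc.exists_eq_range ⟨0, hpos⟩
  let f : ℕ → Ordinal.{0} := fun i => (Finset.range (i + 1)).sup e
  have hf : ∀ i, f i < ρ := by
    intro i
    refine (Finset.sup_lt_iff (by rwa [Ordinal.bot_eq_zero])).2 fun k _ => ?_
    have : e k ∈ Iio ρ := he ▸ mem_range_self k
    exact this
  refine ⟨f, hf, fun β hβ => ?_⟩
  have hb : β ∈ Set.range e := he ▸ hβ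
  obtain ⟨k, rfl⟩ := hb
  refine (Set.finite_Iio k).subset fun i hi => ?_
  by_contra hcon
  have h1 : k ≤ i := not_lt.1 hcon
  have h2 : e k ≤ f i := Finset.le_sup (f := e) (Finset.mem_range.2 (by omega))
  exact absurd (hi : f i < e k) (not_lt.2 h2)

theorem exists_RS {α : Ordinal.{0}} (h0 : α ≠ 0) (h : α < Ordinal.omega 1) :
    ∃ ρ : List ℕ → Ordinal.{0}, RS ρ ∧ ρ [] = α := by
  classical
  choose F hF1 hF2 using @exists_fund
  let ρ : List ℕ → Ordinal.{0} := fun t => List.rec (motive := fun _ => Ordinal.{0}) α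
    (fun i _ r => if hr : r ≠ 0 ∧ r < Ordinal.omega 1 then F hr.1 hr.2 i else 0) t
  have hnil : ρ [] = α := rfl
  have hcons : ∀ i t, ρ (i :: t) = if hr : ρ t ≠ 0 ∧ ρ t < Ordinal.omega 1 then F hr.1 hr.2 i
    else 0 := fun i t => rfl
  have hpos : (0 : Ordinal.{0}) < Ordinal.omega 1 := Ordinal.omega_pos 1
  have hlt : ∀ t, ρ t < Ordinal.omega 1 := by
    intro t
    induction t with
    | nil => exact h
    | cons i t ih =>
      rw [hcons]
      split_ifs with hr
      · exact (hF1 hr.1 hr.2 i).trans hr.2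
      · exact hpos
  have hcons1 : ∀ i t, ∀ (h1 : ρ t ≠ 0), ρ (i :: t) = F h1 (hlt t) i := by
    intro i t h1
    rw [hcons, dif_pos ⟨h1, hlt t⟩]
  have hcons0 : ∀ i t, ρ t = 0 → ρ (i :: t) = 0 := by
    intro i t h1
    rw [hcons, dif_neg (fun hr => hr.1 h1)]
  refine ⟨ρ, ⟨h0, ?_, ?_, ?_⟩, hnil⟩
  · intro i t
    by_cases h1 : ρ t = 0
    · rw [hcons0 i t h1]; exact zero_le
    · rw [hcons1 i t h1]; exact (hF1 h1 (hlt t) i).le
  · intro i t h1
    rw [hcons1 i t h1]
    exact hF1 h1 (hlt t) i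
  · intro t β hβ
    have h1 : ρ t ≠ 0 := fun e => by rw [e] at hβ; exact absurd hβ (not_lt.2 zero_le)
    have := hF2 h1 (hlt t) β hβ
    simpa only [hcons1 _ t h1] using this

/-! ### The index set -/

theorem exists_Lam (h : Cardinal.continuum = Cardinal.aleph 1) :
    ∃ (Λ : Type) (_ : LinearOrder Λ), WellFoundedLT Λ ∧ Nonempty Λ ∧
      (∀ a : Λ, (Iic a).Countable) ∧
      (∀ S : Set Λ, S.Countable → ∃ a, ∀ s ∈ S, s < a) ∧
      (∃ rk0 : Λ → Ordinal.{0}, (∀ a, rk0 a ≠ 0 ∧ rk0 a < Ordinal.omega 1) ∧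
        ∀ α < Ordinal.omega 1, ∃ a₀, ∀ a, a₀ ≤ a → α < rk0 a) ∧
      Cardinal.mk Λ = Cardinal.continuum := by
  have h0 : (Cardinal.continuum : Cardinal.{0}) = Cardinal.aleph 1 := by
    apply Cardinal.lift_injective
    rw [Cardinal.lift_continuum, Cardinal.lift_aleph, Ordinal.lift_one]
    exact h
  have hmk : #((Cardinal.aleph 1).ord.ToType) = Cardinal.aleph 1 := Cardinal.mk_ord_toType _
  have hne : Nonempty (Cardinal.aleph 1).ord.ToType := by
    rw [← Cardinal.mk_ne_zero_iff, hmk]
    exact (Cardinal.aleph_pos 1).ne'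
  have hIic : ∀ a : (Cardinal.aleph 1).ord.ToType, (Iic a).Countable := by
    intro a
    have h1 : (Iio a).Countable := by
      rw [← Cardinal.le_aleph0_iff_set_countable, ← Order.lt_succ_iff, Cardinal.succ_aleph0]
      exact Cardinal.mk_Iio_toType_ord_lt a
    have : Iic a = insert a (Iio a) := by
      ext x; simp [le_iff_lt_or_eq, or_comm]
    rw [this]
    exact h1.insert a
  refine ⟨(Cardinal.aleph 1).ord.ToType, inferInstance, inferInstance, hne, hIic, ?_, ?_, ?_⟩
  · intro S hS
    by_contra hcon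
    push Not at hcon
    have h1 : (⋃ s ∈ S, Iic s) = (univ : Set (Cardinal.aleph 1).ord.ToType) := by
      rw [eq_univ_iff_forall]
      intro a
      obtain ⟨s, hs, hle⟩ := hcon a
      exact mem_biUnion hs hle
    have h2 : (univ : Set (Cardinal.aleph 1).ord.ToType).Countable := by
      rw [← h1]
      exact hS.biUnion fun s _ => hIic s
    rw [← Cardinal.le_aleph0_iff_set_countable, Cardinal.mk_univ, hmk] at h2
    exact absurd h2 (not_le.2 (by rw [← Cardinal.succ_aleph0]; exact Order.lt_succ _))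
  · have hlim : Order.IsSuccLimit (Cardinal.aleph 1).ord :=
      Cardinal.isSuccLimit_ord (Cardinal.aleph0_le_aleph 1)
    rw [← Cardinal.ord_aleph]
    refine ⟨fun a => Order.succ (Ordinal.typein (α := (Cardinal.aleph 1).ord.ToType) (· < ·) a),
      fun a => ⟨?_, ?_⟩, ?_⟩
    · exact Order.succ_ne_bot _
    · exact hlim.succ_lt (Ordinal.typein_lt_self a)
    · intro α hα
      have hα' : α < Ordinal.type (fun x y : (Cardinal.aleph 1).ord.ToType => x < y) := by
        rw [Ordinal.type_toType]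
        exact hα
      refine ⟨Ordinal.enum (fun x y : (Cardinal.aleph 1).ord.ToType => x < y) ⟨α, hα'⟩, fun a ha => ?_⟩
      rw [Order.lt_succ_iff]
      have := (Ordinal.typein_le_typein (fun x y : (Cardinal.aleph 1).ord.ToType => x < y)).2
        (not_lt.2 ha)
      rwa [Ordinal.typein_enum] at this
  · exact hmk.trans h0.symm

theorem exists_enum {Λ : Type} (h : Cardinal.mk Λ = Cardinal.continuum) :
    ∃ enum : Λ → Set (ℕ → V), ∀ B, MeasurableSet B → ∃ ξ, enum ξ = B := by
  classical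
  obtain ⟨b, hb, hgen⟩ :=
    (inferInstance : MeasurableSpace.CountablyGenerated (ℕ → V)).isCountablyGenerated
  have h1 : Cardinal.mk {t : Set (ℕ → V) | MeasurableSet t} ≤ Cardinal.continuum := by
    rw [hgen]
    exact MeasurableSpace.cardinal_measurableSet_le_continuum
      ((Cardinal.mk_le_aleph0_iff.2 hb.to_subtype).trans Cardinal.aleph0_le_continuum)
  rw [← h] at h1
  obtain ⟨f⟩ := Cardinal.le_def _ _ |>.1 h1
  refine ⟨fun ξ => if hx : ∃ B : {t : Set (ℕ → V) | MeasurableSet t}, f B = ξ then hx.choose.1 else ∅,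
    fun B hB => ⟨f ⟨B, hB⟩, ?_⟩⟩
  have hx : ∃ B' : {t : Set (ℕ → V) | MeasurableSet t}, f B' = f ⟨B, hB⟩ := ⟨⟨B, hB⟩, rfl⟩
  dsimp only
  rw [dif_pos hx]
  exact congrArg Subtype.val (f.injective hx.choose_spec)

theorem exists_book {Λ : Type} [LinearOrder Λ] (h : Cardinal.mk Λ = Cardinal.continuum)
    (hc : ∀ a : Λ, (Iic a).Countable) :
    ∃ F : Λ → Option Λ × ℕ, ∀ q a, ∃ b, a < b ∧ F b = q := by
  have h0 : Cardinal.aleph0 ≤ Cardinal.mk Λ := by
    rw [h]
    exact Cardinal.aleph0_le_continuum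
  haveI : Infinite Λ := Cardinal.infinite_iff.2 h0
  have h1 : Cardinal.mk Λ = Cardinal.mk (Λ × (Option Λ × ℕ)) := by
    have h2 : Cardinal.mk (Option Λ) = Cardinal.mk Λ := by
      rw [Cardinal.mk_option]
      exact Cardinal.add_one_eq h0
    rw [Cardinal.mk_prod, Cardinal.mk_prod, Cardinal.lift_id, Cardinal.lift_id, Cardinal.lift_id,
      Cardinal.lift_id, h2, Cardinal.mk_nat, Cardinal.mul_aleph0_eq h0, Cardinal.mul_eq_self h0]
  obtain ⟨e⟩ := Cardinal.eq.1 h1
  refine ⟨fun b => (e b).2, fun q a => ?_⟩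
  by_contra hcon
  push Not at hcon
  have h3 : ∀ c : Λ, e.symm (c, q) ∈ Iic a := by
    intro c
    by_contra hc
    rw [mem_Iic, not_le] at hc
    exact hcon _ hc (by simp)
  have h4 : Countable Λ := by
    haveI : Countable (Iic a) := (hc a).to_subtype
    refine Function.Injective.countable (f := fun c : Λ => (⟨e.symm (c, q), h3 c⟩ : Iic a)) ?_
    intro c d hcd
    have h5 := e.symm.injective (congrArg Subtype.val hcd)
    exact congrArg Prod.fst h5
  have h6 := Cardinal.mk_le_aleph0_iff.2 h4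
  rw [h] at h6
  exact absurd h6 (not_le.2 Cardinal.aleph0_lt_continuum)

theorem exists_basis : ∃ ob : ℕ → Set W, (∀ n, IsOpen (ob n) ∧ (ob n).Nonempty) ∧
    ∀ O : Set W, IsOpen O → O.Nonempty → ∃ n, ob n ⊆ O := by
  have hb := TopologicalSpace.isBasis_countableBasis W
  have hne : (TopologicalSpace.countableBasis W).Nonempty := by
    obtain ⟨u, hu, -⟩ := hb.exists_subset_of_mem_open (mem_univ (Classical.arbitrary W)) isOpen_univ
    exact ⟨u, hu⟩
  obtain ⟨ob, hob⟩ := (TopologicalSpace.countable_countableBasis W).exists_eq_range hne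
  refine ⟨ob, fun n => ?_, fun O hO hOne => ?_⟩
  · have h1 : ob n ∈ TopologicalSpace.countableBasis W := by
      rw [hob]
      exact mem_range_self n
    exact ⟨hb.isOpen h1, TopologicalSpace.nonempty_of_mem_countableBasis h1⟩
  · obtain ⟨x, hx⟩ := hOne
    obtain ⟨u, hu, -, huO⟩ := hb.exists_subset_of_mem_open hx hO
    rw [hob] at hu
    obtain ⟨n, rfl⟩ := hu
    exact ⟨n, huO⟩

/-! ### Generic systems -/

/-- A generic system of blocks and points. -/
structure Sys (Λ : Type) [LinearOrder Λ] where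
  v : Λ → V
  β : Λ → Λ
  isB : Λ → Prop
  isP : Λ → Prop
  ρ : Λ → List ℕ → Ordinal.{0}
  wf : WellFoundedLT Λ
  ne : Nonempty Λ
  count : ∀ a : Λ, (Iic a).Countable
  cof : ∀ S : Set Λ, S.Countable → ∃ a, ∀ s ∈ S, s < a
  lt : ∀ i, isP i → β i < i
  blk : ∀ i, isP i → isB (β i)
  disj : ∀ i, isP i → ¬ isB i
  rs : ∀ a, RS (ρ a)
  nof : ∀ a, (v a).1 = Nof (ρ a)
  big : ∀ α < Ordinal.omega 1, ∃ a₀, ∀ a, a₀ ≤ a → α < ρ a []
  inj : ∀ a b, (v a).2.1 = (v b).2.1 → a = b
  onto : ∀ a t, ∃ n, nd (v a).2 n = t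
  gen : ∀ B, MeasurableSet B → ∃ ξ, ∀ lam, ξ ≤ lam → LL v B lam
  denseB : ∀ O : Set W, IsOpen O → O.Nonempty → ∀ a, ∃ b, a < b ∧ isB b ∧ (v b).2 ∈ O
  denseP : ∀ b, isB b → ∀ O : Set W, IsOpen O → O.Nonempty → ∀ a,
    ∃ i, a < i ∧ isP i ∧ β i = b ∧ (v i).2 ∈ O

/-- The point with index `i`. -/
def Sys.x {Λ : Type} [LinearOrder Λ] (S : Sys Λ) (i : Λ) : Z := pt (S.v (S.β i)) (S.v i).2

theorem exists_Sys (h : Cardinal.continuum = Cardinal.aleph 1) :
    ∃ (Λ : Type) (_ : LinearOrder Λ) (_ : Sys Λ), Cardinal.mk Λ = Cardinal.continuum := by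
  classical
  obtain ⟨Λ, hlo, hwf, hne, hcount, hcof, ⟨rk0, hrk, hrkb⟩, hcard⟩ := exists_Lam h
  obtain ⟨enum, henum⟩ := exists_enum hcard
  obtain ⟨F, hF⟩ := exists_book hcard hcount
  obtain ⟨ob, hob, hobO⟩ := exists_basis
  choose ρ hρ hρ0 using fun a : Λ => exists_RS (hrk a).1 (hrk a).2
  obtain ⟨g, hg1, hg2, hg3, hg4⟩ := exists_generic hcount enum (fun a => Nof (ρ a))
    (fun a => ob (F a).2) (fun a => hob (F a).2)
  refine ⟨Λ, hlo, ?_, hcard⟩
  exact
    { v := fun a => (Nof (ρ a), g a)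
      β := fun i => (F i).1.getD i
      isB := fun a => (F a).1 = none
      isP := fun i => ∃ b, (F i).1 = some b ∧ b < i ∧ (F b).1 = none
      ρ := ρ
      wf := hwf
      ne := hne
      count := hcount
      cof := hcof
      lt := by
        rintro i ⟨b, h1, h2, h3⟩
        rw [h1]
        exact h2
      blk := by
        rintro i ⟨b, h1, h2, h3⟩
        rw [h1]
        exact h3
      disj := by
        rintro i ⟨b, h1, h2, h3⟩ h4
        rw [h1] at h4
        exact absurd h4 (by simp)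
      rs := hρ
      nof := fun a => rfl
      big := by
        intro α hα
        obtain ⟨a₀, ha₀⟩ := hrkb α hα
        refine ⟨a₀, fun a ha => ?_⟩
        rw [hρ0 a]
        exact ha₀ a ha
      inj := by
        intro a b hab
        by_contra hne
        rcases lt_or_gt_of_ne hne with h1 | h1
        · exact hg2 a b h1 hab
        · exact hg2 b a h1 hab.symm
      onto := hg3
      gen := by
        intro B hB
        obtain ⟨ξ, rfl⟩ := henum B hB
        exact ⟨ξ, fun lam hlam => hg4 ξ lam hlam⟩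
      denseB := by
        intro O hO hOne a
        obtain ⟨n, hn⟩ := hobO O hO hOne
        obtain ⟨b, hab, hb⟩ := hF (none, n) a
        refine ⟨b, hab, by rw [hb], hn ?_⟩
        have := hg1 b
        rw [hb] at this
        exact this
      denseP := by
        intro b hb O hO hOne a
        obtain ⟨n, hn⟩ := hobO O hO hOne
        obtain ⟨i, hai, hi⟩ := hF (some b, n) (max a b)
        refine ⟨i, lt_of_le_of_lt (le_max_left a b) hai,
          ⟨b, by rw [hi], lt_of_le_of_lt (le_max_right a b) hai, hb⟩, by rw [hi]; rfl, hn ?_⟩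
        have := hg1 i
        rw [hi] at this
        exact this }

end Pool.CH
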