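import Pool.Agent.Lib.MP_1c8600_ch.Ex

/-!
# MP_1c8600_lc, CH half: tuples of points avoid the sets which are meager for the default reading
-/

set_option autoImplicit false

open Set Filter Topology TopologicalSpace

namespace Pool.CH

variable {Λ : Type} [LinearOrder Λ]

theorem exists_gamma (S : Sys Λ) {n : ℕ} {B : Set (Fin n → Z)} (hB : MeasurableSet B) :
    ∃ γ, ∀ (bp pp : Fin n → ℕ) (lam : Λ), γ ≤ lam → LL S.v (PB bp pp B) lam := by
  have h : ∀ q : (Fin n → ℕ) × (Fin n → ℕ), ∃ ξ, ∀ lam, ξ ≤ lam →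
      LL S.v (PB q.1 q.2 B) lam := fun q => S.gen _ (measurableSet_PB q.1 q.2 hB)
  choose ξ hξ using h
  obtain ⟨γ, hγ⟩ := S.cof (Set.range ξ) (Set.countable_range ξ)
  exact ⟨γ, fun bp pp lam hl => hξ (bp, pp) lam ((hγ _ ⟨(bp, pp), rfl⟩).le.trans hl)⟩

theorem exists_pos (D : Finset Λ) [Nonempty Λ] :
    ∃ (pos : Λ → ℕ) (st : ℕ → Λ), ∀ a ∈ D, st (pos a) = a := by
  classical
  refine ⟨fun a => D.toList.idxOf a, fun j => D.toList.getD j (Classical.arbitrary Λ),
    fun a ha => ?_⟩
  have h1 : D.toList.idxOf a < D.toList.length :=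
    List.idxOf_lt_length_iff.2 (Finset.mem_toList.2 ha)
  show D.toList.getD (D.toList.idxOf a) (Classical.arbitrary Λ) = a
  rw [List.getD_eq_getElem _ _ h1, List.getElem_idxOf]

/-- Filling the positions in `F` in the order of their stages. -/
theorem ML_ind (v : Λ → V) (B : Set (ℕ → V)) (st : ℕ → Λ) (F : Finset ℕ) (z : ℕ → V)
    (hinj : ∀ j ∈ F, ∀ l ∈ F, st j = st l → j = l)
    (hseq : ∀ j ∈ F, Seq v (st j) z)
    (hL : ∀ j ∈ F, LL v B (st j))
    (hcp : ∀ j ∈ F, ∀ z', All (insert j (F.filter fun l => st j < st l)) B z' →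
      ∀ᵇ w : W, All (F.filter fun l => st j < st l) B (Function.update z' j ((v (st j)).1, w)))
    (h : All F B z) : (fun j => if j ∈ F then v (st j) else z j) ∈ B := by
  obtain ⟨n, hn⟩ : ∃ n, n = F.card := ⟨_, rfl⟩
  induction n generalizing F z with
  | zero =>
    have hF : F = ∅ := Finset.card_eq_zero.mp hn.symm
    subst hF
    have e : (fun j => if j ∈ (∅ : Finset ℕ) then v (st j) else z j) = z := by
      funext j
      simp
    rw [e]
    exact All_empty h
  | succ n ih =>
    have hne : F.Nonempty := by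
      rw [← Finset.card_pos]
      omega
    obtain ⟨j, hj, hmin⟩ := Finset.exists_min_image F st hne
    have hmem : ∀ l, l ∈ F.filter (fun l => st j < st l) ↔ l ∈ F ∧ l ≠ j := by
      intro l
      rw [Finset.mem_filter]
      constructor
      · rintro ⟨h1, h2⟩
        refine ⟨h1, ?_⟩
        rintro rfl
        exact lt_irrefl _ h2
      · rintro ⟨h1, h2⟩
        refine ⟨h1, lt_of_le_of_ne (hmin l h1) ?_⟩
        intro h3
        exact h2 (hinj j hj l h1 h3).symm
    have hins : insert j (F.filter fun l => st j < st l) = F := by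
      ext l
      rw [Finset.mem_insert, hmem]
      constructor
      · rintro (h1 | h1)
        · rw [h1]
          exact hj
        · exact h1.1
      · intro h1
        by_cases h2 : l = j
        · exact Or.inl h2
        · exact Or.inr ⟨h1, h2⟩
    have hcard : n = (F.filter fun l => st j < st l).card := by
      have h1 : j ∉ F.filter fun l => st j < st l := by
        rw [hmem]
        exact fun h2 => h2.2 rfl
      have h2 := Finset.card_insert_of_notMem h1
      rw [hins] at h2
      omega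
    have hA : All (F.filter fun l => st j < st l) B (Function.update z j (v (st j))) := by
      apply hL j hj z (hseq j hj) j
      apply hcp j hj z
      rw [hins]
      exact h
    have hsub : ∀ l, l ∈ (F.filter fun l => st j < st l) → l ∈ F ∧ st j < st l := by
      intro l hl
      exact Finset.mem_filter.mp hl
    have hff : ∀ l, l ∈ (F.filter fun l => st j < st l) →
        ((F.filter fun l => st j < st l).filter fun k => st l < st k) =
          F.filter fun k => st l < st k := by
      intro l hl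
      ext k
      rw [Finset.mem_filter, Finset.mem_filter, Finset.mem_filter]
      constructor
      · rintro ⟨⟨h1, _⟩, h2⟩
        exact ⟨h1, h2⟩
      · rintro ⟨h1, h2⟩
        exact ⟨⟨h1, (hsub l hl).2.trans h2⟩, h2⟩
    have key := ih (F.filter fun l => st j < st l) (Function.update z j (v (st j)))
      (fun a ha b hb hab => hinj a (hsub a ha).1 b (hsub b hb).1 hab)
      (fun l hl => Seq.upd z j (st j) (hsub l hl).2 (hseq l (hsub l hl).1))
      (fun l hl => hL l (hsub l hl).1)
      (fun l hl z' hz' => by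
        rw [hff l hl] at hz' ⊢
        exact hcp l (hsub l hl).1 z' hz')
      hA hcard
    have e : (fun k => if k ∈ F then v (st k) else z k) =
        fun k => if k ∈ (F.filter fun l => st j < st l) then v (st k)
          else Function.update z j (v (st j)) k := by
      funext k
      by_cases hk : k = j
      · subst hk
        have h1 : k ∉ F.filter fun l => st k < st l := by
          rw [hmem]
          exact fun h2 => h2.2 rfl
        rw [if_pos hj, if_neg h1, Function.update_self]
      · by_cases hkF : k ∈ F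
        · rw [if_pos hkF, if_pos ((hmem k).mpr ⟨hkF, hk⟩)]
        · rw [if_neg hkF, if_neg (fun h2 => hkF ((hmem k).mp h2).1),
            Function.update_of_ne hk]
    rw [e]
    exact key

theorem ML_core (S : Sys Λ) {n : ℕ} {B : Set (Fin n → Z)} (hB : MeasurableSet B) {γ : Λ}
    (hγ : ∀ (bp pp : Fin n → ℕ) (lam : Λ), γ ≤ lam → LL S.v (PB bp pp B) lam)
    (idx : Fin n → Λ) (hidx : ∀ k, S.isP (idx k)) (pos : Λ → ℕ) (st : ℕ → Λ)
    (h1 : ∀ k, st (pos (idx k)) = idx k) (h2 : ∀ k, st (pos (S.β (idx k))) = S.β (idx k))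
    (P : Finset ℕ) (hP : ∀ j, j ∈ P ↔ ∃ k, j = pos (idx k) ∨ j = pos (S.β (idx k)))
    (h : All (P.filter fun j => γ ≤ st j)
      (PB (fun k => pos (S.β (idx k))) (fun k => pos (idx k)) B)
      (fun j => if j ∈ P ∧ st j < γ then S.v (st j) else v0)) :
    (fun k => S.x (idx k)) ∈ B := by
  have hinj : ∀ j ∈ P, ∀ l ∈ P, st j = st l → j = l := by
    intro j hj l hl hjl
    have hj' : j = pos (st j) := by
      rcases (hP j).1 hj with ⟨k, rfl | rfl⟩
      · rw [h1]
      · rw [h2]
    have hl' : l = pos (st l) := by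
      rcases (hP l).1 hl with ⟨k, rfl | rfl⟩
      · rw [h1]
      · rw [h2]
    rw [hj', hl', hjl]
  have key := ML_ind S.v (PB (fun k => pos (S.β (idx k))) (fun k => pos (idx k)) B) st
    (P.filter fun j => γ ≤ st j) (fun j => if j ∈ P ∧ st j < γ then S.v (st j) else v0)
    (fun j hj l hl => hinj j (Finset.mem_filter.1 hj).1 l (Finset.mem_filter.1 hl).1)
    (fun j hj => Seq.fill P st (fun j => st j < γ)
      (fun j' _ hj'' => lt_of_lt_of_le hj'' (Finset.mem_filter.1 hj).2))
    (fun j hj => hγ _ _ _ (Finset.mem_filter.1 hj).2)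
    (by
      intro j hj z' hz'
      obtain ⟨hjP, hjγ⟩ := Finset.mem_filter.1 hj
      by_cases hex : ∃ k, pos (S.β (idx k)) = j
      · refine CP_block hB (by simp) ?_ ?_ hex ?_ ?_ hz'
        · intro k l hkl
          have h3 : S.β (idx k) = idx l := by
            have := congrArg st hkl
            simpa only [h1, h2] using this
          exact S.disj (idx l) (hidx l) (h3 ▸ S.blk (idx k) (hidx k))
        · intro k l hkl
          have h3 : idx k = idx l := by
            have := congrArg st hkl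
            simpa only [h1] using this
          simp only [h3]
        · intro k hk
          subst hk
          rw [h2] at hjγ
          simp only [Finset.mem_filter]
          refine ⟨⟨(hP _).2 ⟨k, Or.inl rfl⟩, ?_⟩, ?_⟩
          · rw [h1]
            exact hjγ.trans (S.lt _ (hidx k)).le
          · rw [h1, h2]
            exact S.lt _ (hidx k)
        · rw [S.nof]
          exact good_Nof _
      · push Not at hex
        exact CP_point (by simp) hex _ hz')
    h
  have h3 : tup (fun k => pos (S.β (idx k))) (fun k => pos (idx k))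
      (fun j => if j ∈ P.filter (fun j => γ ≤ st j) then S.v (st j) else
        if j ∈ P ∧ st j < γ then S.v (st j) else v0) = fun k => S.x (idx k) := by
    funext k
    have hv : ∀ j ∈ P, (if j ∈ P.filter (fun j => γ ≤ st j) then S.v (st j) else
        if j ∈ P ∧ st j < γ then S.v (st j) else v0) = S.v (st j) := by
      intro j hj
      by_cases hjγ : γ ≤ st j
      · rw [if_pos (Finset.mem_filter.2 ⟨hj, hjγ⟩)]
      · have hnot : j ∉ P.filter (fun j => γ ≤ st j) :=
          fun h => hjγ (Finset.mem_filter.1 h).2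
        rw [if_neg hnot, if_pos ⟨hj, not_le.1 hjγ⟩]
    simp only [tup]
    rw [hv _ ((hP _).2 ⟨k, Or.inr rfl⟩), hv _ ((hP _).2 ⟨k, Or.inl rfl⟩), h1, h2]
    rfl
  have h4 : tup (fun k => pos (S.β (idx k))) (fun k => pos (idx k)) _ ∈ B := key
  rw [h3] at h4
  exact h4

/-- The last point is a new point of an old block. -/
theorem MLA (S : Sys Λ) {n : ℕ} {B : Set (Fin (n + 1) → Z)} (hB : MeasurableSet B) :
    ∃ γ₀, ∀ γ, γ₀ ≤ γ → ∀ (idx : Fin n → Λ), (∀ k, S.isP (idx k)) → ∀ iy, S.isP iy → γ ≤ iy →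
      (∀ k, idx k ≠ iy) → S.β iy < γ →
      (∀ x : Fin n → Z, ∀ᵇ w : W, (Fin.snoc x (pt (S.v (S.β iy)) w) : Fin (n + 1) → Z) ∈ B) →
      (Fin.snoc (fun k => S.x (idx k)) (S.x iy) : Fin (n + 1) → Z) ∈ B := by
  classical
  obtain ⟨γ₀, hγ₀⟩ := exists_gamma S hB
  refine ⟨γ₀, fun γ hγ idx hidx iy hiy hγiy hne hβ hall => ?_⟩
  have := S.ne
  let idx' : Fin (n + 1) → Λ := Fin.snoc idx iy
  have hl : idx' (Fin.last n) = iy := by simp [idx']
  have hc : ∀ k : Fin n, idx' k.castSucc = idx k := fun k => by simp [idx']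
  have hP' : ∀ k, S.isP (idx' k) := by
    intro k
    refine Fin.lastCases ?_ (fun k => ?_) k
    · rw [hl]; exact hiy
    · rw [hc]; exact hidx k
  obtain ⟨pos, st, hst⟩ := exists_pos
    (Finset.univ.image idx' ∪ Finset.univ.image (fun k => S.β (idx' k)))
  have h1 : ∀ k, st (pos (idx' k)) = idx' k := fun k => hst _ (by simp)
  have h2 : ∀ k, st (pos (S.β (idx' k))) = S.β (idx' k) := fun k => hst _ (by simp)
  have hP : ∀ j, j ∈ (Finset.univ.image (fun k => pos (idx' k)) ∪
      Finset.univ.image (fun k => pos (S.β (idx' k)))) ↔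
      ∃ k, j = pos (idx' k) ∨ j = pos (S.β (idx' k)) := by
    intro j
    simp only [Finset.mem_union, Finset.mem_image, Finset.mem_univ, true_and]
    constructor
    · rintro (⟨k, hk⟩ | ⟨k, hk⟩)
      · exact ⟨k, Or.inl hk.symm⟩
      · exact ⟨k, Or.inr hk.symm⟩
    · rintro ⟨k, hk | hk⟩
      · exact Or.inl ⟨k, hk.symm⟩
      · exact Or.inr ⟨k, hk.symm⟩
  generalize (Finset.univ.image (fun k => pos (idx' k)) ∪
      Finset.univ.image (fun k => pos (S.β (idx' k)))) = P at hP
  have key := ML_core S hB (γ := γ) (fun bp pp lam h => hγ₀ bp pp lam (hγ.trans h)) idx' hP'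
    pos st h1 h2 P hP
  have hres : (fun k => S.x (idx' k)) =
      (Fin.snoc (fun k => S.x (idx k)) (S.x iy) : Fin (n + 1) → Z) := by
    funext k
    refine Fin.lastCases ?_ (fun k => ?_) k
    · simp [hl]
    · simp [hc]
  rw [hres] at key
  apply key
  have hiyst : st (pos iy) = iy := by
    have := h1 (Fin.last n)
    rwa [hl] at this
  have hβst : st (pos (S.β iy)) = S.β iy := by
    have := h2 (Fin.last n)
    rwa [hl] at this
  have hcst : ∀ k : Fin n, st (pos (idx k)) = idx k := by
    intro k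
    have := h1 k.castSucc
    rwa [hc] at this
  have hcβst : ∀ k : Fin n, st (pos (S.β (idx k))) = S.β (idx k) := by
    intro k
    have := h2 k.castSucc
    rwa [hc] at this
  have hiyP : pos iy ∈ P := (hP _).2 ⟨Fin.last n, Or.inl (by rw [hl])⟩
  have hβP : pos (S.β iy) ∈ P := (hP _).2 ⟨Fin.last n, Or.inr (by rw [hl])⟩
  have hne1 : ∀ k : Fin n, pos (idx k) ≠ pos iy := by
    intro k h
    apply hne k
    rw [← hcst k, h, hiyst]
  have hne2 : ∀ k : Fin n, pos (S.β (idx k)) ≠ pos iy := by
    intro k h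
    have h3 : S.β (idx k) = iy := by rw [← hcβst k, h, hiyst]
    exact S.disj iy hiy (h3 ▸ S.blk (idx k) (hidx k))
  have hiyJ : pos iy ∈ P.filter fun j => γ ≤ st j := by
    rw [Finset.mem_filter]
    exact ⟨hiyP, by rw [hiyst]; exact hγiy⟩
  have hβJ : pos (S.β iy) ∉ P.filter fun j => γ ≤ st j := by
    rw [Finset.mem_filter, hβst]
    exact fun h => absurd h.2 (not_le.2 hβ)
  refine All_of_last hiyJ (measurableSet_PB _ _ hB) ?_
  intro ω
  generalize hJ : (P.filter fun j => γ ≤ st j) = J at hiyJ hβJ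
  have hz : (fun j => if j ∈ P ∧ st j < γ then S.v (st j) else v0) (pos (S.β iy)) =
      S.v (S.β iy) := by
    show (if pos (S.β iy) ∈ P ∧ st (pos (S.β iy)) < γ then S.v (st (pos (S.β iy))) else v0) = _
    rw [hβst, if_pos ⟨hβP, hβ⟩]
  generalize (fun j => if j ∈ P ∧ st j < γ then S.v (st j) else v0) = z at hz
  have hov : ∀ w : W, ∀ j, j ≠ pos iy →
      ov J z (dflt (Function.update ω (pos iy) w)) j = ov J z (dflt ω) j := by
    intro w j hj
    simp only [ov, dflt, Function.update_of_ne hj]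
  filter_upwards [hall fun k => pt (ov J z (dflt ω) (pos (S.β (idx k))))
    (ov J z (dflt ω) (pos (idx k))).2] with w hw
  show tup _ _ _ ∈ B
  have htup : tup (fun k => pos (S.β (idx' k))) (fun k => pos (idx' k))
      (ov J z (dflt (Function.update ω (pos iy) w))) =
      (Fin.snoc (fun k => pt (ov J z (dflt ω) (pos (S.β (idx k))))
        (ov J z (dflt ω) (pos (idx k))).2) (pt (S.v (S.β iy)) w) : Fin (n + 1) → Z) := by
    funext k
    refine Fin.lastCases ?_ (fun k => ?_) k
    · rw [Fin.snoc_last]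
      simp only [tup, hl]
      have h3 : ov J z (dflt (Function.update ω (pos iy) w)) (pos (S.β iy)) = S.v (S.β iy) := by
        simp only [ov, if_neg hβJ, hz]
      have h4 : (ov J z (dflt (Function.update ω (pos iy) w)) (pos iy)).2 = w := by
        simp only [ov, if_pos hiyJ, dflt, Function.update_self]
      rw [h3, h4]
    · rw [Fin.snoc_castSucc]
      simp only [tup, hc]
      rw [hov w _ (hne1 k), hov w _ (hne2 k)]
  rw [htup]
  exact hw

/-- Reduction of the last point lemmas to a statement on `All`. -/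
theorem red_ML5 (S : Sys Λ) {n : ℕ} {B : Set (Fin (n + 1) → Z)} (hB : MeasurableSet B) {γ : Λ}
    (hγ : ∀ (bp pp : Fin (n + 1) → ℕ) (lam : Λ), γ ≤ lam → LL S.v (PB bp pp B) lam)
    (idx : Fin n → Λ) (hidx : ∀ k, S.isP (idx k)) (iy : Λ) (hiy : S.isP iy)
    (H : ∀ (pos : Λ → ℕ) (st : ℕ → Λ) (P : Finset ℕ) (bp pp : Fin (n + 1) → ℕ),
      (∀ k : Fin n, st (pos (idx k)) = idx k) →
      (∀ k : Fin n, st (pos (S.β (idx k))) = S.β (idx k)) →
      st (pos iy) = iy → st (pos (S.β iy)) = S.β iy →
      pos iy ∈ P → pos (S.β iy) ∈ P →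
      (∀ k : Fin n, bp k.castSucc = pos (S.β (idx k))) →
      (∀ k : Fin n, pp k.castSucc = pos (idx k)) →
      bp (Fin.last n) = pos (S.β iy) → pp (Fin.last n) = pos iy →
      All (P.filter fun j => γ ≤ st j) (PB bp pp B)
        (fun j => if j ∈ P ∧ st j < γ then S.v (st j) else v0)) :
    (Fin.snoc (fun k => S.x (idx k)) (S.x iy) : Fin (n + 1) → Z) ∈ B := by
  classical
  haveI := S.ne
  set idx' : Fin (n + 1) → Λ := Fin.snoc (α := fun _ => Λ) idx iy with hidx'
  have e1 : ∀ k : Fin n, idx' k.castSucc = idx k := fun k => by rw [hidx', Fin.snoc_castSucc]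
  have e2 : idx' (Fin.last n) = iy := by rw [hidx', Fin.snoc_last]
  have hp : ∀ k, S.isP (idx' k) := by
    intro k
    refine Fin.lastCases ?_ (fun k => ?_) k
    · rw [e2]; exact hiy
    · rw [e1]; exact hidx k
  obtain ⟨pos, st, hps⟩ := exists_pos (Finset.univ.image idx' ∪
    Finset.univ.image (fun k => S.β (idx' k)))
  have h1 : ∀ k, st (pos (idx' k)) = idx' k := fun k => hps _ (by simp)
  have h2 : ∀ k, st (pos (S.β (idx' k))) = S.β (idx' k) := fun k => hps _ (by simp)
  set P : Finset ℕ := Finset.univ.image (fun k => pos (idx' k)) ∪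
    Finset.univ.image (fun k => pos (S.β (idx' k))) with hPdef
  have hP : ∀ j, j ∈ P ↔ ∃ k, j = pos (idx' k) ∨ j = pos (S.β (idx' k)) := by
    intro j
    simp only [hPdef, Finset.mem_union, Finset.mem_image, Finset.mem_univ, true_and]
    constructor
    · rintro (⟨k, rfl⟩ | ⟨k, rfl⟩)
      · exact ⟨k, Or.inl rfl⟩
      · exact ⟨k, Or.inr rfl⟩
    · rintro ⟨k, rfl | rfl⟩
      · exact Or.inl ⟨k, rfl⟩
      · exact Or.inr ⟨k, rfl⟩
  have hall := H pos st P (fun k => pos (S.β (idx' k))) (fun k => pos (idx' k))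
    (fun k => by have := h1 k.castSucc; rwa [e1] at this)
    (fun k => by have := h2 k.castSucc; rwa [e1] at this)
    (by have := h1 (Fin.last n); rwa [e2] at this)
    (by have := h2 (Fin.last n); rwa [e2] at this)
    ((hP _).2 ⟨Fin.last n, Or.inl (by rw [e2])⟩)
    ((hP _).2 ⟨Fin.last n, Or.inr (by rw [e2])⟩)
    (fun k => by simp only [e1]) (fun k => by simp only [e1])
    (by simp only [e2]) (by simp only [e2])
  have hres := ML_core S hB hγ idx' hp pos st h1 h2 P hP hall
  have h3 : (fun k => S.x (idx' k)) =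
      (Fin.snoc (fun k => S.x (idx k)) (S.x iy) : Fin (n + 1) → Z) := by
    funext k
    refine Fin.lastCases ?_ (fun k => ?_) k
    · rw [Fin.snoc_last, e2]
    · rw [Fin.snoc_castSucc, e1]
  rwa [h3] at hres

/-- The last point is a new point of a new block which contains another point of the tuple. -/
theorem MLB (S : Sys Λ) {n : ℕ} {B : Set (Fin (n + 1) → Z)} (hB : MeasurableSet B) :
    ∃ γ₀, ∀ γ, γ₀ ≤ γ → ∀ (idx : Fin n → Λ), (∀ k, S.isP (idx k)) → ∀ iy, S.isP iy →
      (∀ k, idx k ≠ iy) → γ ≤ S.β iy → ∀ k, S.β (idx k) = S.β iy →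
      (∀ x : Fin n → Z, ∀ᵇ a : C, (Fin.snoc x ((x k).1, a) : Fin (n + 1) → Z) ∈ B) →
      (Fin.snoc (fun k => S.x (idx k)) (S.x iy) : Fin (n + 1) → Z) ∈ B := by
  obtain ⟨γ₀, hγ₀⟩ := exists_gamma S hB
  refine ⟨γ₀, ?_⟩
  intro γ hγ idx hidx iy hiy hne hγβ k hk hx
  refine red_ML5 S hB (fun bp pp lam hlam => hγ₀ bp pp lam (hγ.trans hlam)) idx hidx iy hiy ?_
  intro pos st P bp pp h1 h2 h3 h4 hP1 hP2 hb hp hbl hpl
  have hβlt : S.β iy < iy := S.lt iy hiy
  have hJ1 : pos iy ∈ P.filter fun j => γ ≤ st j :=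
    Finset.mem_filter.2 ⟨hP1, by rw [h3]; exact hγβ.trans hβlt.le⟩
  have hJ2 : pos (S.β iy) ∈ P.filter fun j => γ ≤ st j :=
    Finset.mem_filter.2 ⟨hP2, by rw [h4]; exact hγβ⟩
  refine All_of_last hJ1 (measurableSet_PB _ _ hB) ?_
  intro ω
  set J := P.filter fun j => γ ≤ st j with hJ
  set z : ℕ → V := fun j => if j ∈ P ∧ st j < γ then S.v (st j) else v0 with hz
  have n1 : ∀ i, pos (S.β (idx i)) ≠ pos iy := by
    intro i h
    have h5 := congrArg st h
    rw [h2, h3] at h5
    exact S.disj iy hiy (h5 ▸ S.blk _ (hidx i))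
  have n2 : ∀ i, pos (idx i) ≠ pos iy := by
    intro i h
    have h5 := congrArg st h
    rw [h1, h3] at h5
    exact hne i h5
  have n3 : pos (S.β iy) ≠ pos iy := by
    intro h
    have h5 := congrArg st h
    rw [h4, h3] at h5
    exact hβlt.ne h5
  have hov : ∀ (w : W) (j : ℕ), j ≠ pos iy →
      ov J z (dflt (Function.update ω (pos iy) w)) j = ov J z (dflt ω) j := by
    intro w j hj
    simp only [ov, dflt, Function.update_of_ne hj]
  have hlast : ∀ w : W, ov J z (dflt (Function.update ω (pos iy) w)) (pos iy) =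
      (fun _ => false, w) := by
    intro w
    simp only [ov, dflt, if_pos hJ1, Function.update_self]
  set x : Fin n → Z := fun i => pt (ov J z (dflt ω) (pos (S.β (idx i))))
    (ov J z (dflt ω) (pos (idx i))).2 with hxdef
  have hxk : (x k).1 = (ω (pos (S.β iy))).1 := by
    simp only [hxdef, hk]
    simp only [ov, dflt, if_pos hJ2, pt]
  have htup : ∀ w : W, tup bp pp (ov J z (dflt (Function.update ω (pos iy) w))) =
      (Fin.snoc x ((x k).1, w.1) : Fin (n + 1) → Z) := by
    intro w
    funext i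
    refine Fin.lastCases ?_ (fun i => ?_) i
    · rw [Fin.snoc_last]
      simp only [tup, hbl, hpl]
      rw [hlast, hov w _ n3]
      have e : ov J z (dflt ω) (pos (S.β iy)) = (fun _ => false, ω (pos (S.β iy))) := by
        simp only [ov, dflt, if_pos hJ2]
      rw [e, pt_none, hxk]
    · rw [Fin.snoc_castSucc]
      simp only [tup, hb, hp]
      rw [hov w _ (n1 i), hov w _ (n2 i)]
  have hfin : ∀ᵇ w : W, (Fin.snoc x ((x k).1, w.1) : Fin (n + 1) → Z) ∈ B :=
    (tendsto_residual_of_isOpenMap continuous_fst isOpenMap_fst).eventually (hx x)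
  filter_upwards [hfin] with w hw
  show tup bp pp _ ∈ B
  rw [htup w]
  exact hw

/-- The last point belongs to a new block which contains no other point of the tuple. -/
theorem MLC (S : Sys Λ) {n : ℕ} {B : Set (Fin (n + 1) → Z)} (hB : MeasurableSet B) :
    ∃ γ₀, ∀ γ, γ₀ ≤ γ → ∀ (idx : Fin n → Λ), (∀ k, S.isP (idx k)) → ∀ iy, S.isP iy →
      γ ≤ S.β iy → (∀ k, S.β (idx k) ≠ S.β iy) →
      (∀ x : Fin n → Z, ∀ᵇ y : Z, (Fin.snoc x y : Fin (n + 1) → Z) ∈ B) →
      (Fin.snoc (fun k => S.x (idx k)) (S.x iy) : Fin (n + 1) → Z) ∈ B := by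
  obtain ⟨γ₀, hγ₀⟩ := exists_gamma S hB
  refine ⟨γ₀, ?_⟩
  intro γ hγ idx hidx iy hiy hγβ hne hx
  refine red_ML5 S hB (fun bp pp lam hlam => hγ₀ bp pp lam (hγ.trans hlam)) idx hidx iy hiy ?_
  intro pos st P bp pp h1 h2 h3 h4 hP1 hP2 hb hp hbl hpl
  have hβlt : S.β iy < iy := S.lt iy hiy
  have hJ1 : pos iy ∈ P.filter fun j => γ ≤ st j :=
    Finset.mem_filter.2 ⟨hP1, by rw [h3]; exact hγβ.trans hβlt.le⟩
  have hJ2 : pos (S.β iy) ∈ P.filter fun j => γ ≤ st j :=
    Finset.mem_filter.2 ⟨hP2, by rw [h4]; exact hγβ⟩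
  have n3 : pos (S.β iy) ≠ pos iy := by
    intro h
    have h5 := congrArg st h
    rw [h4, h3] at h5
    exact hβlt.ne h5
  refine All_of_two hJ2 hJ1 n3 (measurableSet_PB _ _ hB) ?_
  intro ω
  set J := P.filter fun j => γ ≤ st j with hJ
  set z : ℕ → V := fun j => if j ∈ P ∧ st j < γ then S.v (st j) else v0 with hz
  have n1 : ∀ i, pos (S.β (idx i)) ≠ pos iy := by
    intro i h
    have h5 := congrArg st h
    rw [h2, h3] at h5
    exact S.disj iy hiy (h5 ▸ S.blk _ (hidx i))
  have n2 : ∀ i, pos (idx i) ≠ pos iy := by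
    intro i h
    have h5 := congrArg st h
    rw [h1, h3] at h5
    exact hne i (by rw [h5])
  have n4 : ∀ i, pos (S.β (idx i)) ≠ pos (S.β iy) := by
    intro i h
    have h5 := congrArg st h
    rw [h2, h4] at h5
    exact hne i h5
  have n5 : ∀ i, pos (idx i) ≠ pos (S.β iy) := by
    intro i h
    have h5 := congrArg st h
    rw [h1, h4] at h5
    exact S.disj (idx i) (hidx i) (h5 ▸ S.blk iy hiy)
  have hov : ∀ (q : W × W) (j : ℕ), j ≠ pos iy → j ≠ pos (S.β iy) →
      ov J z (dflt (Function.update (Function.update ω (pos (S.β iy)) q.1) (pos iy) q.2)) j =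
        ov J z (dflt ω) j := by
    intro q j hj hj'
    simp only [ov, dflt, Function.update_of_ne hj, Function.update_of_ne hj']
  set x : Fin n → Z := fun i => pt (ov J z (dflt ω) (pos (S.β (idx i))))
    (ov J z (dflt ω) (pos (idx i))).2 with hxdef
  have htup : ∀ q : W × W, tup bp pp (ov J z (dflt (Function.update
      (Function.update ω (pos (S.β iy)) q.1) (pos iy) q.2))) =
      (Fin.snoc x ((q.1.1, q.2.1) : Z) : Fin (n + 1) → Z) := by
    intro q
    funext i
    refine Fin.lastCases ?_ (fun i => ?_) i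
    · rw [Fin.snoc_last]
      simp only [tup, hbl, hpl]
      have e1 : ov J z (dflt (Function.update (Function.update ω (pos (S.β iy)) q.1)
          (pos iy) q.2)) (pos (S.β iy)) = (fun _ => false, q.1) := by
        simp only [ov, dflt, if_pos hJ2, Function.update_of_ne n3, Function.update_self]
      have e2 : ov J z (dflt (Function.update (Function.update ω (pos (S.β iy)) q.1)
          (pos iy) q.2)) (pos iy) = (fun _ => false, q.2) := by
        simp only [ov, dflt, if_pos hJ1, Function.update_self]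
      rw [e1, e2, pt_none]
    · rw [Fin.snoc_castSucc]
      simp only [tup, hb, hp]
      rw [hov q _ (n1 i) (n4 i), hov q _ (n2 i) (n5 i)]
  have hfin : ∀ᵇ q : W × W, (Fin.snoc x ((q.1.1, q.2.1) : Z) : Fin (n + 1) → Z) ∈ B :=
    (tendsto_residual_of_isOpenMap (continuous_fst.prodMap continuous_fst)
      (isOpenMap_fst.prodMap isOpenMap_fst)).eventually (hx x)
  filter_upwards [hfin] with q hq
  show tup bp pp _ ∈ B
  rw [htup q]
  exact hq

end Pool.CH
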