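import Pool.Agent.Lib.MP_1c8600_ch.Ex

/-!
# MP_1c8600_lc, CH half: the rank argument
-/

set_option autoImplicit false

open Set Filter Topology TopologicalSpace

namespace Pool.CH

/-- Conditions: finitely many values `f t`, `t ∈ D`, of the evaluation and the first `n` junk
bits. -/
structure Cd where
  D : Finset (List ℕ)
  f : List ℕ → Bool
  n : ℕ
  a : ℕ → Bool

/-- No two adjacent nodes are both true. -/
def Cd.Cons (q : Cd) : Prop :=
  ∀ i t, t ∈ q.D → i :: t ∈ q.D → ¬ (q.f t = true ∧ q.f (i :: t) = true)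

/-- The set of all points which satisfy the condition. -/
def Cd.set (q : Cd) : Set (C × Yt) :=
  {u | (∀ t ∈ q.D, u.2.1 t = q.f t) ∧ ∀ k < q.n, u.1 k = q.a k}

/-- `q'` is stronger than `q`. -/
def Cd.Le (q' q : Cd) : Prop :=
  q.D ⊆ q'.D ∧ (∀ t ∈ q.D, q'.f t = q.f t) ∧ q.n ≤ q'.n ∧ ∀ k < q.n, q'.a k = q.a k

open Classical in
/-- The restriction of a condition to the nodes of rank at most `β`. -/
noncomputable def Cd.res (ρ : List ℕ → Ordinal.{0}) (β : Ordinal.{0}) (q : Cd) : Cd :=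
  { q with D := q.D.filter fun t => ρ t ≤ β }

/-- The set `S` is decided by the restrictions to rank at most `β`. -/
def Dec (ρ : List ℕ → Ordinal.{0}) (β : Ordinal.{0}) (S : Set (C × Yt)) : Prop :=
  ∀ p : Cd, p.Cons → ∃ q : Cd, q.Cons ∧ q.Le p ∧
    ((∀ᵇ u, u ∈ (q.res ρ β).set → u ∈ S) ∨ (∀ᵇ u, u ∈ (q.res ρ β).set → u ∉ S))

theorem Cd.isOpen (q : Cd) : IsOpen q.set := by
  have h : q.set = (⋂ t ∈ q.D, (fun u : C × Yt => u.2.1 t) ⁻¹' {q.f t}) ∩
      ⋂ k ∈ Finset.range q.n, (fun u : C × Yt => u.1 k) ⁻¹' {q.a k} := by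
    ext u
    simp [Cd.set]
  rw [h]
  refine IsOpen.inter (isOpen_biInter_finset fun t _ => ?_) (isOpen_biInter_finset fun k _ => ?_)
  · refine (isOpen_discrete _).preimage ?_
    exact (continuous_apply t).comp (continuous_subtype_val.comp continuous_snd)
  · refine (isOpen_discrete _).preimage ?_
    exact (continuous_apply k).comp continuous_fst

theorem Cd.nonempty {q : Cd} (h : q.Cons) : q.set.Nonempty := by
  obtain ⟨y, hy⟩ := exists_Yt q.D q.f h
  exact ⟨(q.a, y), hy, fun k _ => rfl⟩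

theorem Cd.Le.subset {q' q : Cd} (h : q'.Le q) : q'.set ⊆ q.set := by
  rintro u ⟨h1, h2⟩
  exact ⟨fun t ht => (h1 t (h.1 ht)).trans (h.2.1 t ht),
    fun k hk => (h2 k (lt_of_lt_of_le hk h.2.2.1)).trans (h.2.2.2 k hk)⟩

theorem Cd.Le.trans {p q r : Cd} (h : p.Le q) (h' : q.Le r) : p.Le r :=
  ⟨h'.1.trans h.1, fun t ht => (h.2.1 t (h'.1 ht)).trans (h'.2.1 t ht), h'.2.2.1.trans h.2.2.1,
    fun k hk => (h.2.2.2 k (lt_of_lt_of_le hk h'.2.2.1)).trans (h'.2.2.2 k hk)⟩

theorem Cd.Cons.res {ρ : List ℕ → Ordinal.{0}} {β : Ordinal.{0}} {q : Cd} (h : q.Cons) :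
    (q.res ρ β).Cons := by
  classical
  intro i t ht hi
  exact h i t (Finset.mem_filter.1 ht).1 (Finset.mem_filter.1 hi).1

theorem Cd.le_res (ρ : List ℕ → Ordinal.{0}) (β : Ordinal.{0}) (q : Cd) : q.Le (q.res ρ β) := by
  classical
  exact ⟨Finset.filter_subset _ _, fun t _ => rfl, le_rfl, fun k _ => rfl⟩

/-- The conditions give a basis. -/
theorem Cd.basis {p : Cd} {O : Set (C × Yt)} (hO : IsOpen O) (hne : (O ∩ p.set).Nonempty) :
    ∃ q : Cd, q.Cons ∧ q.Le p ∧ q.set ⊆ O := by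
  classical
  obtain ⟨u, hu, hp⟩ := hne
  obtain ⟨U, V', hU, hV, hu1, hu2, hUV⟩ := isOpen_prod_iff.1 hO u.1 u.2 hu
  obtain ⟨V1, hV1, rfl⟩ := isOpen_induced_iff.1 hV
  obtain ⟨I1, s1, hs1, hI1⟩ := isOpen_pi_iff.1 hU u.1 hu1
  obtain ⟨I2, s2, hs2, hI2⟩ := isOpen_pi_iff.1 hV1 u.2.1 hu2
  refine ⟨⟨p.D ∪ I2, u.2.1, max p.n (I1.sup id + 1), u.1⟩, ?_, ⟨Finset.subset_union_left, hp.1,
    le_max_left _ _, hp.2⟩, ?_⟩
  · rintro i t - - ⟨h1, h2⟩
    have h3 := (u.2.2 t).1 h1 i
    change u.2.1 (i :: t) = true at h2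
    rw [h3] at h2
    exact Bool.false_ne_true h2
  · rintro w ⟨h1, h2⟩
    refine hUV ⟨hI1 ?_, hI2 ?_⟩
    · intro k hk
      have h3 : w.1 k = u.1 k := h2 k (by
        show k < max p.n (I1.sup id + 1)
        have := Finset.le_sup (f := id) (Finset.mem_coe.1 hk)
        exact lt_of_lt_of_le (Nat.lt_succ_of_le this) (le_max_right _ _))
      rw [h3]
      exact (hs1 k hk).2
    · intro t ht
      have h3 : w.2.1 t = u.2.1 t := h1 t (Finset.mem_union_right _ ht)
      rw [h3]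
      exact (hs2 t ht).2

/-- A measurable set either fails almost everywhere in `p` or is forced by a stronger condition. -/
theorem Cd.force {p : Cd} {S : Set (C × Yt)} (hS : MeasurableSet S) :
    (∀ᵇ u, u ∈ p.set → u ∉ S) ∨ ∃ q : Cd, q.Cons ∧ q.Le p ∧ ∀ᵇ u, u ∈ q.set → u ∈ S := by
  by_cases h : ∀ᵇ u : C × Yt, u ∉ S ∩ p.set
  · left
    filter_upwards [h] with u hu hp hS'
    exact hu ⟨hS', hp⟩
  · right
    obtain ⟨O, hO, hne, hOS⟩ := nonmeager_open (hS.inter p.isOpen.measurableSet) h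
    have hOo : IsOpen O := (isBasis_countableBasis _).isOpen hO
    obtain ⟨x, hx, hx'⟩ := exists_of_residual_open hOo hne hOS
    obtain ⟨q, hq, hqp, hqO⟩ := Cd.basis hOo ⟨x, hx, (hx' hx).2⟩
    refine ⟨q, hq, hqp, ?_⟩
    filter_upwards [hOS] with u hu huq
    exact (hu (hqO huq)).1

/-- A condition does not force both. -/
theorem Cd.not_both {q : Cd} (hq : q.Cons) {S : Set (C × Yt)}
    (h : ∀ᵇ u, u ∈ q.set → u ∈ S) (h' : ∀ᵇ u, u ∈ q.set → u ∉ S) : False := by
  obtain ⟨x, hx, h1, h2⟩ := exists_of_residual_open (P := fun u => (u ∈ q.set → u ∈ S) ∧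
    (u ∈ q.set → u ∉ S)) q.isOpen (Cd.nonempty hq) (h.and h')
  exact h2 hx (h1 hx)

theorem Dec.compl {ρ : List ℕ → Ordinal.{0}} {β : Ordinal.{0}} {S : Set (C × Yt)}
    (h : Dec ρ β S) : Dec ρ β Sᶜ := by
  intro p hp
  obtain ⟨q, h1, h2, h3⟩ := h p hp
  refine ⟨q, h1, h2, ?_⟩
  rcases h3 with h3 | h3
  · right
    filter_upwards [h3] with u hu hq hS
    exact hS (hu hq)
  · left
    filter_upwards [h3] with u hu hq
    exact hu hq

theorem Dec.node {ρ : List ℕ → Ordinal.{0}} {t : List ℕ} (ht : ρ t = 0) (β : Ordinal.{0}) :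
    Dec ρ β {u | u.2.1 t = true} := by
  classical
  have key : ∀ q : Cd, t ∈ q.D → ((∀ᵇ u, u ∈ (q.res ρ β).set → u ∈ {u : C × Yt | u.2.1 t = true}) ∨
      (∀ᵇ u, u ∈ (q.res ρ β).set → u ∉ {u : C × Yt | u.2.1 t = true})) := by
    intro q hq
    have hm : t ∈ (q.res ρ β).D := by
      refine Finset.mem_filter.2 ⟨hq, ?_⟩
      rw [ht]
      exact zero_le
    by_cases hf : q.f t = true
    · left
      refine Eventually.of_forall fun u hu => ?_
      exact (hu.1 t hm).trans hf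
    · right
      refine Eventually.of_forall fun u hu h => ?_
      exact hf ((hu.1 t hm).symm.trans h)
  intro p hp
  by_cases hm : t ∈ p.D
  · exact ⟨p, hp, ⟨Finset.Subset.refl _, fun _ _ => rfl, le_rfl, fun _ _ => rfl⟩, key p hm⟩
  · refine ⟨⟨insert t p.D, Function.update p.f t false, p.n, p.a⟩, ?_, ⟨Finset.subset_insert _ _,
      fun s hs => ?_, le_rfl, fun _ _ => rfl⟩, key _ (Finset.mem_insert_self _ _)⟩
    · rintro i s hs hi ⟨h1, h2⟩
      change Function.update p.f t false s = true at h1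
      change Function.update p.f t false (i :: s) = true at h2
      have e1 : s ≠ t := by
        rintro rfl
        simp at h1
      have e2 : i :: s ≠ t := by
        rintro rfl
        simp at h2
      rw [Function.update_of_ne e1] at h1
      rw [Function.update_of_ne e2] at h2
      exact hp i s (Finset.mem_of_mem_insert_of_ne hs e1) (Finset.mem_of_mem_insert_of_ne hi e2)
        ⟨h1, h2⟩
    · show Function.update p.f t false s = p.f s
      rw [Function.update_of_ne]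
      rintro rfl
      exact hm hs

theorem Dec.junk (ρ : List ℕ → Ordinal.{0}) (k : ℕ) (β : Ordinal.{0}) :
    Dec ρ β {u | u.1 k = true} := by
  intro p hp
  refine ⟨⟨p.D, p.f, max p.n (k + 1), p.a⟩, hp, ⟨Finset.Subset.refl _, fun _ _ => rfl,
    le_max_left _ _, fun _ _ => rfl⟩, ?_⟩
  have hk : k < max p.n (k + 1) := lt_of_lt_of_le (Nat.lt_succ_self k) (le_max_right _ _)
  by_cases hf : p.a k = true
  · left
    refine Eventually.of_forall fun u hu => ?_
    exact (hu.2 k hk).trans hf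
  · right
    refine Eventually.of_forall fun u hu h => ?_
    exact hf ((hu.2 k hk).symm.trans h)

theorem Dec.const (ρ : List ℕ → Ordinal.{0}) (p : Prop) (β : Ordinal.{0}) :
    Dec ρ β {_u | p} := by
  intro q hq
  refine ⟨q, hq, ⟨Finset.Subset.refl _, fun _ _ => rfl, le_rfl, fun _ _ => rfl⟩, ?_⟩
  by_cases h : p
  · left
    exact Eventually.of_forall fun u _ => h
  · right
    exact Eventually.of_forall fun u _ h' => h h'

/-- The condition `p` together with the value false at those children of rank less than `β` of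
true nodes of rank greater than `β`. -/
theorem Cd.exists_closed {ρ : List ℕ → Ordinal.{0}} (hρ : RS ρ) (β : Ordinal.{0}) {p : Cd}
    (hp : p.Cons) : ∃ q : Cd, q.Cons ∧ q.Le p ∧
      ∀ t ∈ q.D, q.f t = true → β < ρ t → ∀ i, ρ (i :: t) < β → i :: t ∈ q.D := by
  classical
  let new : Finset (List ℕ) := p.D.biUnion fun t =>
    if h : β < ρ t then (hρ.fin t β h).toFinset.image (fun i => i :: t) else ∅
  have hnew : ∀ t ∈ p.D, β < ρ t → ∀ i, ρ (i :: t) < β → i :: t ∈ new := by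
    intro t ht hb i hi
    refine Finset.mem_biUnion.2 ⟨t, ht, ?_⟩
    rw [dif_pos hb]
    exact Finset.mem_image.2 ⟨i, (Set.Finite.mem_toFinset _).2 hi, rfl⟩
  have hf : ∀ t, (if t ∈ p.D then p.f t else false) = true → t ∈ p.D ∧ p.f t = true := by
    intro t ht
    by_cases h : t ∈ p.D
    · rw [if_pos h] at ht
      exact ⟨h, ht⟩
    · rw [if_neg h] at ht
      exact absurd ht (by simp)
  refine ⟨⟨p.D ∪ new, fun t => if t ∈ p.D then p.f t else false, p.n, p.a⟩, ?_, ?_, ?_⟩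
  · intro i t _ _ h
    obtain ⟨h1, h2⟩ := h
    obtain ⟨h3, h4⟩ := hf _ h1
    obtain ⟨h5, h6⟩ := hf _ h2
    exact hp i t h3 h5 ⟨h4, h6⟩
  · exact ⟨Finset.subset_union_left, fun t ht => if_pos ht, le_rfl, fun _ _ => rfl⟩
  · intro t _ ht2 hb i hi
    exact Finset.mem_union_right _ (hnew t (hf t ht2).1 hb i hi)

/-- Compatibility. -/
theorem Cd.amalgam {ρ : List ℕ → Ordinal.{0}} (hρ : RS ρ) {β δ : Ordinal.{0}} (hδ : δ < β)
    {q r : Cd} (hq : q.Cons)
    (hcl : ∀ t ∈ q.D, q.f t = true → β < ρ t → ∀ i, ρ (i :: t) < β → i :: t ∈ q.D)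
    (hr : r.Cons) (hrq : r.Le (q.res ρ β)) :
    ∃ s : Cd, s.Cons ∧ s.Le q ∧ s.Le (r.res ρ δ) := by
  classical
  have mres : ∀ (x : Cd) (γ : Ordinal.{0}) (t : List ℕ),
      t ∈ (x.res ρ γ).D ↔ t ∈ x.D ∧ ρ t ≤ γ := by
    intro x γ t
    unfold Cd.res
    exact Finset.mem_filter
  obtain ⟨hr1, hr2, hr3, hr4⟩ := hrq
  have key : ∀ t ∈ q.D, ρ t ≤ β → t ∈ r.D ∧ r.f t = q.f t := by
    intro t ht hb
    have h1 : t ∈ (q.res ρ β).D := (mres _ _ _).2 ⟨ht, hb⟩
    exact ⟨hr1 h1, hr2 t h1⟩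
  let F : List ℕ → Bool := fun t => if t ∈ q.D then q.f t else r.f t
  have F1 : ∀ t ∈ q.D, F t = q.f t := fun t ht => if_pos ht
  have F2 : ∀ t, t ∉ q.D → F t = r.f t := fun t ht => if_neg ht
  refine ⟨⟨q.D ∪ (r.res ρ δ).D, F, r.n, r.a⟩, ?_, ?_, ?_⟩
  · rintro i t h1 h2 ⟨h3, h4⟩
    change F t = true at h3
    change F (i :: t) = true at h4
    change t ∈ q.D ∪ (r.res ρ δ).D at h1
    change i :: t ∈ q.D ∪ (r.res ρ δ).D at h2
    rw [Finset.mem_union, mres] at h1 h2
    by_cases a1 : t ∈ q.D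
    · rw [F1 t a1] at h3
      by_cases a2 : i :: t ∈ q.D
      · rw [F1 _ a2] at h4
        exact hq i t a1 a2 ⟨h3, h4⟩
      · rw [F2 _ a2] at h4
        obtain ⟨b1, b2⟩ := h2.resolve_left a2
        by_cases c : β < ρ t
        · exact a2 (hcl t a1 h3 c i (lt_of_le_of_lt b2 hδ))
        · obtain ⟨d1, d2⟩ := key t a1 (not_lt.1 c)
          exact hr i t d1 b1 ⟨d2.trans h3, h4⟩
    · rw [F2 t a1] at h3
      obtain ⟨b1, b2⟩ := h1.resolve_left a1
      by_cases a2 : i :: t ∈ q.D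
      · rw [F1 _ a2] at h4
        obtain ⟨d1, d2⟩ := key (i :: t) a2 (((hρ.le i t).trans b2).trans hδ.le)
        exact hr i t b1 d1 ⟨h3, d2.trans h4⟩
      · rw [F2 _ a2] at h4
        exact hr i t b1 (h2.resolve_left a2).1 ⟨h3, h4⟩
  · exact ⟨Finset.subset_union_left, F1, hr3, hr4⟩
  · refine ⟨Finset.subset_union_right, ?_, le_rfl, fun _ _ => rfl⟩
    intro t ht
    change F t = r.f t
    rw [mres] at ht
    by_cases a : t ∈ q.D
    · rw [F1 t a]
      exact (key t a (ht.2.trans hδ.le)).2.symm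
    · exact F2 t a

theorem Dec.union {ρ : List ℕ → Ordinal.{0}} (hρ : RS ρ) {α : Ordinal.{0}}
    {S : ℕ → Set (C × Yt)} {β : ℕ → Ordinal.{0}} (hS : ∀ n, MeasurableSet (S n))
    (hβ : ∀ n, β n < α) (h : ∀ n, Dec ρ (β n) (S n)) : Dec ρ α (⋃ n, S n) := by
  intro p hp
  have refl : ∀ x : Cd, x.Le x := fun x =>
    ⟨Finset.Subset.refl _, fun _ _ => rfl, le_rfl, fun _ _ => rfl⟩
  -- restrictions of restrictions
  have mres : ∀ (x : Cd) (γ : Ordinal.{0}) (t : List ℕ),
      t ∈ (x.res ρ γ).D ↔ t ∈ x.D ∧ ρ t ≤ γ := by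
    intro x γ t
    unfold Cd.res
    exact Finset.mem_filter
  have res_res : ∀ (x : Cd) (γ δ : Ordinal.{0}), γ ≤ δ → (x.res ρ δ).Le (x.res ρ γ) := by
    intro x γ δ hγ
    refine ⟨?_, fun _ _ => rfl, le_rfl, fun _ _ => rfl⟩
    intro t ht
    rw [mres] at ht ⊢
    exact ⟨ht.1, ht.2.trans hγ⟩
  by_cases hc : ∃ q : Cd, q.Cons ∧ q.Le p ∧ ∃ n, ∀ᵇ u, u ∈ q.set → u ∈ S n
  · obtain ⟨q, hq, hqp, n, hn⟩ := hc
    obtain ⟨q', hq', hq'q, hd⟩ := h n q hq
    refine ⟨q', hq', Cd.Le.trans hq'q hqp, Or.inl ?_⟩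
    have hpos : ∀ᵇ u, u ∈ (q'.res ρ (β n)).set → u ∈ S n := by
      rcases hd with hd | hd
      · exact hd
      · exfalso
        refine Cd.not_both hq' (S := S n) ?_ ?_
        · exact hn.mono fun u hu hu' => hu (Cd.Le.subset hq'q hu')
        · exact hd.mono fun u hu hu' => hu (Cd.Le.subset (Cd.le_res ρ (β n) q') hu')
    refine hpos.mono fun u hu hu' => Set.mem_iUnion.2 ⟨n, hu ?_⟩
    exact Cd.Le.subset (res_res q' (β n) α (hβ n).le) hu'
  · obtain ⟨q, hq, hqp, hcl⟩ := Cd.exists_closed hρ α hp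
    refine ⟨q, hq, hqp, Or.inr ?_⟩
    have hn : ∀ n, ∀ᵇ u, u ∈ (q.res ρ α).set → u ∉ S n := by
      intro n
      rcases Cd.force (p := q.res ρ α) (hS n) with hf | ⟨r, hr, hrq, hf⟩
      · exact hf
      · exfalso
        obtain ⟨r', hr', hr'r, hd⟩ := h n r hr
        have hpos : ∀ᵇ u, u ∈ (r'.res ρ (β n)).set → u ∈ S n := by
          rcases hd with hd | hd
          · exact hd
          · exfalso
            refine Cd.not_both hr' (S := S n) ?_ ?_
            · exact hf.mono fun u hu hu' => hu (Cd.Le.subset hr'r hu')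
            · exact hd.mono fun u hu hu' => hu (Cd.Le.subset (Cd.le_res ρ (β n) r') hu')
        obtain ⟨s, hs, hsq, hsr⟩ := Cd.amalgam hρ (hβ n) hq hcl hr' (Cd.Le.trans hr'r hrq)
        exact hc ⟨s, hs, Cd.Le.trans hsq hqp, n,
          hpos.mono fun u hu hu' => hu (Cd.Le.subset hsr hu')⟩
    have hall := eventually_countable_forall.2 hn
    refine hall.mono fun u hu hu' hmem => ?_
    obtain ⟨n, hun⟩ := Set.mem_iUnion.1 hmem
    exact hu n hu' hun

/-- The root is not decided by lower ranks. -/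
theorem Dec.root {ρ : List ℕ → Ordinal.{0}} {α : Ordinal.{0}} (hα : α < ρ [])
    {S : Set (C × Yt)} (h : Dec ρ α S) :
    ∃ O : Set (C × Yt), IsOpen O ∧ O.Nonempty ∧ ∀ᵇ u, u ∈ O → (u ∈ S ↔ u.2.1 [] = false) := by
  classical
  have mres : ∀ (x : Cd) (γ : Ordinal.{0}) (t : List ℕ),
      t ∈ (x.res ρ γ).D ↔ t ∈ x.D ∧ ρ t ≤ γ := by
    intro x γ t
    unfold Cd.res
    exact Finset.mem_filter
  let p : Cd := ⟨{[]}, fun _ => true, 0, fun _ => false⟩
  have hp : p.Cons := by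
    intro i t _ h2 _
    exact absurd (Finset.mem_singleton.1 h2) (by simp)
  obtain ⟨q, hq, hqp, hd⟩ := h p hp
  have hroot : ([] : List ℕ) ∈ q.D := hqp.1 (Finset.mem_singleton_self _)
  have hrt : q.f [] = true := hqp.2.1 [] (Finset.mem_singleton_self _)
  rcases hd with hd | hd
  · -- add the value false at the root
    let q' : Cd := ⟨insert [] (q.res ρ α).D, fun t => if t = [] then false else q.f t, q.n, q.a⟩
    have hnot : ([] : List ℕ) ∉ (q.res ρ α).D := by
      intro hm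
      rw [mres] at hm
      exact absurd hm.2 (not_le.2 hα)
    have hq' : q'.Cons := by
      rintro i t h1 h2 ⟨h3, h4⟩
      change (if t = [] then false else q.f t) = true at h3
      change (if i :: t = [] then false else q.f (i :: t)) = true at h4
      change t ∈ insert [] (q.res ρ α).D at h1
      change i :: t ∈ insert [] (q.res ρ α).D at h2
      by_cases ht : t = []
      · rw [if_pos ht] at h3
        exact absurd h3 (by simp)
      · rw [if_neg ht] at h3
        rw [if_neg (by simp)] at h4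
        have e1 := (Finset.mem_insert.1 h1).resolve_left ht
        have e2 := (Finset.mem_insert.1 h2).resolve_left (by simp)
        rw [mres] at e1 e2
        exact hq i t e1.1 e2.1 ⟨h3, h4⟩
    have hle : q'.set ⊆ (q.res ρ α).set := by
      intro u hu
      refine ⟨fun t ht => ?_, hu.2⟩
      have h1 := hu.1 t (Finset.mem_insert_of_mem ht)
      rw [h1]
      change (if t = [] then false else q.f t) = q.f t
      rw [if_neg]
      rintro rfl
      exact hnot ht
    refine ⟨q'.set, Cd.isOpen q', Cd.nonempty hq', hd.mono fun u hu hu' => ?_⟩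
    have h1 : u.2.1 [] = false := by
      have := hu'.1 [] (Finset.mem_insert_self _ _)
      rw [this]
      change (if ([] : List ℕ) = [] then false else q.f []) = false
      rw [if_pos rfl]
    exact ⟨fun _ => h1, fun _ => hu (hle hu')⟩
  · refine ⟨q.set, Cd.isOpen q, Cd.nonempty hq, hd.mono fun u hu hu' => ?_⟩
    have h1 : u.2.1 [] = true := (hu'.1 [] hroot).trans hrt
    have h2 : u ∉ S := hu (Cd.Le.subset (Cd.le_res ρ α q) hu')
    exact ⟨fun h => absurd h h2, fun h => by rw [h1] at h; exact absurd h (by simp)⟩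

end Pool.CH
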