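import Pool.Agent.Lib.MP_1c8600_ch.QE

import Pool.Agent.Lib.MP_1c8600_ch.Rank

import Pool.Agent.Lib.MP_1c8600_lc.PosDefs

/-!
# MP_1c8600_lc, CH half: the continuum hypothesis implies the positive answer
-/

set_option autoImplicit false

open Set Filter Topology TopologicalSpace

namespace Pool.CH

open Pool.MP_1c8600_lc

/-- The generating subsets of `Z`. -/
def qs (n : ℕ) : Set Z :=
  if n = 0 then univ else if n % 2 = 1 then {z | z.1 (n / 2) = true} else {z | z.2 (n / 2 - 1) = true}

theorem qs_zero : qs 0 = univ := by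
  simp [qs]

theorem qs_fst (n : ℕ) : qs (2 * n + 1) = {z | z.1 n = true} := by
  unfold qs
  rw [if_neg (by omega), if_pos (by omega)]
  have h : (2 * n + 1) / 2 = n := by omega
  rw [h]

theorem qs_snd (n : ℕ) : qs (2 * n + 2) = {z | z.2 n = true} := by
  unfold qs
  rw [if_neg (by omega), if_neg (by omega)]
  have h : (2 * n + 2) / 2 - 1 = n := by omega
  rw [h]

theorem qs_cases (n : ℕ) : qs n = univ ∨ (∃ k, qs n = {z | z.1 k = true}) ∨
    ∃ k, qs n = {z | z.2 k = true} := by
  rcases Nat.eq_zero_or_pos n with h | h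
  · left
    rw [h, qs_zero]
  · rcases Nat.even_or_odd' n with ⟨k, hk | hk⟩
    · right; right
      refine ⟨k - 1, ?_⟩
      have : n = 2 * (k - 1) + 2 := by omega
      rw [this, qs_snd]
    · right; left
      exact ⟨k, by rw [hk, qs_fst]⟩

/-- The sequence of sets defined by a map into `Z`. -/
def As {E : Type} (x : E → Z) (n : ℕ) : Set E := {e | x e ∈ qs n}

theorem measurableSet_qs_MN1 (n : ℕ) : MeasurableSet (qs n) := by
  rcases qs_cases n with h | ⟨k, h⟩ | ⟨k, h⟩
  · rw [h]
    exact MeasurableSet.univ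
  · rw [h]
    have hm : Measurable (fun z : Z => z.1 k) := (measurable_pi_apply k).comp measurable_fst
    exact hm (measurableSet_singleton true)
  · rw [h]
    have hm : Measurable (fun z : Z => z.2 k) := (measurable_pi_apply k).comp measurable_snd
    exact hm (measurableSet_singleton true)

theorem rect_mem_MN1 {E : Type} (x : E → Z) {m : ℕ} (k : Fin m) (N : ℕ) :
    MeasurableSpace.GenerateMeasurable (Set.range (rect (As x) m)) {e | x (e k) ∈ qs N} := by
  have h : {e : Fin m → E | x (e k) ∈ qs N} = rect (As x) m (fun i => if i = k then N else 0) := by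
    ext e
    constructor
    · intro he i
      by_cases hi : i = k
      · subst hi
        simpa [As] using he
      · simp [As, hi, qs_zero]
    · intro he
      simpa [As] using he k
  rw [h]
  exact .basic _ ⟨_, rfl⟩

theorem isBorel_iff {E : Type} (x : E → Z) (m : ℕ) (S : Set (Fin m → E)) :
    IsBorel (As x) m S ↔
      ∃ B : Set (Fin m → Z), MeasurableSet B ∧ S = {e | (fun k => x (e k)) ∈ B} := by
  constructor
  · intro h
    induction h with
    | basic S hS =>
      obtain ⟨n, rfl⟩ := hS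
      refine ⟨{f | ∀ i, f i ∈ qs (n i)}, ?_, rfl⟩
      have : {f : Fin m → Z | ∀ i, f i ∈ qs (n i)} = ⋂ i, (fun f => f i) ⁻¹' (qs (n i)) := by
        ext f
        simp
      rw [this]
      exact MeasurableSet.iInter fun i => (measurable_pi_apply i) (measurableSet_qs_MN1 (n i))
    | empty => exact ⟨∅, MeasurableSet.empty, by ext e; simp⟩
    | compl S _ ih =>
      obtain ⟨B, hB, rfl⟩ := ih
      exact ⟨Bᶜ, hB.compl, rfl⟩
    | iUnion f _ ih =>
      choose B hB hf using ih
      refine ⟨⋃ n, B n, MeasurableSet.iUnion hB, ?_⟩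
      ext e
      constructor
      · intro he
        obtain ⟨n, hn⟩ := mem_iUnion.1 he
        rw [hf n] at hn
        exact mem_iUnion.2 ⟨n, hn⟩
      · intro he
        obtain ⟨n, hn⟩ := mem_iUnion.1 he
        refine mem_iUnion.2 ⟨n, ?_⟩
        rw [hf n]
        exact hn
  · rintro ⟨B, hB, rfl⟩
    let mS : MeasurableSpace (Fin m → E) :=
      MeasurableSpace.generateFrom (Set.range (rect (As x) m))
    have hm : @Measurable _ _ mS _ (fun (e : Fin m → E) (k : Fin m) => x (e k)) := by
      refine @measurable_pi_lambda _ _ _ mS _ _ fun k => ?_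
      refine @Measurable.prodMk _ mS _ _ _ _ (fun e : Fin m → E => (x (e k)).1)
        (fun e => (x (e k)).2) ?_ ?_
      · refine @measurable_pi_lambda _ _ _ mS _ _ fun n => ?_
        refine @measurable_to_bool _ mS _ ?_
        have h := rect_mem_MN1 x k (2 * n + 1)
        rw [qs_fst] at h
        exact h
      · refine @measurable_pi_lambda _ _ _ mS _ _ fun n => ?_
        refine @measurable_to_bool _ mS _ ?_
        have h := rect_mem_MN1 x k (2 * n + 2)
        rw [qs_snd] at h
        exact h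
    exact hm hB

theorem generate_of_measurable {E : Type} (x : E → Z) {B : Set Z} (hB : MeasurableSet B) :
    MeasurableSpace.GenerateMeasurable (Set.range (As x)) {e | x e ∈ B} := by
  have hgen : ∀ n, @MeasurableSet E (MeasurableSpace.generateFrom (Set.range (As x))) (As x n) :=
    fun n => MeasurableSpace.measurableSet_generateFrom (Set.mem_range_self n)
  have h1 : @Measurable E C (MeasurableSpace.generateFrom (Set.range (As x))) _
      (fun e => (x e).1) := by
    refine @measurable_pi_lambda E ℕ (fun _ => Bool)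
      (MeasurableSpace.generateFrom (Set.range (As x))) _ _ fun n => ?_
    refine @measurable_to_bool E (MeasurableSpace.generateFrom (Set.range (As x))) _ ?_
    have e : (fun e => (x e).1 n) ⁻¹' {true} = As x (2 * n + 1) := by
      ext e
      simp only [As, qs_fst, mem_preimage, mem_singleton_iff, Set.mem_ofPred_eq]
    rw [e]
    exact hgen _
  have h2 : @Measurable E C (MeasurableSpace.generateFrom (Set.range (As x))) _
      (fun e => (x e).2) := by
    refine @measurable_pi_lambda E ℕ (fun _ => Bool)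
      (MeasurableSpace.generateFrom (Set.range (As x))) _ _ fun n => ?_
    refine @measurable_to_bool E (MeasurableSpace.generateFrom (Set.range (As x))) _ ?_
    have e : (fun e => (x e).2 n) ⁻¹' {true} = As x (2 * n + 2) := by
      ext e
      simp only [As, qs_snd, mem_preimage, mem_singleton_iff, Set.mem_ofPred_eq]
    rw [e]
    exact hgen _
  have h3 : @Measurable E Z (MeasurableSpace.generateFrom (Set.range (As x))) _ x :=
    letI : MeasurableSpace E := MeasurableSpace.generateFrom (Set.range (As x))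
    Measurable.prodMk h1 h2
  exact h3 hB

variable {Λ : Type} [LinearOrder Λ]

theorem class_dec_base_MN3 (S : Sys Λ) {E : Type} (φ : E → Λ) (b : Λ) (n : ℕ) :
    ∃ D : Set (C × Yt), MeasurableSet D ∧ Dec (S.ρ b) 0 D ∧
      ∀ e, S.β (φ e) = b → (e ∈ As (fun e => S.x (φ e)) n ↔
        ((S.v (φ e)).2.1, (S.v (φ e)).2.2.2) ∈ D) := by
  have hAs : ∀ e, (e ∈ As (fun e => S.x (φ e)) n ↔ S.x (φ e) ∈ qs n) := fun e => Iff.rfl
  simp only [hAs]
  rcases qs_cases n with h | ⟨k, h⟩ | ⟨k, h⟩
  · refine ⟨{_u | True}, MeasurableSet.const _, Dec.const _ _ _, fun e _ => ?_⟩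
    rw [h]
    simp
  · refine ⟨{_u | (S.v b).2.1 k = true}, MeasurableSet.const _, Dec.const _ _ _, fun e he => ?_⟩
    rw [h, ← he]
    rfl
  · by_cases hN : (S.v b).1 (nd (S.v b).2 k) = true ∧
      ∀ j < k, nd (S.v b).2 j ≠ nd (S.v b).2 k
    · have h0 : S.ρ b (nd (S.v b).2 k) = 0 := by
        have h1 := hN.1
        rw [S.nof b] at h1
        revert h1
        cases nd (S.v b).2 k with
        | nil => intro h1; simp [Nof] at h1
        | cons i t => intro h1; simp only [Nof, decide_eq_true_eq] at h1; exact h1.1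
      refine ⟨{u | u.2.1 (nd (S.v b).2 k) = true}, ?_, Dec.node h0 _, fun e he => ?_⟩
      · refine (MeasurableSet.singleton true).preimage (f := fun u : C × Yt =>
          u.2.1 (nd (S.v b).2 k)) ?_
        exact (measurable_pi_apply _).comp (measurable_subtype_coe.comp measurable_snd)
      · rw [h]
        show rd (S.v (S.β (φ e))).1 (S.v (S.β (φ e))).2 (S.v (φ e)).2 k = true ↔ _
        rw [he, rd, if_pos hN]
        rfl
    · refine ⟨{u | u.1 k = true}, ?_, Dec.junk _ _ _, fun e he => ?_⟩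
      · refine (MeasurableSet.singleton true).preimage (f := fun u : C × Yt => u.1 k) ?_
        exact (measurable_pi_apply _).comp measurable_fst
      · rw [h]
        show rd (S.v (S.β (φ e))).1 (S.v (S.β (φ e))).2 (S.v (φ e)).2 k = true ↔ _
        rw [he, rd, if_neg hN]
        rfl

/-- The sets of class `α` are decided by the nodes of rank at most `α` in the block `b`. -/
theorem class_dec (S : Sys Λ) {E : Type} (φ : E → Λ) (b : Λ) {α : Ordinal.{0}} {T : Set E}
    (hT : IsClass (As fun e => S.x (φ e)) α T) :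
    ∃ D : Set (C × Yt), MeasurableSet D ∧ Dec (S.ρ b) α D ∧
      ∀ e, S.β (φ e) = b → (e ∈ T ↔ ((S.v (φ e)).2.1, (S.v (φ e)).2.2.2) ∈ D) := by
  induction hT with
  | gen n => exact class_dec_base_MN3 S φ b n
  | gen_compl n =>
    obtain ⟨D, h1, h2, h3⟩ := class_dec_base_MN3 S φ b n
    exact ⟨Dᶜ, h1.compl, h2.compl, fun e he => not_congr (h3 e he)⟩
  | union α U β hβ hU ih =>
    choose D h1 h2 h3 using ih
    refine ⟨⋃ n, D n, MeasurableSet.iUnion h1, Dec.union (S.rs b) h1 hβ h2, fun e he => ?_⟩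
    simp only [mem_iUnion]
    exact exists_congr fun n => h3 n e he
  | union_compl α U β hβ hU ih =>
    choose D h1 h2 h3 using ih
    refine ⟨(⋃ n, D n)ᶜ, (MeasurableSet.iUnion h1).compl, (Dec.union (S.rs b) h1 hβ h2).compl,
      fun e he => not_congr ?_⟩
    simp only [mem_iUnion]
    exact exists_congr fun n => h3 n e he

/-- The value at the root is Borel on the block `b`. -/
theorem borel_root (S : Sys Λ) (b : Λ) :
    ∃ T : Set Z, MeasurableSet T ∧
      ∀ i, S.isP i → S.β i = b → (S.x i ∈ T ↔ (S.v i).2.2.2.1 [] = true) := by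
  have key : ∀ α : Ordinal.{0}, ∀ t : List ℕ, S.ρ b t = α → (S.ρ b t ≠ 0 ∨ Nof (S.ρ b) t = true) →
      ∃ T : Set Z, MeasurableSet T ∧
        ∀ i, S.isP i → S.β i = b → (S.x i ∈ T ↔ (S.v i).2.2.2.1 t = true) := by
    intro α
    induction α using WellFoundedLT.induction with
    | ind α ih =>
      intro t ht hc
      by_cases h0 : S.ρ b t = 0
      · have hN : Nof (S.ρ b) t = true := hc.resolve_left (fun h => h h0)
        have hex := S.onto b t
        classical
        have h1 := Nat.find_spec hex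
        have h2 : ∀ j < Nat.find hex, nd (S.v b).2 j ≠ nd (S.v b).2 (Nat.find hex) := by
          intro j hj h
          exact Nat.find_min hex hj (h.trans h1)
        refine ⟨{z | z.2 (Nat.find hex) = true}, ?_, fun i _ hi => ?_⟩
        · refine (MeasurableSet.singleton true).preimage (f := fun z : Z => z.2 (Nat.find hex)) ?_
          exact (measurable_pi_apply _).comp measurable_snd
        · show rd (S.v (S.β i)).1 (S.v (S.β i)).2 (S.v i).2 (Nat.find hex) = true ↔ _
          rw [hi, rd, if_pos ⟨by rw [S.nof b, h1, hN], h2⟩, h1]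
      · have hc' : ∀ i, ∃ T : Set Z, MeasurableSet T ∧
            ∀ j, S.isP j → S.β j = b → (S.x j ∈ T ↔ (S.v j).2.2.2.1 (i :: t) = true) := by
          intro i
          refine ih (S.ρ b (i :: t)) ?_ (i :: t) rfl ?_
          · rw [← ht]
            exact (S.rs b).lt i t h0
          · by_cases h1 : S.ρ b (i :: t) = 0
            · right
              simp [Nof, h1, h0]
            · exact Or.inl h1
        choose T h1 h2 using hc'
        refine ⟨⋂ i, (T i)ᶜ, MeasurableSet.iInter fun i => (h1 i).compl, fun j hj hb => ?_⟩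
        rw [(S.v j).2.2.2.2 t]
        simp only [mem_iInter, mem_compl_iff]
        refine forall_congr' fun i => ?_
        rw [h2 i j hj hb, Bool.not_eq_true]
  exact key _ [] rfl (Or.inl (S.rs b).root)

/-- The junk bits and the evaluation. -/
def prj_MN5 (w : W) : C × Yt := (w.1, w.2.2)

theorem continuous_prj_MN5 : Continuous prj_MN5 :=
  continuous_fst.prodMk (continuous_snd.comp continuous_snd)

theorem isOpenMap_prj_MN5 : IsOpenMap prj_MN5 := by
  refine isOpenMap_of_section fun x => ⟨fun u => (u.1, x.2.1, u.2), ?_, rfl, fun u => rfl⟩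
  exact continuous_fst.prodMk (continuous_const.prodMk continuous_snd)

/-- Points with generic data in a given open set. -/
theorem exists_point (S : Sys Λ) {b : Λ} (hb : S.isB b) {O D : Set (C × Yt)} (hO : IsOpen O)
    (hne : O.Nonempty) (hD : MeasurableSet D) (h : ∀ᵇ u, u ∈ O → u ∈ D) :
    ∃ i, S.isP i ∧ S.β i = b ∧ ((S.v i).2.1, (S.v i).2.2.2) ∈ O ∩ D := by
  have h1 : ∀ᵇ w : W, prj_MN5 w ∈ O → prj_MN5 w ∈ D :=
    (tendsto_residual_of_isOpenMap continuous_prj_MN5 isOpenMap_prj_MN5).eventually h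
  have hm : Measurable fun z : ℕ → V => prj_MN5 (z 0).2 := by
    have h2 : Measurable fun z : ℕ → V => (z 0).2 := measurable_snd.comp (measurable_pi_apply 0)
    exact (measurable_fst.comp h2).prodMk ((measurable_snd.comp measurable_snd).comp h2)
  have hB : MeasurableSet {z : ℕ → V | prj_MN5 (z 0).2 ∈ O → prj_MN5 (z 0).2 ∈ D} := by
    have h3 : {z : ℕ → V | prj_MN5 (z 0).2 ∈ O → prj_MN5 (z 0).2 ∈ D} =
        ((fun z : ℕ → V => prj_MN5 (z 0).2) ⁻¹' O)ᶜ ∪
          (fun z : ℕ → V => prj_MN5 (z 0).2) ⁻¹' D := by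
      ext z
      simp only [mem_ofPred_eq, mem_union, mem_compl_iff, mem_preimage]
      tauto
    rw [h3]
    exact (hm hO.measurableSet).compl.union (hm hD)
  obtain ⟨ξ, hξ⟩ := S.gen _ hB
  obtain ⟨i, hi, hP, hβ, hiO⟩ := S.denseP b hb (prj_MN5 ⁻¹' O) (hO.preimage continuous_prj_MN5) (by
    obtain ⟨u, hu⟩ := hne
    exact ⟨(u.1, fun _ => 0, u.2), hu⟩) ξ
  refine ⟨i, hP, hβ, hiO, ?_⟩
  have h4 := hξ i hi.le (fun _ => v0) Seq.base 0 ∅ (by
    filter_upwards [h1] with w hw
    refine Eventually.of_forall fun ω => ?_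
    rw [ov_empty]
    simp only [mem_ofPred_eq, Function.update_self]
    exact hw)
  have h5 := All_empty h4
  simp only [mem_ofPred_eq, Function.update_self] at h5
  exact h5 hiO

theorem propA_of_Sys (S : Sys Λ) {E : Type} (φ : E → Λ)
    (hφ : ∀ i, S.isP i ↔ ∃ e, φ e = i) : PropA (As fun e => S.x (φ e)) := by
  intro α hα
  obtain ⟨a₀, ha₀⟩ := S.big α hα
  obtain ⟨b, hab, hb, -⟩ := S.denseB univ isOpen_univ univ_nonempty a₀
  have hroot : α < S.ρ b [] := ha₀ b hab.le
  obtain ⟨T, hT, hTi⟩ := borel_root S b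
  refine ⟨{e | S.x (φ e) ∈ T}, generate_of_measurable (fun e => S.x (φ e)) hT, ?_⟩
  intro hcl
  obtain ⟨D, hD, hDec, hDi⟩ := class_dec S φ b hcl
  obtain ⟨O, hO, hne, hres⟩ := Dec.root hroot hDec
  have hE : MeasurableSet {u : C × Yt | u.2.1 [] = false} := by
    have h1 : Measurable fun u : C × Yt => u.2.1 [] :=
      (measurable_pi_apply []).comp (measurable_subtype_coe.comp measurable_snd)
    exact h1 (MeasurableSet.singleton false)
  have hD' : MeasurableSet {u : C × Yt | u ∈ D ↔ u.2.1 [] = false} := by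
    have h2 : {u : C × Yt | u ∈ D ↔ u.2.1 [] = false} =
        (D ∩ {u | u.2.1 [] = false}) ∪ (Dᶜ ∩ {u | u.2.1 [] = false}ᶜ) := by
      ext u
      simp only [mem_ofPred_eq, mem_union, mem_inter_iff, mem_compl_iff]
      tauto
    rw [h2]
    exact (hD.inter hE).union (hD.compl.inter hE.compl)
  obtain ⟨i, hiP, hib, -, hiD⟩ := exists_point S hb hO hne hD' hres
  obtain ⟨e, rfl⟩ := (hφ i).1 hiP
  have h1 := hTi (φ e) hiP hib
  have h2 := hDi e hib
  simp only [mem_ofPred_eq] at h2 hiD
  rw [h1, hiD] at h2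
  cases hc : (S.v (φ e)).2.2.2.1 [] <;> simp [hc] at h2

theorem isBorel_proj (S : Sys Λ) {E : Type} (φ : E → Λ) (hφ : ∀ i, S.isP i ↔ ∃ e, φ e = i)
    {m : ℕ} {T : Set (Fin (m + 1) → E)} (hT : IsBorel (As fun e => S.x (φ e)) (m + 1) T) :
    IsBorel (As fun e => S.x (φ e)) m (proj T) := by
  obtain ⟨B, hB, rfl⟩ := (isBorel_iff _ _ _).1 hT
  obtain ⟨D, hD, h⟩ := quant_elim S hB
  refine (isBorel_iff _ _ _).2 ⟨D, hD, ?_⟩
  ext e
  have h1 := h (fun k => φ (e k)) (fun k => (hφ _).2 ⟨e k, rfl⟩)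
  have h2 : ∀ y : E, (fun k => S.x (φ ((Fin.snoc e y : Fin (m + 1) → E) k))) =
      (Fin.snoc (fun k => S.x (φ (e k))) (S.x (φ y)) : Fin (m + 1) → Z) := by
    intro y
    funext k
    refine Fin.lastCases ?_ (fun k => ?_) k
    · simp
    · simp
  constructor
  · rintro ⟨y, hy⟩
    have hy' : (fun k => S.x (φ ((Fin.snoc e y : Fin (m + 1) → E) k))) ∈ B := hy
    rw [h2 y] at hy'
    exact h1.2 ⟨φ y, (hφ _).2 ⟨y, rfl⟩, hy'⟩
  · intro he
    obtain ⟨iy, hiy, hmem⟩ := h1.1 he
    obtain ⟨y, rfl⟩ := (hφ iy).1 hiy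
    refine ⟨y, ?_⟩
    show (fun k => S.x (φ ((Fin.snoc e y : Fin (m + 1) → E) k))) ∈ B
    rw [h2 y]
    exact hmem

theorem isBorel_of_isSigma (S : Sys Λ) {E : Type} (φ : E → Λ) (hφ : ∀ i, S.isP i ↔ ∃ e, φ e = i)
    (k m : ℕ) {T : Set (Fin m → E)} (hT : IsSigma (As fun e => S.x (φ e)) k m T) :
    IsBorel (As fun e => S.x (φ e)) m T := by
  induction k generalizing m T with
  | zero =>
    obtain ⟨B, hB, rfl⟩ := hT
    exact isBorel_proj S φ hφ hB
  | succ k ih =>
    obtain ⟨T', hT', rfl⟩ := hT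
    exact isBorel_proj S φ hφ (MeasurableSpace.GenerateMeasurable.compl _ (ih (m + 1) hT'))

theorem isSigma_of_isBorel {E : Type} [Nonempty E] (x : E → Z) (k m : ℕ) {T : Set (Fin m → E)}
    (hT : IsBorel (As x) m T) : IsSigma (As x) k m T := by
  have key : ∀ (m : ℕ) (T : Set (Fin m → E)), IsBorel (As x) m T →
      IsBorel (As x) (m + 1) {f | (fun k : Fin m => f k.castSucc) ∈ T} := by
    intro m T hT
    obtain ⟨B, hB, rfl⟩ := (isBorel_iff x m T).1 hT
    exact (isBorel_iff x (m + 1) _).2 ⟨{y | (fun k : Fin m => y k.castSucc) ∈ B},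
      measurable_init hB, rfl⟩
  have hpr : ∀ (m : ℕ) (T : Set (Fin m → E)),
      proj {f : Fin (m + 1) → E | (fun k : Fin m => f k.castSucc) ∈ T} = T := by
    intro m T
    ext y
    simp only [proj, mem_ofPred_eq, Fin.snoc_castSucc]
    exact ⟨fun ⟨_, h⟩ => h, fun h => ⟨Classical.arbitrary E, h⟩⟩
  induction k generalizing m with
  | zero => exact ⟨_, key m T hT, (hpr m T).symm⟩
  | succ k ih =>
    refine ⟨{f | (fun k : Fin m => f k.castSucc) ∈ T}ᶜ, ?_, ?_⟩
    · exact ih (m + 1) (MeasurableSpace.GenerateMeasurable.compl _ (key m T hT))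
    · rw [compl_compl]
      exact (hpr m T).symm

theorem propB_of_Sys (S : Sys Λ) {E : Type} [Nonempty E] (φ : E → Λ)
    (hφ : ∀ i, S.isP i ↔ ∃ e, φ e = i) (k : ℕ) : PropB (As fun e => S.x (φ e)) k := by
  intro T hT
  obtain ⟨l, h | h⟩ := hT
  · exact isSigma_of_isBorel _ k 1 (isBorel_of_isSigma S φ hφ l 1 h)
  · have h1 := isBorel_of_isSigma S φ hφ l 1 h
    have h2 : IsBorel (As fun e => S.x (φ e)) 1 Tᶜᶜ :=
      MeasurableSpace.GenerateMeasurable.compl _ h1
    rw [compl_compl] at h2
    exact isSigma_of_isBorel _ k 1 h2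

theorem exists_equiv (S : Sys Λ) (h : Cardinal.mk Λ = Cardinal.continuum) :
    ∃ φ : ℝ → Λ, ∀ i, S.isP i ↔ ∃ e, φ e = i := by
  obtain ⟨a⟩ := S.ne
  obtain ⟨b, -, hb, -⟩ := S.denseB univ isOpen_univ univ_nonempty a
  obtain ⟨i₀, -, hi₀, -⟩ := S.denseP b hb univ isOpen_univ univ_nonempty a
  have hle : Cardinal.mk {i // S.isP i} ≤ Cardinal.mk ℝ := by
    rw [Cardinal.mk_real, ← h]
    exact Cardinal.mk_subtype_le _
  obtain ⟨g⟩ := hle
  have : Nonempty {i // S.isP i} := ⟨⟨i₀, hi₀⟩⟩
  refine ⟨fun r => (Function.invFun g r).1, fun i => ⟨fun hi => ?_, ?_⟩⟩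
  · refine ⟨g ⟨i, hi⟩, ?_⟩
    show (Function.invFun g (g ⟨i, hi⟩)).1 = i
    rw [Function.leftInverse_invFun g.injective]
  · rintro ⟨e, rfl⟩
    exact (Function.invFun g e).2

/-- The continuum hypothesis implies the positive answer. -/
theorem positive_of_ch (h : Cardinal.continuum = Cardinal.aleph 1) : Positive := by
  obtain ⟨Λ, _, S, hΛ⟩ := exists_Sys h
  obtain ⟨φ, hφ⟩ := exists_equiv S hΛ
  exact fun k => ⟨As fun e => S.x (φ e), propA_of_Sys S φ hφ, propB_of_Sys S φ hφ k⟩

end Pool.CH
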