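import Pool.Agent.Lib.MP_1c8600_ch.ML

/-!
# MP_1c8600_lc, CH half: elimination of the quantifier over the points
-/

set_option autoImplicit false

open Set Filter Topology TopologicalSpace

namespace Pool.CH

variable {Λ : Type} [LinearOrder Λ]

/-- There are many points of the block `v` in `B`. -/
def critA {n : ℕ} (B : Set (Fin (n + 1) → Z)) (v : V) (x : Fin n → Z) : Prop :=
  ¬ ∀ᵇ w : W, (Fin.snoc x (pt v w) : Fin (n + 1) → Z) ∉ B

/-- There are many points with the label of the `k`-th point in `B`. -/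
def critB {n : ℕ} (B : Set (Fin (n + 1) → Z)) (k : Fin n) (x : Fin n → Z) : Prop :=
  ¬ ∀ᵇ a : C, (Fin.snoc x ((x k).1, a) : Fin (n + 1) → Z) ∉ B

/-- There are many points in `B`. -/
def critC {n : ℕ} (B : Set (Fin (n + 1) → Z)) (x : Fin n → Z) : Prop :=
  ¬ ∀ᵇ y : Z, (Fin.snoc x y : Fin (n + 1) → Z) ∉ B

instance instPolishSpaceC_QE1 : PolishSpace C := by constructor

theorem measurable_snoc {n : ℕ} :
    Measurable fun q : (Fin n → Z) × Z => (Fin.snoc q.1 q.2 : Fin (n + 1) → Z) := by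
  refine measurable_pi_iff.2 fun i => ?_
  refine Fin.lastCases ?_ (fun i => ?_) i
  · simpa using measurable_snd
  · simp only [Fin.snoc_castSucc]
    exact (measurable_pi_apply i).comp measurable_fst

theorem measurable_init {n : ℕ} :
    Measurable fun x : Fin (n + 1) → Z => (fun k : Fin n => x k.castSucc) :=
  measurable_pi_lambda _ fun _ => measurable_pi_apply _

theorem measurableSet_critA {n : ℕ} {B : Set (Fin (n + 1) → Z)} (hB : MeasurableSet B) (v : V) :
    MeasurableSet {x | critA B v x} := by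
  have h : MeasurableSet
      {q : (Fin n → Z) × W | (Fin.snoc q.1 (pt v q.2) : Fin (n + 1) → Z) ∈ Bᶜ} :=
    (measurable_snoc.comp (measurable_fst.prodMk
      ((continuous_pt v).measurable.comp measurable_snd))) hB.compl
  exact (measurableSet_all h).compl

theorem measurableSet_critB {n : ℕ} {B : Set (Fin (n + 1) → Z)} (hB : MeasurableSet B)
    (k : Fin n) : MeasurableSet {x | critB B k x} := by
  have h : MeasurableSet
      {q : (Fin n → Z) × C | (Fin.snoc q.1 ((q.1 k).1, q.2) : Fin (n + 1) → Z) ∈ Bᶜ} :=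
    (measurable_snoc.comp (measurable_fst.prodMk
      ((measurable_fst.comp ((measurable_pi_apply k).comp measurable_fst)).prodMk
        measurable_snd))) hB.compl
  exact (measurableSet_all h).compl

theorem measurableSet_critC {n : ℕ} {B : Set (Fin (n + 1) → Z)} (hB : MeasurableSet B) :
    MeasurableSet {x | critC B x} := by
  have h : MeasurableSet
      {q : (Fin n → Z) × Z | (Fin.snoc q.1 q.2 : Fin (n + 1) → Z) ∈ Bᶜ} :=
    measurable_snoc hB.compl
  exact (measurableSet_all h).compl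

private lemma init_snoc_QE1 {n : ℕ} (x : Fin n → Z) (y : Z) :
    (fun k : Fin n => (Fin.snoc x y : Fin (n + 1) → Z) k.castSucc) = x := by
  funext k
  simp

theorem critA_of (S : Sys Λ) {n : ℕ} {B : Set (Fin (n + 1) → Z)} (hB : MeasurableSet B) (b : Λ) :
    ∃ γ₀, ∀ γ, γ₀ ≤ γ → b < γ → ∀ (idx : Fin n → Λ), (∀ k, S.isP (idx k)) → ∀ iy, S.isP iy →
      γ ≤ iy → (∀ k, idx k ≠ iy) → S.β iy = b →
      (Fin.snoc (fun k => S.x (idx k)) (S.x iy) : Fin (n + 1) → Z) ∈ B →
      critA B (S.v b) (fun k => S.x (idx k)) := by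
  have hB' : MeasurableSet {y : Fin (n + 1) → Z | y ∈ B →
      critA B (S.v b) (fun k : Fin n => y k.castSucc)} := by
    have := hB.compl.union (measurable_init (measurableSet_critA hB (S.v b)))
    convert this using 1
    ext y
    simp [imp_iff_not_or]
  obtain ⟨γ₀, hγ₀⟩ := MLA S hB'
  refine ⟨γ₀, fun γ hγ hbγ idx hidx iy hiy hle hne hβ hmem => ?_⟩
  have h := hγ₀ γ hγ idx hidx iy hiy hle hne (hβ ▸ hbγ) (fun x => ?_) hmem
  · rwa [init_snoc_QE1] at h
  · rw [hβ]
    by_cases hx : critA B (S.v b) x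
    · refine Eventually.of_forall fun w _ => ?_
      rwa [init_snoc_QE1]
    · filter_upwards [not_not.1 hx] with w hw hw'
      exact absurd hw' hw

theorem critB_of (S : Sys Λ) {n : ℕ} {B : Set (Fin (n + 1) → Z)} (hB : MeasurableSet B)
    (k : Fin n) :
    ∃ γ₀, ∀ γ, γ₀ ≤ γ → ∀ (idx : Fin n → Λ), (∀ k, S.isP (idx k)) → ∀ iy, S.isP iy →
      (∀ k, idx k ≠ iy) → γ ≤ S.β iy → S.β (idx k) = S.β iy →
      (Fin.snoc (fun k => S.x (idx k)) (S.x iy) : Fin (n + 1) → Z) ∈ B →
      critB B k (fun k => S.x (idx k)) := by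
  have hB' : MeasurableSet {y : Fin (n + 1) → Z | y ∈ B →
      critB B k (fun k : Fin n => y k.castSucc)} := by
    have := hB.compl.union (measurable_init (measurableSet_critB hB k))
    convert this using 1
    ext y
    simp [imp_iff_not_or]
  obtain ⟨γ₀, hγ₀⟩ := MLB S hB'
  refine ⟨γ₀, fun γ hγ idx hidx iy hiy hne hle hβ hmem => ?_⟩
  have h := hγ₀ γ hγ idx hidx iy hiy hne hle k hβ (fun x => ?_) hmem
  · rwa [init_snoc_QE1] at h
  · by_cases hx : critB B k x
    · refine Eventually.of_forall fun w _ => ?_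
      rwa [init_snoc_QE1]
    · filter_upwards [not_not.1 hx] with w hw hw'
      exact absurd hw' hw

theorem critC_of (S : Sys Λ) {n : ℕ} {B : Set (Fin (n + 1) → Z)} (hB : MeasurableSet B) :
    ∃ γ₀, ∀ γ, γ₀ ≤ γ → ∀ (idx : Fin n → Λ), (∀ k, S.isP (idx k)) → ∀ iy, S.isP iy →
      γ ≤ S.β iy → (∀ k, S.β (idx k) ≠ S.β iy) →
      (Fin.snoc (fun k => S.x (idx k)) (S.x iy) : Fin (n + 1) → Z) ∈ B →
      critC B (fun k => S.x (idx k)) := by
  have hB' : MeasurableSet {y : Fin (n + 1) → Z | y ∈ B →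
      critC B (fun k : Fin n => y k.castSucc)} := by
    have := hB.compl.union (measurable_init (measurableSet_critC hB))
    convert this using 1
    ext y
    simp [imp_iff_not_or]
  obtain ⟨γ₀, hγ₀⟩ := MLC S hB'
  refine ⟨γ₀, fun γ hγ idx hidx iy hiy hle hβ hmem => ?_⟩
  have h := hγ₀ γ hγ idx hidx iy hiy hle hβ (fun x => ?_) hmem
  · rwa [init_snoc_QE1] at h
  · by_cases hx : critC B x
    · refine Eventually.of_forall fun w _ => ?_
      rwa [init_snoc_QE1]
    · filter_upwards [not_not.1 hx] with w hw hw'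
      exact absurd hw' hw

private lemma All_empty_QE3 {B : Set (ℕ → V)} {z : ℕ → V} (h : z ∈ B) : All ∅ B z :=
  Eventually.of_forall fun ω => by rwa [ov_empty]

/-- A stage above finitely many stages. -/
private lemma exists_above_QE3 (S : Sys Λ) {n : ℕ} (f g : Fin n → Λ) (a b : Λ) :
    ∃ c, (∀ k, f k < c) ∧ (∀ k, g k < c) ∧ a < c ∧ b < c := by
  obtain ⟨c, hc⟩ := S.cof (range f ∪ range g ∪ {a, b})
    (((countable_range f).union (countable_range g)).union (toFinite _).countable)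
  exact ⟨c, fun k => hc _ (by simp), fun k => hc _ (by simp), hc _ (by simp), hc _ (by simp)⟩

theorem of_critA (S : Sys Λ) {n : ℕ} {B : Set (Fin (n + 1) → Z)} (hB : MeasurableSet B)
    (idx : Fin n → Λ) (hidx : ∀ k, S.isP (idx k)) {b : Λ} (hb : S.isB b)
    (h : critA B (S.v b) (fun k => S.x (idx k))) :
    ∃ iy, S.isP iy ∧ (Fin.snoc (fun k => S.x (idx k)) (S.x iy) : Fin (n + 1) → Z) ∈ B := by
  classical
  set x : Fin n → Z := fun k => S.x (idx k) with hx
  have hm0 : Measurable fun w : W => (Fin.snoc x (pt (S.v b) w) : Fin (n + 1) → Z) := by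
    have h1 : Measurable fun w : W => (x, pt (S.v b) w) :=
      measurable_const.prodMk (continuous_pt (S.v b)).measurable
    exact measurable_snoc.comp h1
  have hm : MeasurableSet {w : W | (Fin.snoc x (pt (S.v b) w) : Fin (n + 1) → Z) ∈ B} := hm0 hB
  obtain ⟨O, hO, hne, hOB⟩ := nonmeager_open hm h
  have hOo : IsOpen O := isOpen_of_mem_countableBasis hO
  -- the pattern set
  let T : (ℕ → V) → (Fin (n + 1) → Z) := fun z =>
    Fin.snoc (fun k : Fin n => pt (z (2 * k + 2)) (z (2 * k + 3)).2) (pt (z 1) (z 0).2)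
  have hpt : ∀ i j : ℕ, Measurable fun z : ℕ → V => pt (z i) (z j).2 := by
    intro i j
    have h1 : Measurable fun z : ℕ → V => (z i, (z j).2) :=
      (measurable_pi_apply i).prodMk (measurable_snd.comp (measurable_pi_apply j))
    exact measurable_pt.comp h1
  have hT : Measurable T := by
    have h1 : Measurable fun z : ℕ → V =>
        ((fun k : Fin n => pt (z (2 * k + 2)) (z (2 * k + 3)).2), pt (z 1) (z 0).2) :=
      (measurable_pi_lambda _ fun k => hpt _ _).prodMk (hpt _ _)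
    exact measurable_snoc.comp h1
  have hBB : MeasurableSet {z : ℕ → V | (z 0).2 ∈ O → T z ∈ B} := by
    have h1 : MeasurableSet {z : ℕ → V | (z 0).2 ∈ O} :=
      (measurable_snd.comp (measurable_pi_apply 0)) hOo.measurableSet
    have := h1.compl.union (hT hB)
    convert this using 1
    ext y
    simp [imp_iff_not_or]
  obtain ⟨ξ, hξ⟩ := S.gen _ hBB
  obtain ⟨c, hc1, hc2, hc3, hc4⟩ := exists_above_QE3 S idx (fun k => S.β (idx k)) ξ b
  obtain ⟨iy, hiy1, hiy2, hiy3, hiy4⟩ := S.denseP b hb O hOo hne c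
  refine ⟨iy, hiy2, ?_⟩
  -- the sequence
  let st : ℕ → Λ := fun j => if h : (j - 2) / 2 < n then
    (if j = 1 then b else if j % 2 = 0 then S.β (idx ⟨(j - 2) / 2, h⟩) else idx ⟨(j - 2) / 2, h⟩)
    else b
  have hst1 : st 1 = b := by
    simp only [st]
    split_ifs <;> simp_all
  have hst2 : ∀ k : Fin n, st (2 * k + 2) = S.β (idx k) := by
    intro k
    have h1 : (2 * (k : ℕ) + 2 - 2) / 2 = k := by omega
    have h2 : (2 * (k : ℕ) + 2 - 2) / 2 < n := by rw [h1]; exact k.2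
    have h3 : (⟨(2 * (k : ℕ) + 2 - 2) / 2, h2⟩ : Fin n) = k := Fin.ext h1
    simp only [st]
    rw [dif_pos h2, if_neg (by omega), if_pos (by omega), h3]
  have hst3 : ∀ k : Fin n, st (2 * k + 3) = idx k := by
    intro k
    have h1 : (2 * (k : ℕ) + 3 - 2) / 2 = k := by omega
    have h2 : (2 * (k : ℕ) + 3 - 2) / 2 < n := by rw [h1]; exact k.2
    have h3 : (⟨(2 * (k : ℕ) + 3 - 2) / 2, h2⟩ : Fin n) = k := Fin.ext h1
    simp only [st]
    rw [dif_pos h2, if_neg (by omega), if_neg (by omega), h3]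
  have hstc : ∀ j, st j < c := by
    intro j
    simp only [st]
    split_ifs
    · exact hc4
    · exact hc2 _
    · exact hc1 _
    · exact hc4
  let P : Finset ℕ := Finset.range (2 * n + 4)
  let z : ℕ → V := fun j => if j ∈ P ∧ True then S.v (st j) else v0
  have hz : Seq S.v iy z := Seq.fill P st (fun _ => True) fun j _ _ => (hstc j).trans hiy1
  have hzj : ∀ j, j < 2 * n + 4 → z j = S.v (st j) := by
    intro j hj
    simp [z, P, hj]
  have hTz : ∀ v : V, T (Function.update z 0 v) = Fin.snoc x (pt (S.v b) v.2) := by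
    intro v
    simp only [T]
    congr 1
    · funext k
      rw [Function.update_of_ne (by omega), Function.update_of_ne (by omega),
        hzj _ (by omega), hzj _ (by omega), hst2, hst3]
      rfl
    · rw [Function.update_of_ne (by omega), Function.update_self, hzj _ (by omega), hst1]
  have hL := hξ iy (hc3.le.trans hiy1.le) z hz 0 ∅ (by
    filter_upwards [hOB] with w hw
    refine All_empty_QE3 fun hwO => ?_
    rw [hTz]
    exact hw (by simpa using hwO))
  have hfin := All_empty hL (by simpa using hiy4)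
  rw [hTz] at hfin
  have : S.x iy = pt (S.v b) (S.v iy).2 := by
    rw [Sys.x, hiy3]
  rwa [this]

theorem of_critB (S : Sys Λ) {n : ℕ} {B : Set (Fin (n + 1) → Z)} (hB : MeasurableSet B)
    (k : Fin n) :
    ∃ γ₀, ∀ γ, γ₀ ≤ γ → ∀ (idx : Fin n → Λ), (∀ k, S.isP (idx k)) → γ ≤ S.β (idx k) →
      critB B k (fun k => S.x (idx k)) →
      ∃ iy, S.isP iy ∧ (Fin.snoc (fun k => S.x (idx k)) (S.x iy) : Fin (n + 1) → Z) ∈ B := by
  have hmain : ∀ O : Set C, ∃ γ₀ : Λ, IsOpen O → ∀ γ, γ₀ ≤ γ → ∀ (idx : Fin n → Λ),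
      (∀ k, S.isP (idx k)) → ∀ iy, S.isP iy → (∀ k, idx k ≠ iy) → γ ≤ S.β iy →
      S.β (idx k) = S.β iy →
      (∀ᵇ a : C, a ∈ O → (Fin.snoc (fun k => S.x (idx k)) ((S.x (idx k)).1, a) :
        Fin (n + 1) → Z) ∈ B) → (S.x iy).1 = (S.x (idx k)).1 → (S.x iy).2 ∈ O →
      (Fin.snoc (fun k => S.x (idx k)) (S.x iy) : Fin (n + 1) → Z) ∈ B := by
    intro O
    by_cases hO : IsOpen O
    swap
    · exact ⟨S.ne.some, fun h => absurd h hO⟩
    have hR : MeasurableSet {x : Fin n → Z | ∀ᵇ a : C,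
        (x, a) ∈ {q : (Fin n → Z) × C | q.2 ∈ O →
          (Fin.snoc q.1 ((q.1 k).1, q.2) : Fin (n + 1) → Z) ∈ B}} := by
      refine measurableSet_all ?_
      have h1 : MeasurableSet {q : (Fin n → Z) × C | q.2 ∈ O} := measurable_snd hO.measurableSet
      have h2 : MeasurableSet
          {q : (Fin n → Z) × C | (Fin.snoc q.1 ((q.1 k).1, q.2) : Fin (n + 1) → Z) ∈ B} :=
        (measurable_snoc.comp (measurable_fst.prodMk
          ((measurable_fst.comp ((measurable_pi_apply k).comp measurable_fst)).prodMk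
            measurable_snd))) hB
      have := h1.compl.union h2
      convert this using 1
      ext y
      simp [imp_iff_not_or]
    have hB' : MeasurableSet {y : Fin (n + 1) → Z |
        (fun k : Fin n => y k.castSucc) ∈ {x : Fin n → Z | ∀ᵇ a : C,
          (x, a) ∈ {q : (Fin n → Z) × C | q.2 ∈ O →
            (Fin.snoc q.1 ((q.1 k).1, q.2) : Fin (n + 1) → Z) ∈ B}} →
        (y (Fin.last n)).1 = (y k.castSucc).1 → (y (Fin.last n)).2 ∈ O → y ∈ B} := by
      have h1 := measurable_init hR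
      have h2 : MeasurableSet {y : Fin (n + 1) → Z | (y (Fin.last n)).1 = (y k.castSucc).1} :=
        measurableSet_eq_fun (measurable_fst.comp (measurable_pi_apply _))
          (measurable_fst.comp (measurable_pi_apply _))
      have h3 : MeasurableSet {y : Fin (n + 1) → Z | (y (Fin.last n)).2 ∈ O} :=
        (measurable_snd.comp (measurable_pi_apply _)) hO.measurableSet
      have := h1.compl.union (h2.compl.union (h3.compl.union hB))
      convert this using 1
      ext y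
      simp [imp_iff_not_or]
    obtain ⟨γ₀, hγ₀⟩ := MLB S hB'
    refine ⟨γ₀, fun _ γ hγ idx hidx iy hiy hne hle hβ ha h1 h2 => ?_⟩
    have h := hγ₀ γ hγ idx hidx iy hiy hne hle k hβ (fun x => ?_)
    · refine h ?_ ?_ ?_
      · rw [init_snoc_QE1]
        exact ha
      · simpa using h1
      · simpa using h2
    · by_cases hx : ∀ᵇ a : C, a ∈ O → (Fin.snoc x ((x k).1, a) : Fin (n + 1) → Z) ∈ B
      · filter_upwards [hx] with a ha' _ _ h3
        exact ha' (by simpa using h3)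
      · refine Eventually.of_forall fun a h3 => ?_
        rw [init_snoc_QE1] at h3
        exact absurd h3 hx
  choose G hG using hmain
  obtain ⟨γ₀, hγ₀⟩ := S.cof (G '' countableBasis C) ((countable_countableBasis C).image G)
  refine ⟨γ₀, fun γ hγ idx hidx hle hcrit => ?_⟩
  have hm0 : Measurable fun a : C => (Fin.snoc (fun k => S.x (idx k)) ((S.x (idx k)).1, a) :
      Fin (n + 1) → Z) := by
    have h1 : Measurable fun a : C => ((fun k => S.x (idx k)), (((S.x (idx k)).1, a) : Z)) :=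
      measurable_const.prodMk (measurable_const.prodMk measurable_id)
    exact measurable_snoc.comp h1
  have hm : MeasurableSet {a : C | (Fin.snoc (fun k => S.x (idx k)) ((S.x (idx k)).1, a) :
      Fin (n + 1) → Z) ∈ B} := hm0 hB
  obtain ⟨O, hO, hne, hOB⟩ := nonmeager_open hm hcrit
  have hOo : IsOpen O := isOpen_of_mem_countableBasis hO
  have hgood : Good (S.v (S.β (idx k))).1 := by
    rw [S.nof]
    exact good_Nof _
  obtain ⟨w, hw⟩ := exists_rd_mem hgood (S.v (S.β (idx k))).2 hOo hne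
  obtain ⟨c, hc1, -, -, -⟩ := exists_above_QE3 S idx idx γ γ
  obtain ⟨iy, hiy1, hiy2, hiy3, hiy4⟩ := S.denseP (S.β (idx k)) (S.blk _ (hidx k))
    (rd (S.v (S.β (idx k))).1 (S.v (S.β (idx k))).2 ⁻¹' O)
    (hOo.preimage (continuous_rd _ _)) ⟨w, hw⟩ c
  refine ⟨iy, hiy2, ?_⟩
  refine hG O hOo γ ((hγ₀ _ (mem_image_of_mem G hO)).le.trans hγ) idx hidx iy hiy2
    (fun k' => ((hc1 k').trans hiy1).ne) (hiy3 ▸ hle) hiy3.symm hOB ?_ ?_
  · simp [Sys.x, pt, hiy3]
  · simpa [Sys.x, pt, hiy3] using hiy4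

theorem of_critC (S : Sys Λ) {n : ℕ} {B : Set (Fin (n + 1) → Z)} (hB : MeasurableSet B)
    (idx : Fin n → Λ) (hidx : ∀ k, S.isP (idx k)) (h : critC B (fun k => S.x (idx k))) :
    ∃ iy, S.isP iy ∧ (Fin.snoc (fun k => S.x (idx k)) (S.x iy) : Fin (n + 1) → Z) ∈ B := by
  have hm0 : Measurable fun y : Z => (Fin.snoc (fun k => S.x (idx k)) y : Fin (n + 1) → Z) := by
    have h1 : Measurable fun y : Z => ((fun k => S.x (idx k)), y) :=
      measurable_const.prodMk measurable_id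
    exact measurable_snoc.comp h1
  have hm : MeasurableSet {y : Z | (Fin.snoc (fun k => S.x (idx k)) y : Fin (n + 1) → Z) ∈ B} :=
    hm0 hB
  obtain ⟨O, hO, hne, hOB⟩ := nonmeager_open hm h
  have hOo : IsOpen O := isOpen_of_mem_countableBasis hO
  have hR : MeasurableSet {x : Fin n → Z | ∀ᵇ a : Z,
      (x, a) ∈ {q : (Fin n → Z) × Z | q.2 ∈ O →
        (Fin.snoc q.1 q.2 : Fin (n + 1) → Z) ∈ B}} := by
    refine measurableSet_all ?_
    have h1 : MeasurableSet {q : (Fin n → Z) × Z | q.2 ∈ O} := measurable_snd hOo.measurableSet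
    have h2 : MeasurableSet
        {q : (Fin n → Z) × Z | (Fin.snoc q.1 q.2 : Fin (n + 1) → Z) ∈ B} :=
      measurable_snoc hB
    have := h1.compl.union h2
    convert this using 1
    ext y
    simp [imp_iff_not_or]
  have hB' : MeasurableSet {y : Fin (n + 1) → Z |
      (fun k : Fin n => y k.castSucc) ∈ {x : Fin n → Z | ∀ᵇ a : Z,
        (x, a) ∈ {q : (Fin n → Z) × Z | q.2 ∈ O →
          (Fin.snoc q.1 q.2 : Fin (n + 1) → Z) ∈ B}} →
      y (Fin.last n) ∈ O → y ∈ B} := by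
    have h1 := measurable_init hR
    have h3 : MeasurableSet {y : Fin (n + 1) → Z | y (Fin.last n) ∈ O} :=
      (measurable_pi_apply _) hOo.measurableSet
    have := h1.compl.union (h3.compl.union hB)
    convert this using 1
    ext y
    simp [imp_iff_not_or]
  obtain ⟨γ₀, hγ₀⟩ := MLC S hB'
  -- a box in `O`
  obtain ⟨⟨a, d⟩, had⟩ := hne
  obtain ⟨O1, O2, hO1, hO2, ha, hd, hbox⟩ := isOpen_prod_iff.1 hOo a d had
  obtain ⟨c, hc1, hc2, hc3, -⟩ := exists_above_QE3 S idx (fun k => S.β (idx k)) γ₀ γ₀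
  obtain ⟨b, hb1, hb2, hb3⟩ := S.denseB (Prod.fst ⁻¹' O1) (hO1.preimage continuous_fst)
    ⟨(a, (Classical.arbitrary (ℕ → ℕ)), (Classical.arbitrary Yt)), ha⟩ c
  have hgood : Good (S.v b).1 := by
    rw [S.nof]
    exact good_Nof _
  obtain ⟨w, hw⟩ := exists_rd_mem hgood (S.v b).2 hO2 ⟨d, hd⟩
  obtain ⟨iy, hiy1, hiy2, hiy3, hiy4⟩ := S.denseP b hb2
    (rd (S.v b).1 (S.v b).2 ⁻¹' O2) (hO2.preimage (continuous_rd _ _)) ⟨w, hw⟩ c
  refine ⟨iy, hiy2, ?_⟩
  have h4 := hγ₀ γ₀ le_rfl idx hidx iy hiy2 (by rw [hiy3]; exact (hc3.trans hb1).le)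
    (fun k => by rw [hiy3]; exact ((hc2 k).trans hb1).ne) (fun x => ?_)
  · refine h4 ?_ ?_
    · rw [init_snoc_QE1]
      exact hOB
    · simp only [Fin.snoc_last]
      refine hbox ⟨?_, ?_⟩
      · simpa [Sys.x, pt, hiy3] using hb3
      · simpa [Sys.x, pt, hiy3] using hiy4
  · by_cases hx : ∀ᵇ a : Z, a ∈ O → (Fin.snoc x a : Fin (n + 1) → Z) ∈ B
    · filter_upwards [hx] with a ha' _ h3
      exact ha' (by simpa using h3)
    · refine Eventually.of_forall fun a h3 => ?_
      rw [init_snoc_QE1] at h3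
      exact absurd h3 hx

/-- Countable closure points. -/
theorem exists_closed (S : Sys Λ) (f : Λ → Λ) (a : Λ) : ∃ γ, a ≤ γ ∧ ∀ b < γ, f b ≤ γ := by
  have hstep : ∀ γ : Λ, ∃ γ', γ < γ' ∧ ∀ b ≤ γ, f b < γ' := by
    intro γ
    obtain ⟨γ', h⟩ := S.cof (insert γ (f '' Iic γ)) (((S.count γ).image f).insert γ)
    exact ⟨γ', h γ (mem_insert _ _), fun b hb => h (f b) (mem_insert_of_mem _ ⟨b, hb, rfl⟩)⟩
  choose g hg1 hg2 using hstep
  let c : ℕ → Λ := fun n => Nat.rec a (fun _ γ => g γ) n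
  have hc : ∀ n, c (n + 1) = g (c n) := fun n => rfl
  obtain ⟨u, hu⟩ := S.cof (range c) (countable_range c)
  have hne : {γ : Λ | ∀ n, c n ≤ γ}.Nonempty := ⟨u, fun n => (hu _ ⟨n, rfl⟩).le⟩
  have hwf : WellFounded ((· < ·) : Λ → Λ → Prop) := S.wf.wf
  refine ⟨hwf.min _ hne, hwf.min_mem _ hne 0, fun b hb => ?_⟩
  have h1 : ¬ ∀ n, c n ≤ b := fun h =>
    hwf.not_lt_min {γ : Λ | ∀ n, c n ≤ γ} (show b ∈ {γ : Λ | ∀ n, c n ≤ γ} from h) hb
  push Not at h1
  obtain ⟨n, hn⟩ := h1
  have h2 : f b < c (n + 1) := by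
    rw [hc]
    exact hg2 (c n) b hn.le
  exact h2.le.trans (hwf.min_mem _ hne (n + 1))

/-- a finite family of bounds -/
theorem exists_bound_QE7 (S : Sys Λ) {n : ℕ} (f g : Fin n → Λ) (c : Λ) :
    ∃ a, c ≤ a ∧ (∀ k, f k ≤ a) ∧ ∀ k, g k ≤ a := by
  obtain ⟨a, ha⟩ := S.cof (insert c (range f ∪ range g))
    (((countable_range f).union (countable_range g)).insert c)
  exact ⟨a, (ha c (mem_insert _ _)).le, fun k => (ha _ (Or.inr (Or.inl (mem_range_self k)))).le,
    fun k => (ha _ (Or.inr (Or.inr (mem_range_self k)))).le⟩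

theorem countable_lt_QE7 (S : Sys Λ) (γ : Λ) : (Iio γ).Countable :=
  (S.count γ).mono Iio_subset_Iic_self

theorem quant_elim (S : Sys Λ) {n : ℕ} {B : Set (Fin (n + 1) → Z)} (hB : MeasurableSet B) :
    ∃ D : Set (Fin n → Z), MeasurableSet D ∧ ∀ idx : Fin n → Λ, (∀ k, S.isP (idx k)) →
      ((fun k => S.x (idx k)) ∈ D ↔
        ∃ iy, S.isP iy ∧ (Fin.snoc (fun k => S.x (idx k)) (S.x iy) : Fin (n + 1) → Z) ∈ B) := by
  classical
  choose gA hgA using critA_of S hB
  choose gB hgB using critB_of S hB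
  choose gB' hgB' using of_critB S hB
  obtain ⟨gC, hgC⟩ := critC_of S hB
  obtain ⟨a, haC, haB, haB'⟩ := exists_bound_QE7 S gB gB' gC
  obtain ⟨γ, haγ, hγ⟩ := exists_closed S gA a
  have hcnt := countable_lt_QE7 S γ
  have hxk : ∀ k : Fin n, Measurable fun x : Fin n → Z => x k := fun k => measurable_pi_apply k
  have m1 : ∀ c : Z, MeasurableSet {x : Fin n → Z | (Fin.snoc x c : Fin (n + 1) → Z) ∈ B} := by
    intro c
    have h1 : Measurable fun x : Fin n → Z => (Fin.snoc x c : Fin (n + 1) → Z) :=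
      measurable_snoc.comp (measurable_id.prodMk measurable_const)
    exact h1 hB
  have m2 : ∀ k : Fin n,
      MeasurableSet {x : Fin n → Z | (Fin.snoc x (x k) : Fin (n + 1) → Z) ∈ B} := by
    intro k
    have h1 : Measurable fun x : Fin n → Z => (Fin.snoc x (x k) : Fin (n + 1) → Z) :=
      measurable_snoc.comp (measurable_id.prodMk (hxk k))
    exact h1 hB
  have m3 : ∀ (k : Fin n) (c : C), MeasurableSet {x : Fin n → Z | (x k).1 = c} := by
    intro k c
    exact (measurable_fst.comp (hxk k)) (measurableSet_singleton c)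
  set D : Set (Fin n → Z) :=
    (⋃ i ∈ {i | i < γ ∧ S.isP i}, {x | (Fin.snoc x (S.x i) : Fin (n + 1) → Z) ∈ B}) ∪
    (⋃ k : Fin n, {x | (Fin.snoc x (x k) : Fin (n + 1) → Z) ∈ B}) ∪
    (⋃ b ∈ {b | b < γ ∧ S.isB b}, {x | critA B (S.v b) x}) ∪
    (⋃ k : Fin n, ((⋂ b ∈ {b | b < γ ∧ S.isB b}, {x | (x k).1 = (S.v b).2.1}ᶜ) ∩
      {x | critB B k x})) ∪ {x | critC B x} with hD
  have hcP : {i | i < γ ∧ S.isP i}.Countable := hcnt.mono fun i hi => hi.1
  have hcB : {i | i < γ ∧ S.isB i}.Countable := hcnt.mono fun i hi => hi.1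
  refine ⟨D, ?_, fun idx hidx => ⟨fun hx => ?_, ?_⟩⟩
  · refine ((((MeasurableSet.biUnion hcP fun i _ => m1 _).union
      (MeasurableSet.iUnion fun k => m2 k)).union
      (MeasurableSet.biUnion hcB fun b _ => measurableSet_critA hB _)).union
      (MeasurableSet.iUnion fun k => ?_)).union (measurableSet_critC hB)
    exact (MeasurableSet.biInter hcB fun b _ => (m3 k _).compl).inter (measurableSet_critB hB k)
  · rcases hx with (((hx | hx) | hx) | hx) | hx
    · obtain ⟨i, hi, hx⟩ := mem_iUnion₂.1 hx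
      exact ⟨i, hi.2, hx⟩
    · obtain ⟨k, hx⟩ := mem_iUnion.1 hx
      exact ⟨idx k, hidx k, hx⟩
    · obtain ⟨b, hb, hx⟩ := mem_iUnion₂.1 hx
      exact of_critA S hB idx hidx hb.2 hx
    · obtain ⟨k, hx1, hx2⟩ := mem_iUnion.1 hx
      have hle : γ ≤ S.β (idx k) := by
        by_contra hlt
        rw [not_le] at hlt
        have h1 := mem_iInter₂.1 hx1 (S.β (idx k)) ⟨hlt, S.blk _ (hidx k)⟩
        exact h1 rfl
      exact hgB' k γ ((haB' k).trans haγ) idx hidx hle hx2
    · exact of_critC S hB idx hidx hx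
  · rintro ⟨iy, hP, hmem⟩
    by_cases h1 : iy < γ
    · exact Or.inl (Or.inl (Or.inl (Or.inl (mem_iUnion₂.2 ⟨iy, ⟨h1, hP⟩, hmem⟩))))
    rw [not_lt] at h1
    by_cases h2 : ∃ k, idx k = iy
    · obtain ⟨k, rfl⟩ := h2
      exact Or.inl (Or.inl (Or.inl (Or.inr (mem_iUnion.2 ⟨k, hmem⟩))))
    push Not at h2
    by_cases h3 : S.β iy < γ
    · exact Or.inl (Or.inl (Or.inr (mem_iUnion₂.2 ⟨S.β iy, ⟨h3, S.blk _ hP⟩,
        hgA (S.β iy) γ (hγ _ h3) h3 idx hidx iy hP h1 h2 rfl hmem⟩)))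
    rw [not_lt] at h3
    by_cases h4 : ∃ k, S.β (idx k) = S.β iy
    · obtain ⟨k, hk⟩ := h4
      refine Or.inl (Or.inr (mem_iUnion.2 ⟨k, mem_iInter₂.2 fun b hb => ?_,
        hgB k γ ((haB k).trans haγ) idx hidx iy hP h2 h3 hk hmem⟩))
      intro he
      have he' : (S.v (S.β (idx k))).2.1 = (S.v b).2.1 := he
      have := S.inj _ _ he'
      rw [hk] at this
      exact absurd hb.1 (not_lt.2 (this ▸ h3))
    · push Not at h4
      exact Or.inr (hgC γ (haC.trans haγ) idx hidx iy hP h3 h4 hmem)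

end Pool.CH
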