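import Pool.Agent.Lib.MP_1c8600_ch.Space

/-!
# MP_1c8600_lc, CH half: quantifying over finitely many positions; patterns
-/

set_option autoImplicit false

open Set Filter Topology TopologicalSpace

namespace Pool.CH

/-- Override `z` by `h` at the positions in `J`. -/
def ov (J : Finset ℕ) (z h : ℕ → V) : ℕ → V := fun j => if j ∈ J then h j else z j

/-- Generic data with the default reading (no node is readable). -/
def dflt (ω : ℕ → W) : ℕ → V := fun j => (fun _ => false, ω j)

/-- For almost all data at the positions in `J` (default reading) `B` holds. -/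
def All (J : Finset ℕ) (B : Set (ℕ → V)) (z : ℕ → V) : Prop :=
  ∀ᵇ ω : ℕ → W, ov J z (dflt ω) ∈ B

lemma ov_empty (z h : ℕ → V) : ov ∅ z h = z := by
  funext j
  simp [ov]

instance polishBool_QU1 : PolishSpace Bool := { }

instance polishC_QU1 : PolishSpace C := inferInstance

instance polishW_QU1 : PolishSpace W := inferInstance

instance polishNW_QU1 : PolishSpace (ℕ → W) := inferInstance

instance polishWW_QU1 : PolishSpace (W × W) := inferInstance

instance borelW_QU1 : BorelSpace W := inferInstance

instance borelNW_QU1 : BorelSpace (ℕ → W) := Pi.borelSpace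

theorem neBot_residual_QU1 {X : Type} [TopologicalSpace X] [BaireSpace X] [Nonempty X] :
    (residual X).NeBot := by
  rw [Filter.neBot_iff]
  intro h
  have h1 : (∅ : Set X) ∈ residual X := by
    rw [h]
    exact Filter.mem_bot
  have h2 : Dense (∅ : Set X) := dense_of_mem_residual h1
  obtain ⟨x⟩ := ‹Nonempty X›
  simpa using h2 x

theorem All_empty {B : Set (ℕ → V)} {z : ℕ → V} (h : All ∅ B z) : z ∈ B := by
  unfold All at h
  have : (residual (ℕ → W)).NeBot := neBot_residual_QU1
  obtain ⟨ω, hω⟩ := Filter.Eventually.exists h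
  rwa [ov_empty] at hω

theorem measurable_ov_dflt (J : Finset ℕ) :
    Measurable fun q : (ℕ → V) × (ℕ → W) => ov J q.1 (dflt q.2) := by
  refine measurable_pi_lambda _ fun j => ?_
  by_cases hj : j ∈ J
  · simp only [ov, hj, if_true, dflt]
    exact Measurable.prodMk measurable_const ((measurable_pi_apply j).comp measurable_snd)
  · simp only [ov, hj, if_false]
    exact (measurable_pi_apply j).comp measurable_fst

theorem measurable_ov_dflt_right (J : Finset ℕ) (z : ℕ → V) :
    Measurable fun ω : ℕ → W => ov J z (dflt ω) :=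
  (measurable_ov_dflt J).comp (Measurable.prodMk measurable_const measurable_id)

theorem isOpenMap_update_QU1 (j : ℕ) :
    IsOpenMap fun q : W × (ℕ → W) => Function.update q.2 j q.1 := by
  refine isOpenMap_of_section fun x => ⟨fun ω => (ω j, Function.update ω j (x.2 j)), ?_, ?_, ?_⟩
  · exact Continuous.prodMk (continuous_apply j) (continuous_id.update j continuous_const)
  · simp
  · intro ω
    simp

theorem continuous_update_QU1 (j : ℕ) :
    Continuous fun q : W × (ℕ → W) => Function.update q.2 j q.1 :=
  continuous_snd.update j continuous_fst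

theorem ov_insert_QU1 {J : Finset ℕ} {j : ℕ} (hj : j ∉ J) (z : ℕ → V) (ω : ℕ → W) (w : W) :
    ov (insert j J) z (dflt (Function.update ω j w)) =
      ov J (Function.update z j (fun _ => false, w)) (dflt ω) := by
  funext k
  by_cases hk : k = j
  · subst hk
    simp [ov, dflt, hj]
  · simp [ov, dflt, hk]

theorem All_insert {J : Finset ℕ} {j : ℕ} (hj : j ∉ J) {B : Set (ℕ → V)} {z : ℕ → V}
    (h : All (insert j J) B z) :
    ∀ᵇ w : W, All J B (Function.update z j (fun _ => false, w)) := by
  have h1 : ∀ᵇ q : W × (ℕ → W), ov (insert j J) z (dflt (Function.update q.2 j q.1)) ∈ B :=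
    (tendsto_residual_of_isOpenMap (continuous_update_QU1 j) (isOpenMap_update_QU1 j)).eventually h
  have h2 := ku h1
  refine h2.mono fun w hw => ?_
  refine hw.mono fun ω hω => ?_
  rwa [ov_insert_QU1 hj] at hω

theorem measurable_update_QU2 (j : ℕ) :
    Measurable fun q : (ℕ → W) × W => Function.update q.1 j q.2 := by
  refine measurable_pi_lambda _ fun k => ?_
  by_cases hk : k = j
  · subst hk
    simpa using measurable_snd
  · simp only [Function.update_of_ne hk]
    exact (measurable_pi_apply k).comp measurable_fst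

theorem All_of_last {J : Finset ℕ} {j : ℕ} (hj : j ∈ J) {B : Set (ℕ → V)} (hB : MeasurableSet B)
    {z : ℕ → V}
    (h : ∀ ω : ℕ → W, ∀ᵇ w : W, ov J z (dflt (Function.update ω j w)) ∈ B) : All J B z := by
  have _ := hj
  have ho : IsOpenMap fun q : (ℕ → W) × W => Function.update q.1 j q.2 := by
    refine isOpenMap_of_section fun x => ⟨fun ω => (Function.update ω j (x.1 j), ω j), ?_, ?_, ?_⟩
    · exact Continuous.prodMk (continuous_id.update j continuous_const) (continuous_apply j)
    · simp
    · intro ω
      simp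
  have hc : Continuous fun q : (ℕ → W) × W => Function.update q.1 j q.2 :=
    continuous_fst.update j continuous_snd
  have hs : Function.Surjective fun q : (ℕ → W) × W => Function.update q.1 j q.2 := fun ω =>
    ⟨(ω, ω j), by simp⟩
  have hm : MeasurableSet {ω : ℕ → W | ov J z (dflt ω) ∈ B} :=
    (measurable_ov_dflt_right J z) hB
  have hm2 : MeasurableSet {q : (ℕ → W) × W | ov J z (dflt (Function.update q.1 j q.2)) ∈ B} := by
    have : Measurable fun q : (ℕ → W) × W => Function.update q.1 j q.2 := measurable_update_QU2 j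
    exact this hm
  exact of_open_surj hc ho hs hm (ku_conv hm2 (Filter.Eventually.of_forall h))

theorem All_of_two {J : Finset ℕ} {j k : ℕ} (hj : j ∈ J) (hk : k ∈ J) (hjk : j ≠ k)
    {B : Set (ℕ → V)} (hB : MeasurableSet B) {z : ℕ → V}
    (h : ∀ ω : ℕ → W, ∀ᵇ q : W × W,
      ov J z (dflt (Function.update (Function.update ω j q.1) k q.2)) ∈ B) : All J B z := by
  have _ := hj
  have _ := hk
  let f : (ℕ → W) × (W × W) → (ℕ → W) := fun q =>
    Function.update (Function.update q.1 j q.2.1) k q.2.2
  have hc : Continuous f :=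
    (continuous_fst.update j (continuous_fst.comp continuous_snd)).update k
      (continuous_snd.comp continuous_snd)
  have ho : IsOpenMap f := by
    refine isOpenMap_of_section fun x =>
      ⟨fun ω => (Function.update (Function.update ω j (x.1 j)) k (x.1 k), (ω j, ω k)), ?_, ?_, ?_⟩
    · exact Continuous.prodMk ((continuous_id.update j continuous_const).update k continuous_const)
        (Continuous.prodMk (continuous_apply j) (continuous_apply k))
    · obtain ⟨ω, a, b⟩ := x
      refine Prod.ext ?_ (Prod.ext ?_ ?_)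
      · funext l
        by_cases hlk : l = k
        · subst hlk
          simp [f]
        · by_cases hlj : l = j
          · subst hlj
            simp [f, hlk]
          · simp [f, hlk, hlj]
      · simp [f, hjk]
      · simp [f]
    · intro ω
      funext l
      by_cases hlk : l = k
      · subst hlk
        simp [f]
      · by_cases hlj : l = j
        · subst hlj
          simp [f, hlk]
        · simp [f, hlk, hlj]
  have hs : Function.Surjective f := fun ω =>
    ⟨(ω, (ω j, ω k)), by
      funext l
      by_cases hlk : l = k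
      · subst hlk
        simp [f]
      · by_cases hlj : l = j
        · subst hlj
          simp [f, hlk]
        · simp [f, hlk, hlj]⟩
  have hm : MeasurableSet {ω : ℕ → W | ov J z (dflt ω) ∈ B} :=
    (measurable_ov_dflt_right J z) hB
  have hf : Measurable f := by
    have h1 : Measurable fun q : (ℕ → W) × (W × W) => (Function.update q.1 j q.2.1, q.2.2) :=
      Measurable.prodMk
        ((measurable_update_QU2 j).comp
          (Measurable.prodMk measurable_fst (measurable_fst.comp measurable_snd)))
        (measurable_snd.comp measurable_snd)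
    exact (measurable_update_QU2 k).comp h1
  have hm2 : MeasurableSet {q : (ℕ → W) × (W × W) | ov J z (dflt (f q)) ∈ B} := hf hm
  exact of_open_surj hc ho hs hm (ku_conv hm2 (Filter.Eventually.of_forall h))

/-- The tuple of points defined by the block positions `bp` and the point positions `pp`. -/
def tup {n : ℕ} (bp pp : Fin n → ℕ) (z : ℕ → V) : Fin n → Z :=
  fun k => pt (z (bp k)) (z (pp k)).2

/-- Pattern sets. -/
def PB {n : ℕ} (bp pp : Fin n → ℕ) (B : Set (Fin n → Z)) : Set (ℕ → V) :=
  {z | tup bp pp z ∈ B}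

theorem measurableSet_PB {n : ℕ} (bp pp : Fin n → ℕ) {B : Set (Fin n → Z)}
    (hB : MeasurableSet B) : MeasurableSet (PB bp pp B) := by
  have h : Measurable (tup bp pp) := by
    refine measurable_pi_lambda _ fun k => ?_
    exact measurable_pt.comp (Measurable.prodMk (measurable_pi_apply (bp k))
      (measurable_snd.comp (measurable_pi_apply (pp k))))
  exact h hB

theorem CP_point {n : ℕ} {bp pp : Fin n → ℕ} {B : Set (Fin n → Z)} {J : Finset ℕ} {j : ℕ}
    (hj : j ∉ J) (hbp : ∀ k, bp k ≠ j) (N : Nd) {z : ℕ → V}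
    (h : All (insert j J) (PB bp pp B) z) :
    ∀ᵇ w : W, All J (PB bp pp B) (Function.update z j (N, w)) := by
  refine (All_insert hj h).mono fun w hw => ?_
  refine Filter.Eventually.mono hw fun ω hω => ?_
  have he : tup bp pp (ov J (Function.update z j (N, w)) (dflt ω)) =
      tup bp pp (ov J (Function.update z j (fun _ => false, w)) (dflt ω)) := by
    funext k
    have h1 : ov J (Function.update z j (N, w)) (dflt ω) (bp k) =
        ov J (Function.update z j (fun _ => false, w)) (dflt ω) (bp k) := by
      simp [ov, Function.update_of_ne (hbp k)]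
    have h2 : (ov J (Function.update z j (N, w)) (dflt ω) (pp k)).2 =
        (ov J (Function.update z j (fun _ => false, w)) (dflt ω) (pp k)).2 := by
      by_cases hk : pp k = j
      · rw [hk]
        simp [ov, hj]
      · simp [ov, Function.update_of_ne hk]
    simp only [tup, h1, h2]
  show tup bp pp (ov J (Function.update z j (N, w)) (dflt ω)) ∈ B
  rw [he]
  exact hω

/-- The merging map. -/
def mgQU4 (j : ℕ) (J₁ : Finset ℕ) (q : (W × (ℕ → W)) × (ℕ → W)) : ℕ → W :=
  fun l => if l = j then q.1.1 else if l ∈ J₁ then q.1.2 l else q.2 l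

/-- The merging map for two sequences. -/
def mgQU4' (J₁ : Finset ℕ) (q : (ℕ → W) × (ℕ → W)) : ℕ → W :=
  fun l => if l ∈ J₁ then q.1 l else q.2 l

theorem continuous_mgQU4 (j : ℕ) (J₁ : Finset ℕ) : Continuous (mgQU4 j J₁) := by
  refine continuous_pi fun l => ?_
  unfold mgQU4
  by_cases h1 : l = j
  · simp only [h1, if_true]
    exact continuous_fst.comp continuous_fst
  · by_cases h2 : l ∈ J₁
    · simp only [h1, h2, if_true, if_false]
      exact (continuous_apply l).comp (continuous_snd.comp continuous_fst)
    · simp only [h1, h2, if_false]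
      exact (continuous_apply l).comp continuous_snd

theorem isOpenMap_mgQU4 (j : ℕ) (J₁ : Finset ℕ) : IsOpenMap (mgQU4 j J₁) := by
  apply isOpenMap_of_section
  intro q
  refine ⟨fun ω => ((ω j, fun l => if l ∈ J₁ ∧ l ≠ j then ω l else q.1.2 l),
    fun l => if l = j ∨ l ∈ J₁ then q.2 l else ω l), ?_, ?_, ?_⟩
  · have hca : ∀ l : ℕ, Continuous fun ω : ℕ → W => ω l := fun l => continuous_apply l
    refine Continuous.prodMk (Continuous.prodMk (hca j) ?_) ?_
    · refine continuous_pi fun l => ?_
      by_cases h : l ∈ J₁ ∧ l ≠ j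
      · simp only [if_pos h]
        exact hca l
      · simp only [h, if_false]
        exact continuous_const
    · refine continuous_pi fun l => ?_
      by_cases h : l = j ∨ l ∈ J₁
      · simp only [h, if_true]
        exact continuous_const
      · simp only [h, if_false]
        exact continuous_apply l
  · refine Prod.ext (Prod.ext ?_ ?_) ?_
    · simp [mgQU4]
    · funext l
      by_cases h : l ∈ J₁ ∧ l ≠ j
      · simp [mgQU4, h.1, h.2]
      · simp only [h, if_false]
    · funext l
      by_cases h : l = j ∨ l ∈ J₁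
      · simp only [h, if_true]
      · simp only [h, if_false]
        rw [not_or] at h
        simp [mgQU4, h.1, h.2]
  · intro ω
    funext l
    unfold mgQU4
    by_cases h1 : l = j
    · simp [h1]
    · by_cases h2 : l ∈ J₁
      · simp [h1, h2]
      · simp [h1, h2]

theorem continuous_mgQU4' (J₁ : Finset ℕ) : Continuous (mgQU4' J₁) := by
  refine continuous_pi fun l => ?_
  unfold mgQU4'
  by_cases h2 : l ∈ J₁
  · simp only [h2, if_true]
    exact (continuous_apply l).comp continuous_fst
  · simp only [h2, if_false]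
    exact (continuous_apply l).comp continuous_snd

theorem isOpenMap_mgQU4' (J₁ : Finset ℕ) : IsOpenMap (mgQU4' J₁) := by
  apply isOpenMap_of_section
  intro q
  refine ⟨fun ω => (fun l => if l ∈ J₁ then ω l else q.1 l,
    fun l => if l ∈ J₁ then q.2 l else ω l), ?_, ?_, ?_⟩
  · refine Continuous.prodMk ?_ ?_
    · refine continuous_pi fun l => ?_
      by_cases h : l ∈ J₁
      · simp only [h, if_true]
        exact continuous_apply l
      · simp only [h, if_false]
        exact continuous_const
    · refine continuous_pi fun l => ?_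
      by_cases h : l ∈ J₁
      · simp only [h, if_true]
        exact continuous_const
      · simp only [h, if_false]
        exact continuous_apply l
  · refine Prod.ext ?_ ?_
    · funext l
      by_cases h : l ∈ J₁
      · simp [mgQU4', h]
      · simp [h]
    · funext l
      by_cases h : l ∈ J₁
      · simp [h]
      · simp [mgQU4', h]
  · intro ω
    funext l
    unfold mgQU4'
    by_cases h2 : l ∈ J₁
    · simp [h2]
    · simp [h2]

theorem surjective_mgQU4' (J₁ : Finset ℕ) : Function.Surjective (mgQU4' J₁) := by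
  intro ω
  exact ⟨(ω, ω), by funext l; simp [mgQU4']⟩

/-- The tuple with the points of one block replaced. -/
def tupQU4 {n : ℕ} (bp pp : Fin n → ℕ) (J : Finset ℕ) (j : ℕ) (z : ℕ → V)
    (s : (C × (ℕ → C)) × (ℕ → W)) : Fin n → Z := fun k =>
  if bp k = j then (s.1.1, s.1.2 (pp k))
  else pt (ov J z (dflt s.2) (bp k)) (ov J z (dflt s.2) (pp k)).2

theorem measurable_tupQU4 {n : ℕ} (bp pp : Fin n → ℕ) (J : Finset ℕ) (j : ℕ) (z : ℕ → V) :
    Measurable (tupQU4 bp pp J j z) := by
  refine measurable_pi_lambda _ fun k => ?_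
  unfold tupQU4
  by_cases h : bp k = j
  · simp only [h, if_true]
    exact (measurable_fst.comp measurable_fst).prodMk
      ((measurable_pi_apply _).comp (measurable_snd.comp measurable_fst))
  · simp only [h, if_false]
    have h1 : Measurable fun s : (C × (ℕ → C)) × (ℕ → W) => ov J z (dflt s.2) :=
      (measurable_ov_dflt_right J z).comp measurable_snd
    exact measurable_pt.comp (((measurable_pi_apply _).comp h1).prodMk
      (measurable_snd.comp ((measurable_pi_apply _).comp h1)))

theorem CP_block {n : ℕ} {bp pp : Fin n → ℕ} {B : Set (Fin n → Z)} (hB : MeasurableSet B)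
    {J : Finset ℕ} {j : ℕ} (hj : j ∉ J) (hdis : ∀ k l, bp k ≠ pp l)
    (hsame : ∀ k l, pp k = pp l → bp k = bp l) (hex : ∃ k, bp k = j)
    (hJ : ∀ k, bp k = j → pp k ∈ J) {N : Nd} (hN : Good N) {z : ℕ → V}
    (h : All (insert j J) (PB bp pp B) z) :
    ∀ᵇ w : W, All J (PB bp pp B) (Function.update z j (N, w)) := by
  classical
  obtain ⟨k₀, hk₀⟩ := hex
  set J₁ : Finset ℕ := (Finset.univ.filter fun k => bp k = j).image pp with hJ₁def
  have hJ₁ : ∀ l, l ∈ J₁ ↔ ∃ k, bp k = j ∧ pp k = l := by
    intro l
    simp [hJ₁def]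
  have hbJ₁ : ∀ k, bp k ∉ J₁ := by
    intro k hk
    obtain ⟨l, _, h2⟩ := (hJ₁ _).1 hk
    exact hdis k l h2.symm
  have hpj : ∀ k, pp k ≠ j := fun k hk => hdis k₀ k (hk₀.trans hk.symm)
  have hpJ₁ : ∀ k, bp k ≠ j → pp k ∉ J₁ := by
    intro k hk hk'
    obtain ⟨l, h1, h2⟩ := (hJ₁ _).1 hk'
    exact hk ((hsame k l h2.symm).trans h1)
  have hpJ₁' : ∀ k, bp k = j → pp k ∈ J₁ := fun k hk => (hJ₁ _).2 ⟨k, hk, rfl⟩
  set R : Set (C × (ℕ → C)) := {p | ∀ᵇ ω : ℕ → W, (p, ω) ∈ tupQU4 bp pp J j z ⁻¹' B} with hRdef
  have hR : MeasurableSet R := measurableSet_all ((measurable_tupQU4 bp pp J j z) hB)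
  -- step 1
  have h1 : ∀ᵇ q : W × (ℕ → W), (q.1.1, fun l => (q.2 l).1) ∈ R := by
    have h2 : ∀ᵇ q : (W × (ℕ → W)) × (ℕ → W),
        ov (insert j J) z (dflt (mgQU4 j J₁ q)) ∈ PB bp pp B :=
      (tendsto_residual_of_isOpenMap (continuous_mgQU4 j J₁) (isOpenMap_mgQU4 j J₁)).eventually h
    have h3 := ku h2
    filter_upwards [h3] with q hq
    filter_upwards [hq] with ω hω
    have h4 : tup bp pp (ov (insert j J) z (dflt (mgQU4 j J₁ (q, ω)))) =
        tupQU4 bp pp J j z ((q.1.1, fun l => (q.2 l).1), ω) := by
      funext k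
      unfold tup tupQU4
      by_cases hk : bp k = j
      · have e1 : pp k ∈ J := hJ k hk
        have e2 := hpJ₁' k hk
        have e3 := hpj k
        simp [hk, ov, dflt, mgQU4, e1, e2, e3, pt_none]
      · have e2 := hpJ₁ k hk
        have e3 := hpj k
        have e4 := hbJ₁ k
        simp [hk, ov, dflt, mgQU4, e2, e3, e4]
    have h5 : tup bp pp (ov (insert j J) z (dflt (mgQU4 j J₁ (q, ω)))) ∈ B := hω
    rw [h4] at h5
    exact h5
  have h2 : ∀ᵇ q : W × (ℕ → W), KN N q ∈ R := cp0 hN hR h1
  have h3 := ku h2
  filter_upwards [h3] with w hw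
  have hG : MeasurableSet {ω : ℕ → W | ov J (Function.update z j (N, w)) (dflt ω) ∈ PB bp pp B} :=
    (measurable_ov_dflt_right J _) (measurableSet_PB bp pp hB)
  refine of_open_surj (continuous_mgQU4' J₁) (isOpenMap_mgQU4' J₁) (surjective_mgQU4' J₁) hG ?_
  refine ku_conv (B := mgQU4' J₁ ⁻¹' {ω : ℕ → W |
    ov J (Function.update z j (N, w)) (dflt ω) ∈ PB bp pp B})
    ((continuous_mgQU4' J₁).measurable hG) ?_
  filter_upwards [hw] with ω' hω'
  have hω2 : ∀ᵇ ω : ℕ → W, (KN N (w, ω'), ω) ∈ tupQU4 bp pp J j z ⁻¹' B := hω'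
  filter_upwards [hω2] with ω hω
  have h4 : tup bp pp (ov J (Function.update z j (N, w)) (dflt (mgQU4' J₁ (ω', ω)))) =
      tupQU4 bp pp J j z (KN N (w, ω'), ω) := by
    funext k
    unfold tup tupQU4
    by_cases hk : bp k = j
    · have e1 : pp k ∈ J := hJ k hk
      have e2 := hpJ₁' k hk
      simp [hk, ov, dflt, mgQU4', e1, e2, hj, pt, KN]
    · have e2 := hpJ₁ k hk
      have e3 := hpj k
      have e4 := hbJ₁ k
      simp [hk, ov, dflt, mgQU4', e2, e3, e4]
  show tup bp pp (ov J (Function.update z j (N, w)) (dflt (mgQU4' J₁ (ω', ω)))) ∈ B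
  rw [h4]
  exact hω

end Pool.CH
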