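import Pool.Agent.Lib.MP_1c8600_ch.Cat

/-!
# MP_1c8600_lc, CH half: the spaces and the readings
-/

set_option autoImplicit false

open Set Filter Topology TopologicalSpace

namespace Pool.CH

/-- Cantor space. -/
abbrev C := ℕ → Bool

/-- The evaluations of the full tree: a node is true iff all its children are false. The children
of the node `t` are the nodes `i :: t`. -/
abbrev Yt := {y : List ℕ → Bool // ∀ t, y t = true ↔ ∀ i, y (i :: t) = false}

/-- The space of the generic data of one stage: `w.1` is the label of a block / the junk bits of a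
point, `w.2.1` is the reading order of a block, `w.2.2` is the evaluation of a point. -/
abbrev W := C × (ℕ → ℕ) × Yt

/-- Sets of readable nodes. -/
abbrev Nd := List ℕ → Bool

/-- A stage with its set of readable nodes. -/
abbrev V := Nd × W

/-- The points. -/
abbrev Z := C × C

/-- The evaluation extending a finite assignment. -/
noncomputable def yv_SP1 (D : Finset (List ℕ)) (f : List ℕ → Bool) (M : ℕ) : List ℕ → Bool
  | [] => if [] ∈ D then f [] else false
  | i :: t => if yv_SP1 D f M t = true then false
      else if i = M then true else if i :: t ∈ D then f (i :: t) else false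

theorem yv_spec_SP1 (D : Finset (List ℕ)) (f : List ℕ → Bool) (M : ℕ) (t : List ℕ) :
    yv_SP1 D f M t = true ↔ ∀ i, yv_SP1 D f M (i :: t) = false := by
  constructor
  · intro h i
    simp [yv_SP1, h]
  · intro h
    by_contra hc
    have h1 := h M
    simp [yv_SP1, hc] at h1

theorem yv_mem_SP1 (D : Finset (List ℕ)) (f : List ℕ → Bool) (M : ℕ)
    (hM : ∀ t ∈ D, ∀ i ∈ t, i < M)
    (h : ∀ i t, t ∈ D → i :: t ∈ D → ¬ (f t = true ∧ f (i :: t) = true)) (t : List ℕ)
    (ht : t ∈ D) : yv_SP1 D f M t = f t := by
  cases t with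
  | nil => simp [yv_SP1, ht]
  | cons i t =>
    have hi : i < M := hM _ ht i (by simp)
    by_cases h1 : yv_SP1 D f M t = true
    · -- the parent is in `D`
      have h2 : t ∈ D ∧ f t = true := by
        cases t with
        | nil =>
          simp only [yv_SP1] at h1
          split_ifs at h1 with h3
          exact ⟨h3, h1⟩
        | cons j t =>
          have hj : j < M := hM _ ht j (by simp)
          simp only [yv_SP1] at h1
          split_ifs at h1 with h3 h4 h5
          · omega
          · exact ⟨h5, h1⟩
      have h3 : f (i :: t) = false := by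
        by_contra hc
        rw [Bool.not_eq_false] at hc
        exact h i t h2.1 ht ⟨h2.2, hc⟩
      simp only [yv_SP1]
      rw [if_pos h1, h3]
    · simp only [yv_SP1]
      rw [if_neg h1, if_neg (by omega), if_pos ht]

/-- Realizability of a consistent finite assignment. -/
theorem exists_Yt (D : Finset (List ℕ)) (f : List ℕ → Bool)
    (h : ∀ i t, t ∈ D → i :: t ∈ D → ¬ (f t = true ∧ f (i :: t) = true)) :
    ∃ y : Yt, ∀ t ∈ D, y.1 t = f t := by
  obtain ⟨M, hM⟩ : ∃ M : ℕ, ∀ t ∈ D, ∀ i ∈ t, i < M := by
    refine ⟨D.sup (fun t => t.sum) + 1, fun t ht i hi => ?_⟩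
    have h1 : i ≤ t.sum := List.single_le_sum (by simp) _ hi
    have h2 : t.sum ≤ D.sup (fun t => t.sum) := Finset.le_sup (f := fun t : List ℕ => t.sum) ht
    omega
  exact ⟨⟨yv_SP1 D f M, yv_spec_SP1 D f M⟩, yv_mem_SP1 D f M hM h⟩

instance : Nonempty Yt := ⟨(exists_Yt ∅ (fun _ => false) (by simp)).choose⟩

/-- Products of Polish spaces (the instances of Mathlib are not always found). -/
instance instPolishPi_SP2 {ι : Type*} [Countable ι] {X : ι → Type*} [∀ i, TopologicalSpace (X i)]
    [∀ i, PolishSpace (X i)] : PolishSpace (∀ i, X i) where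
  toSecondCountableTopology := inferInstance
  toIsCompletelyMetrizableSpace := inferInstance

instance instPolishProd_SP2 {X Y : Type*} [TopologicalSpace X] [TopologicalSpace Y]
    [PolishSpace X] [PolishSpace Y] : PolishSpace (X × Y) where
  toSecondCountableTopology := inferInstance
  toIsCompletelyMetrizableSpace := inferInstance

/-- the least true child -/
private noncomputable def least_SP2 (y : List ℕ → Bool) (t : List ℕ) : ℕ :=
  sInf {i | y (i :: t) = true}

private lemma least_eq_SP2 {y : List ℕ → Bool} {t : List ℕ} {n : ℕ} (h1 : y (n :: t) = true)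
    (h2 : ∀ j < n, y (j :: t) = false) : least_SP2 y t = n := by
  apply le_antisymm
  · exact Nat.sInf_le h1
  · by_contra h
    push Not at h
    have h3 : least_SP2 y t ∈ {i | y (i :: t) = true} := Nat.sInf_mem ⟨n, h1⟩
    have h4 := h2 _ h
    have h5 : y (least_SP2 y t :: t) = true := h3
    rw [h4] at h5
    exact absurd h5 (by simp)

private lemma least_zero_SP2 {y : List ℕ → Bool} {t : List ℕ} (h : ∀ i, y (i :: t) = false) :
    least_SP2 y t = 0 := by
  have : {i | y (i :: t) = true} = ∅ := by
    ext i
    simp [h i]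
  unfold least_SP2
  rw [this, Nat.sInf_empty]

private lemma exists_least_SP2 {y : List ℕ → Bool} {t : List ℕ} (h : ∃ i, y (i :: t) = true) :
    y (least_SP2 y t :: t) = true ∧ ∀ j < least_SP2 y t, y (j :: t) = false := by
  refine ⟨Nat.sInf_mem (s := {i | y (i :: t) = true}) h, fun j hj => ?_⟩
  have := Nat.notMem_of_lt_sInf (s := {i | y (i :: t) = true}) hj
  simpa using this

private noncomputable def emb_SP2 (y : Yt) : (List ℕ → Bool) × (List ℕ → ℕ) :=
  (y.1, least_SP2 y.1)

private lemma continuous_coord_SP2 (s : List ℕ) : Continuous fun y : Yt => y.1 s :=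
  (continuous_apply s).comp continuous_subtype_val

private lemma continuous_emb_SP2 : Continuous emb_SP2 := by
  refine Continuous.prodMk continuous_subtype_val ?_
  refine continuous_pi fun t => ?_
  rw [continuous_iff_continuousAt]
  intro y
  rw [ContinuousAt, nhds_discrete ℕ, tendsto_pure]
  by_cases h : y.1 t = true
  · have h1 : {z : Yt | z.1 t = true} ∈ 𝓝 y :=
      (isOpen_discrete {true}).preimage (continuous_coord_SP2 t) |>.mem_nhds h
    filter_upwards [h1] with z hz
    have hz' : z.1 t = true := hz
    rw [least_zero_SP2 ((z.2 t).1 hz'), least_zero_SP2 ((y.2 t).1 h)]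
  · have hex : ∃ i, y.1 (i :: t) = true := by
      by_contra hc
      push Not at hc
      exact h ((y.2 t).2 fun i => by simpa using hc i)
    obtain ⟨h1, h2⟩ := exists_least_SP2 hex
    have h3 : {z : Yt | z.1 (least_SP2 y.1 t :: t) = true} ∈ 𝓝 y :=
      (isOpen_discrete {true}).preimage (continuous_coord_SP2 _) |>.mem_nhds h1
    have h4 : (⋂ j ∈ Finset.range (least_SP2 y.1 t), {z : Yt | z.1 (j :: t) = false}) ∈ 𝓝 y := by
      rw [Filter.biInter_finset_mem]
      intro j hj
      exact (isOpen_discrete {false}).preimage (continuous_coord_SP2 _) |>.mem_nhds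
        (h2 j (Finset.mem_range.1 hj))
    filter_upwards [h3, h4] with z hz3 hz4
    refine least_eq_SP2 hz3 fun j hj => ?_
    have := Set.mem_iInter₂.1 hz4 j (Finset.mem_range.2 hj)
    exact this

private lemma isClosed_cond_SP2 (s1 s2 s3 t : List ℕ)
    (P : Bool → Bool → Bool → ℕ → Prop) :
    IsClosed {q : (List ℕ → Bool) × (List ℕ → ℕ) | P (q.1 s1) (q.1 s2) (q.1 s3) (q.2 t)} := by
  have hc : Continuous fun q : (List ℕ → Bool) × (List ℕ → ℕ) =>
      (q.1 s1, q.1 s2, q.1 s3, q.2 t) := by
    fun_prop
  exact (isClosed_discrete {p : Bool × Bool × Bool × ℕ | P p.1 p.2.1 p.2.2.1 p.2.2.2}).preimage hc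

private lemma range_emb_SP2 : range emb_SP2 =
    (⋂ t : List ℕ, ⋂ i : ℕ, {q : (List ℕ → Bool) × (List ℕ → ℕ) |
      q.1 t = true → q.1 (i :: t) = false}) ∩
    (⋂ t : List ℕ, {q : (List ℕ → Bool) × (List ℕ → ℕ) | q.1 t = true → q.2 t = 0}) ∩
    (⋂ t : List ℕ, ⋂ n : ℕ, {q : (List ℕ → Bool) × (List ℕ → ℕ) |
      q.1 t = false → q.2 t = n → q.1 (n :: t) = true}) ∩
    (⋂ t : List ℕ, ⋂ n : ℕ, ⋂ j : ℕ, {q : (List ℕ → Bool) × (List ℕ → ℕ) |
      q.1 t = false → q.2 t = n → j < n → q.1 (j :: t) = false}) := by
  ext q
  constructor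
  · rintro ⟨y, rfl⟩
    have hex : ∀ t, y.1 t = false → ∃ i, y.1 (i :: t) = true := by
      intro t ht
      by_contra hc
      push Not at hc
      have := (y.2 t).2 fun i => by simpa using hc i
      rw [ht] at this
      exact absurd this (by simp)
    refine ⟨⟨⟨?_, ?_⟩, ?_⟩, ?_⟩
    · simp only [mem_iInter]
      intro t i ht
      exact (y.2 t).1 ht i
    · simp only [mem_iInter]
      intro t ht
      exact least_zero_SP2 ((y.2 t).1 ht)
    · simp only [mem_iInter]
      intro t n ht hn
      have := (exists_least_SP2 (hex t ht)).1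
      have hn' : least_SP2 y.1 t = n := hn
      rwa [hn'] at this
    · simp only [mem_iInter]
      intro t n j ht hn hj
      have := (exists_least_SP2 (hex t ht)).2
      have hn' : least_SP2 y.1 t = n := hn
      rw [hn'] at this
      exact this j hj
  · rintro ⟨⟨⟨h1, h2⟩, h3⟩, h4⟩
    simp only [mem_iInter] at h1 h2 h3 h4
    have hy : ∀ t, q.1 t = true ↔ ∀ i, q.1 (i :: t) = false := by
      intro t
      constructor
      · intro ht i
        exact h1 t i ht
      · intro h
        by_contra hc
        have hc' : q.1 t = false := by simpa using hc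
        have h5 := h3 t (q.2 t) hc' rfl
        rw [h (q.2 t)] at h5
        exact absurd h5 (by simp)
    refine ⟨⟨q.1, hy⟩, ?_⟩
    refine Prod.ext rfl ?_
    funext t
    change least_SP2 q.1 t = q.2 t
    by_cases ht : q.1 t = true
    · rw [least_zero_SP2 (fun i => h1 t i ht)]
      exact (h2 t ht).symm
    · have ht' : q.1 t = false := by simpa using ht
      exact least_eq_SP2 (h3 t (q.2 t) ht' rfl) (fun j hj => h4 t (q.2 t) j ht' rfl hj)

private lemma isClosed_range_SP2 : IsClosed (range emb_SP2) := by
  rw [range_emb_SP2]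
  refine IsClosed.inter (IsClosed.inter (IsClosed.inter ?_ ?_) ?_) ?_
  · exact isClosed_iInter fun t => isClosed_iInter fun i =>
      isClosed_cond_SP2 t (i :: t) t t fun a b _ _ => a = true → b = false
  · exact isClosed_iInter fun t =>
      isClosed_cond_SP2 t t t t fun a _ _ m => a = true → m = 0
  · exact isClosed_iInter fun t => isClosed_iInter fun n =>
      isClosed_cond_SP2 t (n :: t) t t fun a b _ m => a = false → m = n → b = true
  · exact isClosed_iInter fun t => isClosed_iInter fun n => isClosed_iInter fun j =>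
      isClosed_cond_SP2 t (j :: t) t t fun a b _ m => a = false → m = n → j < n → b = false

private lemma isClosedEmbedding_SP2 : IsClosedEmbedding emb_SP2 :=
  ⟨IsEmbedding.of_comp continuous_emb_SP2 continuous_fst
    (by exact IsEmbedding.subtypeVal), isClosed_range_SP2⟩

instance : PolishSpace Yt := isClosedEmbedding_SP2.polishSpace

/-! ### Concrete instances (the general search fails for some of the larger products) -/

instance (priority := 3000) polBool : PolishSpace Bool :=
  { toSecondCountableTopology := inferInstance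
    toIsCompletelyMetrizableSpace := inferInstance }

instance (priority := 3000) polNN : PolishSpace (ℕ → ℕ) := polPi ℕ

instance (priority := 3000) borNN : BorelSpace (ℕ → ℕ) := borPi ℕ

instance (priority := 3000) polC : PolishSpace C := polPi Bool

instance (priority := 3000) borC : BorelSpace C := borPi Bool

instance (priority := 3000) secC : SecondCountableTopology C :=
  polC.toSecondCountableTopology

instance (priority := 3000) baireC : BaireSpace C := baireOfPolish C

instance (priority := 3000) polPYt : PolishSpace ((ℕ → ℕ) × Yt) := polProd (ℕ → ℕ) Yt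

instance (priority := 3000) borPYt : BorelSpace ((ℕ → ℕ) × Yt) := borProd (ℕ → ℕ) Yt

instance (priority := 3000) secPYt : SecondCountableTopology ((ℕ → ℕ) × Yt) :=
  polPYt.toSecondCountableTopology

instance (priority := 3000) bairePYt : BaireSpace ((ℕ → ℕ) × Yt) := baireOfPolish ((ℕ → ℕ) × Yt)

instance (priority := 3000) polW : PolishSpace W := polProd C ((ℕ → ℕ) × Yt)

instance (priority := 3000) borW : BorelSpace W := borProd C ((ℕ → ℕ) × Yt)

instance (priority := 3000) secW : SecondCountableTopology W :=
  polW.toSecondCountableTopology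

instance (priority := 3000) baireW : BaireSpace W := baireOfPolish W

instance (priority := 3000) polNW : PolishSpace (ℕ → W) := polPi W

instance (priority := 3000) borNW : BorelSpace (ℕ → W) := borPi W

instance (priority := 3000) secNW : SecondCountableTopology (ℕ → W) :=
  polNW.toSecondCountableTopology

instance (priority := 3000) baireNW : BaireSpace (ℕ → W) := baireOfPolish (ℕ → W)

instance (priority := 3000) polNC : PolishSpace (ℕ → C) := polPi C

instance (priority := 3000) borNC : BorelSpace (ℕ → C) := borPi C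

instance (priority := 3000) secNC : SecondCountableTopology (ℕ → C) :=
  polNC.toSecondCountableTopology

instance (priority := 3000) baireNC : BaireSpace (ℕ → C) := baireOfPolish (ℕ → C)

instance (priority := 3000) polWNW : PolishSpace (W × (ℕ → W)) := polProd W (ℕ → W)

instance (priority := 3000) borWNW : BorelSpace (W × (ℕ → W)) := borProd W (ℕ → W)

instance (priority := 3000) secWNW : SecondCountableTopology (W × (ℕ → W)) :=
  polWNW.toSecondCountableTopology

instance (priority := 3000) baireWNW : BaireSpace (W × (ℕ → W)) := baireOfPolish (W × (ℕ → W))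

instance (priority := 3000) polCNC : PolishSpace (C × (ℕ → C)) := polProd C (ℕ → C)

instance (priority := 3000) borCNC : BorelSpace (C × (ℕ → C)) := borProd C (ℕ → C)

instance (priority := 3000) secCNC : SecondCountableTopology (C × (ℕ → C)) :=
  polCNC.toSecondCountableTopology

instance (priority := 3000) baireCNC : BaireSpace (C × (ℕ → C)) := baireOfPolish (C × (ℕ → C))

instance (priority := 3000) polWNWNW : PolishSpace ((W × (ℕ → W)) × (ℕ → W)) := polProd (W × (ℕ → W)) (ℕ → W)

instance (priority := 3000) borWNWNW : BorelSpace ((W × (ℕ → W)) × (ℕ → W)) := borProd (W × (ℕ → W)) (ℕ → W)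

instance (priority := 3000) secWNWNW : SecondCountableTopology ((W × (ℕ → W)) × (ℕ → W)) :=
  polWNWNW.toSecondCountableTopology

instance (priority := 3000) baireWNWNW : BaireSpace ((W × (ℕ → W)) × (ℕ → W)) := baireOfPolish ((W × (ℕ → W)) × (ℕ → W))

instance (priority := 3000) polNWNW : PolishSpace ((ℕ → W) × (ℕ → W)) := polProd (ℕ → W) (ℕ → W)

instance (priority := 3000) borNWNW : BorelSpace ((ℕ → W) × (ℕ → W)) := borProd (ℕ → W) (ℕ → W)

instance (priority := 3000) secNWNW : SecondCountableTopology ((ℕ → W) × (ℕ → W)) :=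
  polNWNW.toSecondCountableTopology

instance (priority := 3000) baireNWNW : BaireSpace ((ℕ → W) × (ℕ → W)) := baireOfPolish ((ℕ → W) × (ℕ → W))

instance (priority := 3000) polNWW : PolishSpace ((ℕ → W) × W) := polProd (ℕ → W) W

instance (priority := 3000) borNWW : BorelSpace ((ℕ → W) × W) := borProd (ℕ → W) W

instance (priority := 3000) secNWW : SecondCountableTopology ((ℕ → W) × W) :=
  polNWW.toSecondCountableTopology

instance (priority := 3000) baireNWW : BaireSpace ((ℕ → W) × W) := baireOfPolish ((ℕ → W) × W)

instance (priority := 3000) polWW : PolishSpace (W × W) := polProd W W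

instance (priority := 3000) borWW : BorelSpace (W × W) := borProd W W

instance (priority := 3000) secWW : SecondCountableTopology (W × W) :=
  polWW.toSecondCountableTopology

instance (priority := 3000) baireWW : BaireSpace (W × W) := baireOfPolish (W × W)

instance (priority := 3000) polNWWW : PolishSpace ((ℕ → W) × (W × W)) := polProd (ℕ → W) (W × W)

instance (priority := 3000) borNWWW : BorelSpace ((ℕ → W) × (W × W)) := borProd (ℕ → W) (W × W)

instance (priority := 3000) secNWWW : SecondCountableTopology ((ℕ → W) × (W × W)) :=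
  polNWWW.toSecondCountableTopology

instance (priority := 3000) baireNWWW : BaireSpace ((ℕ → W) × (W × W)) := baireOfPolish ((ℕ → W) × (W × W))

instance (priority := 3000) polCYt : PolishSpace (C × Yt) := polProd C Yt

instance (priority := 3000) borCYt : BorelSpace (C × Yt) := borProd C Yt

instance (priority := 3000) secCYt : SecondCountableTopology (C × Yt) :=
  polCYt.toSecondCountableTopology

instance (priority := 3000) baireCYt : BaireSpace (C × Yt) := baireOfPolish (C × Yt)

instance (priority := 3000) polZ : PolishSpace Z := polProd C C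

instance (priority := 3000) borZ : BorelSpace Z := borProd C C

instance (priority := 3000) secZ : SecondCountableTopology Z :=
  polZ.toSecondCountableTopology

instance (priority := 3000) baireZ : BaireSpace Z := baireOfPolish Z

instance (priority := 3000) polCNCNW : PolishSpace ((C × (ℕ → C)) × (ℕ → W)) := polProd (C × (ℕ → C)) (ℕ → W)

instance (priority := 3000) borCNCNW : BorelSpace ((C × (ℕ → C)) × (ℕ → W)) := borProd (C × (ℕ → C)) (ℕ → W)

instance (priority := 3000) secCNCNW : SecondCountableTopology ((C × (ℕ → C)) × (ℕ → W)) :=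
  polCNCNW.toSecondCountableTopology

instance (priority := 3000) baireCNCNW : BaireSpace ((C × (ℕ → C)) × (ℕ → W)) := baireOfPolish ((C × (ℕ → C)) × (ℕ → W))

/-- The node which is read by the block `b` at the place `n`. -/
def nd (b : W) (n : ℕ) : List ℕ := Denumerable.ofNat (List ℕ) (b.2.1 n)

/-- The block `b` with readable nodes `N` reads the point `w`: at place `n` we read the value at
the node `nd b n` if this node is readable and was not read before, and a junk bit otherwise. -/
def rd (N : Nd) (b w : W) : C := fun n =>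
  if N (nd b n) = true ∧ ∀ j < n, nd b j ≠ nd b n then w.2.2.1 (nd b n) else w.1 n

/-- The point of `Z` defined by the block `v` and the point data `w`. -/
def pt (v : V) (w : W) : Z := (v.2.1, rd v.1 v.2 w)

/-- No readable node is a child of a readable node. -/
def Good (N : Nd) : Prop := ∀ i t, N (i :: t) = true → N t = false

/-- The default element of `V`. -/
noncomputable def v0 : V := Classical.arbitrary V

lemma rd_none (b w : W) : rd (fun _ => false) b w = w.1 := by
  funext n
  simp [rd]

lemma pt_none (b w : W) : pt (fun _ => false, b) w = (b.1, w.1) := by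
  simp [pt, rd_none]

theorem exists_rd {N : Nd} (hN : Good N) (b : W) (a : C) (n : ℕ) :
    ∃ w : W, ∀ k < n, rd N b w k = a k := by
  classical
  let f : List ℕ → Bool := fun t => if h : ∃ k, nd b k = t then a (Nat.find h) else false
  let D : Finset (List ℕ) :=
    ((Finset.range n).filter fun k => N (nd b k) = true).image (nd b)
  have hDN : ∀ t ∈ D, N t = true := by
    intro t ht
    obtain ⟨k, hk, rfl⟩ := Finset.mem_image.mp ht
    exact (Finset.mem_filter.mp hk).2
  obtain ⟨y, hy⟩ := exists_Yt D f (by
    intro i t ht hit _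
    have h1 := hN i t (hDN _ hit)
    rw [hDN t ht] at h1
    exact Bool.noConfusion h1)
  refine ⟨(a, fun _ => 0, y), fun k hk => ?_⟩
  unfold rd
  split_ifs with h
  · obtain ⟨hNk, hfr⟩ := h
    have hkD : nd b k ∈ D := Finset.mem_image.mpr
      ⟨k, Finset.mem_filter.mpr ⟨Finset.mem_range.mpr hk, hNk⟩, rfl⟩
    have h1 : y.1 (nd b k) = f (nd b k) := hy _ hkD
    change y.1 (nd b k) = a k
    rw [h1]
    have h2 : ∃ j, nd b j = nd b k := ⟨k, rfl⟩
    have h3 : Nat.find h2 = k := by
      rw [Nat.find_eq_iff]
      exact ⟨rfl, fun j hj => hfr j hj⟩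
    change (if h : ∃ j, nd b j = nd b k then a (Nat.find h) else false) = a k
    rw [dif_pos h2, h3]
  · rfl

/-- continuity by cases over a locally constant function -/
private theorem cases_SP4 {X D E : Type} [TopologicalSpace X] [TopologicalSpace D]
    [DiscreteTopology D] [TopologicalSpace E] {m : X → D} (hm : Continuous m) {F : D → X → E}
    (hF : ∀ d, Continuous (F d)) : Continuous fun x => F (m x) x := by
  rw [continuous_iff_continuousAt]
  intro x0
  have h1 : ∀ᶠ x in 𝓝 x0, m x = m x0 := by
    have h2 : m ⁻¹' {m x0} ∈ 𝓝 x0 :=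
      (isOpen_discrete {m x0}).preimage hm |>.mem_nhds rfl
    exact h2
  refine (hF (m x0)).continuousAt.congr ?_
  filter_upwards [h1] with x hx
  rw [hx]

theorem continuous_rd2 (N : Nd) : Continuous fun q : W × W => rd N q.1 q.2 := by
  refine continuous_pi fun n => ?_
  classical
  let m : W × W → (Fin (n + 1) → ℕ) := fun q j => q.1.2.1 j
  have hm : Continuous m := continuous_pi fun j =>
    (continuous_apply (j : ℕ)).comp (continuous_fst.comp (continuous_snd.comp continuous_fst))
  let F : (Fin (n + 1) → ℕ) → W × W → Bool := fun d q =>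
    if N (Denumerable.ofNat (List ℕ) (d (Fin.last n))) = true ∧
      ∀ j : Fin n, (Denumerable.ofNat (List ℕ) (d j.castSucc) : List ℕ) ≠
        Denumerable.ofNat (List ℕ) (d (Fin.last n))
    then q.2.2.2.1 (Denumerable.ofNat (List ℕ) (d (Fin.last n))) else q.2.1 n
  have hF : ∀ d, Continuous (F d) := by
    intro d
    simp only [F]
    split_ifs
    · exact (continuous_apply _).comp (continuous_subtype_val.comp
        (continuous_snd.comp (continuous_snd.comp continuous_snd)))
    · exact (continuous_apply n).comp (continuous_fst.comp continuous_snd)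
  have e : (fun q : W × W => rd N q.1 q.2 n) = fun q => F (m q) q := by
    funext q
    simp only [F, m, rd, nd, Fin.val_last]
    refine if_congr (and_congr Iff.rfl ?_) rfl rfl
    constructor
    · intro h j
      exact h j j.2
    · intro h j hj
      exact h ⟨j, hj⟩
  rw [e]
  exact cases_SP4 hm hF

theorem continuous_rd (N : Nd) (b : W) : Continuous (rd N b) :=
  (continuous_rd2 N).comp (Continuous.prodMk continuous_const continuous_id)

theorem continuous_pt (v : V) : Continuous (pt v) :=
  Continuous.prodMk continuous_const (continuous_rd v.1 v.2)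

theorem measurable_pt : Measurable fun q : V × W => pt q.1 q.2 := by
  refine Measurable.prodMk ?_ ?_
  · exact measurable_fst.comp (measurable_snd.comp measurable_fst)
  refine measurable_pi_iff.mpr fun n => ?_
  classical
  let m : V × W → (Fin (n + 1) → ℕ) := fun q j => q.1.2.2.1 j
  have hm : Measurable m := measurable_pi_iff.mpr fun j =>
    (measurable_pi_apply (j : ℕ)).comp (measurable_fst.comp (measurable_snd.comp
      (measurable_snd.comp measurable_fst)))
  let F : (Fin (n + 1) → ℕ) → V × W → Bool := fun d q =>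
    if q.1.1 (Denumerable.ofNat (List ℕ) (d (Fin.last n))) = true ∧
      ∀ j : Fin n, (Denumerable.ofNat (List ℕ) (d j.castSucc) : List ℕ) ≠
        Denumerable.ofNat (List ℕ) (d (Fin.last n))
    then q.2.2.2.1 (Denumerable.ofNat (List ℕ) (d (Fin.last n))) else q.2.1 n
  have hF : ∀ d, Measurable (F d) := by
    intro d
    refine Measurable.ite ?_ ?_ ?_
    · refine MeasurableSet.inter ?_ (MeasurableSet.const _)
      have h1 : Measurable fun q : V × W =>
          q.1.1 (Denumerable.ofNat (List ℕ) (d (Fin.last n))) :=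
        (measurable_pi_apply _).comp (measurable_fst.comp measurable_fst)
      exact h1 (MeasurableSet.singleton true)
    · exact (measurable_pi_apply _).comp (measurable_subtype_coe.comp
        (measurable_snd.comp (measurable_snd.comp measurable_snd)))
    · exact (measurable_pi_apply n).comp (measurable_fst.comp measurable_snd)
  have e : (fun q : V × W => (pt q.1 q.2).2 n) = fun q => F (m q) q := by
    funext q
    simp only [F, m, pt, rd, nd, Fin.val_last]
    refine if_congr (and_congr Iff.rfl ?_) rfl rfl
    constructor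
    · intro h j
      exact h j j.2
    · intro h j hj
      exact h ⟨j, hj⟩
  change Measurable (fun q : V × W => (pt q.1 q.2).2 n)
  rw [e]
  have h2 : Measurable (fun x : (Fin (n + 1) → ℕ) × (V × W) => F x.1 x.2) :=
    measurable_from_prod_countable_right fun d => hF d
  exact h2.comp (hm.prodMk measurable_id)

theorem exists_rd_mem {N : Nd} (hN : Good N) (b : W) {O : Set C} (hO : IsOpen O)
    (hne : O.Nonempty) : ∃ w : W, rd N b w ∈ O := by
  obtain ⟨a, ha⟩ := hne
  obtain ⟨I, u, hu, hIO⟩ := isOpen_pi_iff.mp hO a ha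
  obtain ⟨w, hw⟩ := exists_rd hN b a (I.sup id + 1)
  refine ⟨w, hIO ?_⟩
  intro k hk
  have h1 : k < I.sup id + 1 := Nat.lt_succ_of_le (Finset.le_sup (f := id) hk)
  rw [hw k h1]
  exact (hu k hk).2

/-- A block and its (infinitely many) points. -/
def KN (N : Nd) (q : W × (ℕ → W)) : C × (ℕ → C) := (q.1.1, fun l => rd N q.1 (q.2 l))

theorem continuous_KN (N : Nd) : Continuous (KN N) := by
  refine Continuous.prodMk (continuous_fst.comp continuous_fst) (continuous_pi fun l => ?_)
  exact (continuous_rd2 N).comp
    (Continuous.prodMk continuous_fst ((continuous_apply l).comp continuous_snd))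

/-- The data with changed junk, label and reading order. -/
def fSP6 (b : W) (ω : ℕ → W) (q : (C × (ℕ → ℕ)) × (ℕ → C)) : W × (ℕ → W) :=
  ((q.1.1, q.1.2, b.2.2), fun l => (q.2 l, (ω l).2))

theorem continuous_fSP6 (b : W) (ω : ℕ → W) : Continuous (fSP6 b ω) := by
  unfold fSP6
  refine Continuous.prodMk ?_ ?_
  · exact (continuous_fst.comp continuous_fst).prodMk
      ((continuous_snd.comp continuous_fst).prodMk continuous_const)
  · refine continuous_pi fun l => ?_
    exact Continuous.prodMk ((continuous_apply l).comp continuous_snd) continuous_const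

/-- A neighbourhood in a countable product of discrete spaces. -/
theorem cyl_SP6 {α : Type} [TopologicalSpace α] [DiscreteTopology α] {U : Set (ℕ → α)} {x : ℕ → α}
    (hU : U ∈ 𝓝 x) : ∃ n, ∀ y : ℕ → α, (∀ k < n, y k = x k) → y ∈ U := by
  rw [nhds_pi, Filter.mem_pi] at hU
  obtain ⟨I, hI, t, ht, hsub⟩ := hU
  obtain ⟨n, hn⟩ := hI.bddAbove
  refine ⟨n + 1, fun y hy => hsub fun i hi => ?_⟩
  rw [hy i (Nat.lt_succ_of_le (hn hi))]
  exact mem_of_mem_nhds (ht i)

theorem cyl2_SP6 {U : Set (ℕ → C)} {x : ℕ → C} (hU : U ∈ 𝓝 x) :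
    ∃ n, ∀ y : ℕ → C, (∀ l < n, ∀ k < n, y l k = x l k) → y ∈ U := by
  rw [nhds_pi, Filter.mem_pi] at hU
  obtain ⟨I, hI, t, ht, hsub⟩ := hU
  obtain ⟨n, hn⟩ := hI.bddAbove
  choose m hm using fun i => cyl_SP6 (ht i)
  refine ⟨max (n + 1) ((Finset.range (n + 1)).sup m), fun y hy => hsub fun i hi => hm i _ ?_⟩
  intro k hk
  have h1 : i < n + 1 := Nat.lt_succ_of_le (hn hi)
  refine hy i (lt_of_lt_of_le h1 (le_max_left _ _)) k (lt_of_lt_of_le hk ?_)
  exact le_trans (Finset.le_sup (f := m) (Finset.mem_range.2 h1)) (le_max_right _ _)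

theorem isOpen_cyl_SP6 (b : C) (ζ : ℕ → C) (n : ℕ) :
    IsOpen {p : C × (ℕ → C) | (∀ k < n, p.1 k = b k) ∧ ∀ l < n, ∀ k < n, p.2 l k = ζ l k} := by
  have h1 : ∀ k, IsOpen {p : C × (ℕ → C) | p.1 k = b k} := by
    intro k
    have : Continuous fun p : C × (ℕ → C) => p.1 k := (continuous_apply k).comp continuous_fst
    exact (isOpen_discrete {b k}).preimage this
  have h2 : ∀ l k, IsOpen {p : C × (ℕ → C) | p.2 l k = ζ l k} := by
    intro l k
    have : Continuous fun p : C × (ℕ → C) => p.2 l k :=
      (continuous_apply k).comp ((continuous_apply l).comp continuous_snd)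
    exact (isOpen_discrete {ζ l k}).preimage this
  have e : {p : C × (ℕ → C) | (∀ k < n, p.1 k = b k) ∧ ∀ l < n, ∀ k < n, p.2 l k = ζ l k} =
      (⋂ k ∈ Finset.range n, {p : C × (ℕ → C) | p.1 k = b k}) ∩
        ⋂ l ∈ Finset.range n, ⋂ k ∈ Finset.range n, {p : C × (ℕ → C) | p.2 l k = ζ l k} := by
    ext p
    simp
  rw [e]
  exact (isOpen_biInter_finset fun k _ => h1 k).inter
    (isOpen_biInter_finset fun l _ => isOpen_biInter_finset fun k _ => h2 l k)

/-- The image of a nonempty open set under `KN` has nonempty interior. -/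
theorem KN_somewhere {N : Nd} (hN : Good N) (U : Set (W × (ℕ → W))) (hU : IsOpen U)
    (hne : U.Nonempty) : (interior (KN N '' U)).Nonempty := by
  classical
  obtain ⟨⟨b, ω⟩, hq⟩ := hne
  -- a box inside U
  have h1 : U ∈ 𝓝 (b, ω) := hU.mem_nhds hq
  rw [nhds_prod_eq, Filter.mem_prod_iff] at h1
  obtain ⟨U₁, hU₁, U₂, hU₂, hsub⟩ := h1
  rw [nhds_pi, Filter.mem_pi] at hU₂
  obtain ⟨I, hI, t, ht, hsub2⟩ := hU₂
  obtain ⟨L, hL⟩ := hI.bddAbove
  -- cylinders
  have h2 : ∃ n, ∀ c' p', (∀ k < n, c' k = b.1 k) → (∀ k < n, p' k = b.2.1 k) →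
      ((c', p', b.2.2) : W) ∈ U₁ := by
    have hc : Continuous fun q : C × (ℕ → ℕ) => ((q.1, q.2, b.2.2) : W) :=
      continuous_fst.prodMk (continuous_snd.prodMk continuous_const)
    have h3 : (fun q : C × (ℕ → ℕ) => ((q.1, q.2, b.2.2) : W)) ⁻¹' U₁ ∈ 𝓝 (b.1, b.2.1) :=
      hc.continuousAt.preimage_mem_nhds hU₁
    rw [nhds_prod_eq, Filter.mem_prod_iff] at h3
    obtain ⟨A, hA, A', hA', hs⟩ := h3
    obtain ⟨n, hn⟩ := cyl_SP6 hA
    obtain ⟨n', hn'⟩ := cyl_SP6 hA'
    refine ⟨max n n', fun c' p' h h' => hs (Set.mk_mem_prod (hn c' fun k hk => ?_)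
      (hn' p' fun k hk => ?_))⟩
    · exact h k (lt_of_lt_of_le hk (le_max_left _ _))
    · exact h' k (lt_of_lt_of_le hk (le_max_right _ _))
  have h3 : ∀ l, ∃ n, ∀ u : C, (∀ k < n, u k = (ω l).1 k) → ((u, (ω l).2) : W) ∈ t l := by
    intro l
    have hc : Continuous fun u : C => ((u, (ω l).2) : W) := continuous_id.prodMk continuous_const
    have h4 : (fun u : C => ((u, (ω l).2) : W)) ⁻¹' t l ∈ 𝓝 (ω l).1 :=
      hc.continuousAt.preimage_mem_nhds (ht l)
    exact cyl_SP6 h4
  obtain ⟨n₁, hn₁⟩ := h2
  choose m hm using h3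
  set n : ℕ := max (max n₁ (L + 1)) ((Finset.range (L + 1)).sup m) + 1 with hndef
  have hn1 : n₁ ≤ n := by omega
  have hnL : L + 1 ≤ n := by omega
  have hnm : ∀ l, l ≤ L → m l ≤ n := by
    intro l hl
    have h5 : m l ≤ (Finset.range (L + 1)).sup m :=
      Finset.le_sup (f := m) (Finset.mem_range.2 (by omega))
    omega
  have hnpos : 0 < n := by omega
  -- the open set
  refine ⟨(b.1, fun l => rd N b (ω l)), mem_interior.2 ⟨{p : C × (ℕ → C) |
    (∀ k < n, p.1 k = b.1 k) ∧ ∀ l < n, ∀ k < n, p.2 l k = rd N b (ω l) k}, ?_,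
    isOpen_cyl_SP6 _ _ n, ⟨fun _ _ => rfl, fun _ _ _ _ => rfl⟩⟩⟩
  rintro ⟨c, ζ⟩ ⟨hc, hζ⟩
  simp only at hc hζ
  -- the block
  set b' : W := (c, fun k => if k < n then b.2.1 k else b.2.1 0, b.2.2) with hb'
  have hndlt : ∀ k < n, nd b' k = nd b k := by
    intro k hk
    simp [nd, hb', hk]
  have hndge : ∀ k, ¬ k < n → nd b' k = nd b 0 := by
    intro k hk
    simp [nd, hb', hk]
  have hrdlt : ∀ (w : W) k, k < n → rd N b' w k =
      if N (nd b k) = true ∧ ∀ j < k, nd b j ≠ nd b k then w.2.2.1 (nd b k) else w.1 k := by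
    intro w k hk
    have h6 : (∀ j < k, nd b' j ≠ nd b' k) ↔ ∀ j < k, nd b j ≠ nd b k := by
      constructor
      · intro h j hj
        have := h j hj
        rwa [hndlt k hk, hndlt j (lt_trans hj hk)] at this
      · intro h j hj
        rw [hndlt k hk, hndlt j (lt_trans hj hk)]
        exact h j hj
    unfold rd
    rw [hndlt k hk] at h6 ⊢
    simp only [h6]
  have hrdge : ∀ (w : W) k, ¬ k < n → rd N b' w k = w.1 k := by
    intro w k hk
    have h6 : ¬ ∀ j < k, nd b' j ≠ nd b' k := by
      intro h
      refine h 0 (by omega) ?_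
      rw [hndge k hk, hndlt 0 hnpos]
    simp only [rd, h6, and_false, if_false]
  -- the points far away
  choose w hw using fun l : ℕ => exists_rd hN b (ζ l) n
  set ω' : ℕ → W := fun l =>
    if l < n then ((fun k => if k < n then (ω l).1 k else ζ l k), (ω l).2)
    else ((fun k => if k < n then (w l).1 k else ζ l k), (w l).2) with hω'
  refine ⟨(b', ω'), hsub (Set.mk_mem_prod ?_ (hsub2 fun l hl => ?_)), ?_⟩
  · refine hn₁ c _ (fun k hk => hc k (by omega)) fun k hk => ?_
    simp [show k < n by omega]
  · have hlL : l ≤ L := hL hl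
    have hln : l < n := by omega
    simp only [hω', hln, if_true]
    refine hm l _ fun k hk => ?_
    have h7 := hnm l hlL
    simp [show k < n by omega]
  · refine Prod.ext rfl ?_
    funext l k
    show rd N b' (ω' l) k = ζ l k
    by_cases hk : k < n
    · rw [hrdlt _ k hk]
      by_cases hl : l < n
      · have h8 := hζ l hl k hk
        rw [h8]
        simp only [hω', hl, if_true, rd, hk]
      · have h8 := hw l k hk
        rw [← h8]
        simp only [hω', hl, if_false, rd, hk, if_true]
    · rw [hrdge _ k hk]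
      by_cases hl : l < n
      · simp [hω', hl, hk]
      · simp [hω', hl, hk]

/-- The default reading. -/
def K0_SP7 (q : W × (ℕ → W)) : C × (ℕ → C) := (q.1.1, fun l => (q.2 l).1)

theorem continuous_K0_SP7 : Continuous K0_SP7 := by
  refine Continuous.prodMk (continuous_fst.comp continuous_fst) ?_
  exact continuous_pi fun l => continuous_fst.comp ((continuous_apply l).comp continuous_snd)

theorem isOpenMap_K0_SP7 : IsOpenMap K0_SP7 := by
  refine isOpenMap_of_section fun q => ⟨fun y => ((y.1, q.1.2), fun l => (y.2 l, (q.2 l).2)),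
    ?_, ?_, ?_⟩
  · refine Continuous.prodMk (Continuous.prodMk continuous_fst continuous_const) ?_
    exact continuous_pi fun l => Continuous.prodMk ((continuous_apply l).comp continuous_snd)
      continuous_const
  · rfl
  · intro y
    rfl

theorem surjective_K0_SP7 : Function.Surjective K0_SP7 := by
  intro y
  exact ⟨((y.1, v0.2.2), fun l => (y.2 l, v0.2.2)), rfl⟩

/-- The default reading can be replaced by any good one. -/
theorem cp0 {N : Nd} (hN : Good N) {R : Set (C × (ℕ → C))} (hR : MeasurableSet R)
    (h : ∀ᵇ q : W × (ℕ → W), (q.1.1, fun l => (q.2 l).1) ∈ R) :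
    ∀ᵇ q : W × (ℕ → W), KN N q ∈ R := by
  have h1 : ∀ᵇ y : C × (ℕ → C), y ∈ R :=
    of_open_surj continuous_K0_SP7 isOpenMap_K0_SP7 surjective_K0_SP7 hR h
  have h2 := tendsto_residual_of_somewhere (continuous_KN N) (KN_somewhere hN)
  exact h2.eventually h1

end Pool.CH
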